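import Mathlib
import Pool.Agent.MP_6b3410_lc.H75.Spec

/-!
Statements of the steps of the time-space tradeoff for randomized branching programs.
-/

namespace Pool.Agent.MP_6b3410_lc.T26

open Classical Finset

/-- the state of a branching program after `t` steps on the input `x`, started at `v` -/
def run {V S : Type} (var : S → V) (next : S → Bool → S) (x : V → Bool) (t : ℕ) (v : S) : S :=
  (fun v => next v (x (var v)))^[t] v

/-- the point with the coordinates of `u` on `F` and those of `v` elsewhere -/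
def hyb {m : ℕ} (F : Finset (Fin m)) (u v : Fin m → Bool) : Fin m → Bool :=
  fun i => if i ∈ F then u i else v i

/-- both values are taken on three eighths of every large embedded rectangle -/
def Bal {m : ℕ} (h : (Fin m → Bool) → Bool) (K : ℕ) : Prop :=
  ∀ (F G : Finset (Fin m)) (o : Fin m → Bool) (R₁ R₂ : Finset (Fin m → Bool)) (β : Bool),
    Disjoint F G → K ≤ R₁.card → K ≤ R₂.card →
    (∀ u ∈ R₁, ∀ i, i ∉ F → u i = o i) → (∀ v ∈ R₂, ∀ i, i ∉ G → v i = o i) →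
    3 * (R₁.card * R₂.card) ≤ 8 * ((R₁ ×ˢ R₂).filter fun p => h (hyb F p.1 p.2) = β).card

/-- the weight of every large embedded rectangle is at most zero -/
def Neg {m : ℕ} (w : (Fin m → Bool) → ℝ) (K : ℕ) : Prop :=
  ∀ (F G : Finset (Fin m)) (o : Fin m → Bool) (R₁ R₂ : Finset (Fin m → Bool)),
    Disjoint F G → K ≤ R₁.card → K ≤ R₂.card →
    (∀ u ∈ R₁, ∀ i, i ∉ F → u i = o i) → (∀ v ∈ R₂, ∀ i, i ∉ G → v i = o i) →
    ∑ p ∈ R₁ ×ˢ R₂, w (hyb F p.1 p.2) ≤ 0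

/-- `D x` is the set of coordinates read on `x` by a deterministic procedure -/
def Det {m : ℕ} (D : (Fin m → Bool) → Finset (Fin m)) : Prop :=
  ∀ x y : Fin m → Bool, (∀ i ∈ D x, y i = x i) → D y = D x

/-- the signed weight -/
noncomputable def wt {m : ℕ} (h : (Fin m → Bool) → Bool) (β : Bool) (y : Fin m → Bool) : ℝ :=
  if h y = β then -(5 / 3) else 1

/-- a projection onto `Γ` groups of `m` variables -/
def appG {V : Type} {Γ m : ℕ} (pr : V → ((Fin Γ × Fin m) × Bool) ⊕ Bool)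
    (z : Fin Γ → Fin m → Bool) : V → Bool :=
  fun e => Sum.elim (fun p : (Fin Γ × Fin m) × Bool => z p.1.1 p.1.2 == p.2) id (pr e)

/-- the bound of the two-tree lemma -/
noncomputable def bnd (m K a b u v : ℕ) : ℝ :=
  ((m : ℝ) + 1) ^ 2 * K * 2 ^ m * ((m : ℝ) / ((m : ℝ) + 1 - a - v)) ^ v *
    (1 / 2 ^ u + ((m : ℝ) / ((b : ℝ) + 1 - u)) ^ u * 2 ^ u / 2 ^ v)

/-- Row Look: a formula with hidden variables and `w` lookups along switchable arcs -/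
def LookStmt : Prop :=
  ∀ (N w : ℕ) (Y K Z : Type) [Fintype Y] [Fintype K] [Nonempty Y] (cls : K → Finset (Y × Bool))
    (src tgt : Z → K), (∀ p p', src p ≠ tgt p') →
    (∀ p p', src p = src p' → tgt p = tgt p' → p = p') →
    3 * (3 * (2 * Fintype.card Y + ∑ κ, (cls κ).card) + Fintype.card K + w + 1) ≤ N →
    ∃ (rail : Z → H19.Edge N) (rho : H19.Edge N → Bool), Function.Injective rail ∧
      ∀ x : H19.Edge N → Bool, (∀ e, e ∉ Set.range rail → x e = rho e) →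
        (H19.Ham x ↔ ∃ (y : Y → Bool) (p : Fin w → Z),
          Function.Injective (fun i => src (p i)) ∧ Function.Injective (fun i => tgt (p i)) ∧
          (∀ i, x (rail (p i)) = true) ∧
          ∀ κ, (∀ i, src (p i) ≠ κ) → (∀ i, tgt (p i) ≠ κ) → ∃ t ∈ cls κ, y t.1 = t.2)

/-- Row RS: a dense bipartite graph that is a disjoint union of large induced matchings -/
def RSStmt : Prop :=
  ∃ d₀ : ℕ, ∀ d : ℕ, d₀ ≤ d → ∀ q : ℕ, 1 ≤ q → q ^ 4 ≤ 2 ^ d →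
    ∃ (Γ : ℕ) (l r : Fin Γ → Fin q → Fin (2 ^ d)), 4 ^ d ≤ 2 * (Γ * q) ∧
      (∀ γ γ' i i', l γ i = l γ' i' → r γ i = r γ' i' → γ = γ' ∧ i = i') ∧
      ∀ γ γ' i i' j, l γ i = l γ' j → r γ i' = r γ' j → i = i'

/-- Row Gad: the disjunction over a dense family of groups is a projection of Hamiltonicity -/
def GadStmt : Prop :=
  ∃ C : ℕ, 1 ≤ C ∧ ∀ n m : ℕ, 1 ≤ m → C * m ^ 8 ≤ n →
    ∀ (c : Fin m × Fin m × Fin m × Fin m → Bool) (β : Bool),
      ∃ (Γ : ℕ) (pr : H19.Edge n → ((Fin Γ × Fin m) × Bool) ⊕ Bool), n ^ 2 ≤ C * (Γ * m) ∧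
        ∀ z : Fin Γ → Fin m → Bool, H19.Ham (appG pr z) ↔ ∃ g, H75.poly c (z g) = β

/-- Row Ext: polynomials of degree four that are balanced on large embedded rectangles -/
def ExtStmt : Prop :=
  ∀ m e : ℕ, 1 ≤ m → 160 * m ≤ e ^ 2 →
    ∃ c : Fin m × Fin m × Fin m × Fin m → Bool, Bal (H75.poly c) (100 * e * (m + 1) ^ (2 * e))

/-- Row Two: unbalanced rectangles for two trees -/
def TwoStmt : Prop :=
  ∀ (m K a b u v : ℕ) (w : (Fin m → Bool) → ℝ) (D₁ D₂ : (Fin m → Bool) → Finset (Fin m))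
    (X : Finset (Fin m → Bool)), (∀ x, w x ≤ 1) → Neg w K → Det D₁ → Det D₂ →
    (∀ x₁ ∈ X, ∀ x₂ ∈ X, ∀ y : Fin m → Bool, (∀ i ∈ D₁ x₁, y i = x₁ i) →
      (∀ i ∈ D₂ x₂, y i = x₂ i) → y ∈ X) →
    (∀ x ∈ X, (D₁ x).card ≤ a ∧ b ≤ (D₂ x)ᶜ.card) → a + v ≤ m → u ≤ b →
    ∑ x ∈ X, w x ≤ bnd m K a b u v

/-- Row Col: random colourings of the layers -/
def ColStmt : Prop :=
  ∀ (m r l k q : ℕ) (S : Fin r → Finset (Fin m)), 1 ≤ q → 1 ≤ k → (∀ j, (S j).card ≤ l) →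
    r * l ≤ k * m → 3200 * k * l * q ^ (2 * k) ≤ m →
    100 * (univ.filter fun χ : Fin r → Fin q =>
      ¬(q * ((univ.filter fun j => (χ j).val = 0).biUnion S).card ≤ 200 * k * m ∧
        m ≤ 4 * q ^ (2 * k) * ((univ.filter fun j => (χ j).val ≠ 0).biUnion S)ᶜ.card)).card
      ≤ q ^ r

/-- Row Prog: the weight of the inputs that reach a set of states -/
def ProgStmt : Prop :=
  ∀ (m K r l k q a b u v s : ℕ) (w : (Fin m → Bool) → ℝ) (S : Type) (W : Finset S)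
    (var : S → Fin m) (next : S → Bool → S) (v₀ : S) (P : S → Prop),
    (∀ x, w x ≤ 1) → Neg w K → (∀ x t, run var next x t v₀ ∈ W) → W.card ≤ s →
    1 ≤ q → 1 ≤ k → r * l ≤ k * m → 3200 * k * l * q ^ (2 * k) ≤ m →
    200 * k * m ≤ q * a → 4 * q ^ (2 * k) * b ≤ m → a + v ≤ m → u ≤ b →
    ∑ x ∈ univ.filter fun x => P (run var next x (r * l) v₀), w x ≤
      2 ^ m / 100 + (s : ℝ) ^ (r + 1) * bnd m K a b u v

/-- Row Avg: from a randomized program for the disjunction to a program for one group -/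
def AvgStmt : Prop :=
  ∀ (V : Type) (m Γ s T T' : ℕ) (h : (Fin m → Bool) → Bool) (β : Bool) (f : (V → Bool) → Prop)
    (pr : V → ((Fin Γ × Fin m) × Bool) ⊕ Bool) (Ω : Type) [Fintype Ω] (μ : Ω → ℝ)
    (var : Ω → Fin s → V) (next : Ω → Fin s → Bool → Fin s) (start : Ω → Fin s)
    (out : Ω → Fin s → Bool),
    1 ≤ m → 1 ≤ Γ → 2 * (univ.filter fun y => h y = β).card ≤ 2 ^ m →
    (∀ z, f (appG pr z) ↔ ∃ g, h (z g) = β) → (∀ ω, 0 ≤ μ ω) → ∑ ω, μ ω = 1 →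
    (∀ x, 2 / 3 ≤ ∑ ω ∈ univ.filter fun ω =>
      (out ω (run (var ω) (next ω) x T (start ω)) = true ↔ f x), μ ω) →
    18 * T ≤ Γ * T' →
    ∃ (S : Type) (W : Finset S) (var' : S → Fin m) (next' : S → Bool → S) (v₀ : S)
      (P : S → Prop), (∀ x t, run var' next' x t v₀ ∈ W) ∧ W.card ≤ s * (T + 1) ∧
      (2 : ℝ) ^ m / 36 ≤ ∑ y ∈ univ.filter fun y => P (run var' next' y T' v₀), wt h β y

/-- Row Num: the inequality for the parameters `m = M ^ 10`, `M = 2 ^ ν` -/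
def NumStmt : Prop :=
  ∃ ν₀ : ℕ, ∀ ν : ℕ, ν₀ ≤ ν → ∀ M k q s K : ℕ, M = 2 ^ ν → 1 ≤ k → k ≤ ν → ν ^ 3 ≤ q → q ≤ M →
    s ≤ 2 ^ M ^ 4 → K ≤ 2 ^ M ^ 7 →
    200 * k * M ^ 10 / q + 1 + M ^ 8 * (5 + ν) ≤ M ^ 10 ∧
    (2 : ℝ) ^ M ^ 10 / 100 + (s : ℝ) ^ (k * M ^ 2 + 1) *
      bnd (M ^ 10) K (200 * k * M ^ 10 / q + 1) (M ^ 9 / 4) (M ^ 8) (M ^ 8 * (5 + ν)) <
      2 ^ M ^ 10 / 36

end Pool.Agent.MP_6b3410_lc.T26
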