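import Pool.Agent.MP_6b3410_lc.T26.Spec

/-!
From a randomized program for the disjunction to a program for one group.
-/

namespace Pool.Agent.MP_6b3410_lc.T26

open Classical Finset

namespace Avg

section Comp

variable {V S : Type} {m : ℕ} (var : S → V) (next : S → Bool → S)

theorem run_succ (x : V → Bool) (t : ℕ) (v : S) :
    run var next x (t + 1) v = run var next x t (next v (x (var v))) := rfl

/-- the number of steps which read a marked variable -/
def cnt (L : V → Bool) (x : V → Bool) : ℕ → S → ℕ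
  | 0, _ => 0
  | t + 1, v => (if L (var v) then 1 else 0) + cnt L x t (next v (x (var v)))

theorem sum_cnt {ι : Type} [Fintype ι] (L : ι → V → Bool)
    (hL : ∀ e, ∑ g, (if L g e then 1 else 0) ≤ 1) (x : V → Bool) (t : ℕ) (v : S) :
    ∑ g, cnt var next (L g) x t v ≤ t := by
  induction t generalizing v with
  | zero => simp [cnt]
  | succ t ih =>
    simp only [cnt, sum_add_distrib]
    have := hL (var v)
    have := ih (next v (x (var v)))
    omega

variable (ov : V → Option (Fin m × Bool)) (cb : V → Bool)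

/-- the input -/
def inp (y : Fin m → Bool) (e : V) : Bool := (ov e).elim (cb e) fun p => y p.1 == p.2

/-- skip the constant variables -/
def nrm : ℕ → S → S × ℕ
  | 0, v => (v, 0)
  | t + 1, v => if (ov (var v)).isSome then (v, t + 1) else nrm t (next v (cb (var v)))

/-- the variable of the compressed program -/
def var' (i₀ : Fin m) (p : S × ℕ) : Fin m := (ov (var p.1)).elim i₀ Prod.fst

/-- the step of the compressed program -/
def next' : S × ℕ → Bool → S × ℕ
  | (v, 0), _ => (v, 0)
  | (v, t + 1), b => nrm var next ov cb t (next v (b == (ov (var v)).elim false Prod.snd))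

theorem nrm_le (t : ℕ) (v : S) : (nrm var next ov cb t v).2 ≤ t := by
  induction t generalizing v with
  | zero => exact le_rfl
  | succ t ih =>
    rw [nrm]
    split_ifs
    · exact le_rfl
    · exact (ih _).trans (Nat.le_succ t)

theorem run_le (i₀ : Fin m) (y : Fin m → Bool) (n : ℕ) (p : S × ℕ) :
    (run (var' var ov i₀) (next' var next ov cb) y n p).2 ≤ p.2 := by
  induction n generalizing p with
  | zero => exact le_rfl
  | succ n ih =>
    rw [run_succ]
    refine (ih _).trans ?_
    obtain ⟨v, _ | t⟩ := p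
    · exact le_rfl
    · exact (nrm_le var next ov cb t _).trans (Nat.le_succ t)

theorem comp (i₀ : Fin m) (y : Fin m → Bool) (Q : S → Prop) (t : ℕ) (v : S) (n : ℕ) :
    ((run (var' var ov i₀) (next' var next ov cb) y n (nrm var next ov cb t v)).2 = 0 ∧
      Q (run (var' var ov i₀) (next' var next ov cb) y n (nrm var next ov cb t v)).1) ↔
    (Q (run var next (inp ov cb y) t v) ∧
      cnt var next (fun e => (ov e).isSome) (inp ov cb y) t v ≤ n) := by
  induction t generalizing v n with
  | zero =>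
    have : run (var' var ov i₀) (next' var next ov cb) y n (v, 0) = (v, 0) :=
      Function.iterate_fixed rfl n
    rw [nrm, this]
    simp [cnt, run]
  | succ t ih =>
    rw [nrm, run_succ var, cnt]
    rcases h : ov (var v) with _ | ⟨i, b⟩
    · simp only [Option.isSome_none, Bool.false_eq_true, if_false, zero_add]
      rw [ih, inp, h]
      rfl
    · simp only [Option.isSome_some, if_true]
      rcases n with _ | n
      · simp [run]
      · rw [run_succ, next', ih, inp, var', h, add_comm 1, Nat.add_le_add_iff_right]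
        rfl

end Comp

variable {V : Type} {m Γ : ℕ} (pr : V → ((Fin Γ × Fin m) × Bool) ⊕ Bool)

/-- the literals of one group -/
def ovG (g : Fin Γ) (e : V) : Option (Fin m × Bool) :=
  Sum.elim (fun p : (Fin Γ × Fin m) × Bool => if p.1.1 = g then some (p.1.2, p.2) else none)
    (fun _ => none) (pr e)

theorem inp_eq (g : Fin Γ) (z : Fin Γ → Fin m → Bool) (y : Fin m → Bool) :
    inp (ovG pr g) (appG pr z) y = appG pr (Function.update z g y) := by
  funext e
  simp only [inp, ovG, appG]
  rcases pr e with ⟨⟨g', i⟩, b⟩ | b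
  · by_cases h : g' = g
    · simp [h]
    · simp [h]
  · simp

theorem sum_ov (e : V) : ∑ g, (if (ovG pr g e).isSome then 1 else 0) ≤ 1 := by
  rcases h : pr e with ⟨⟨g', i⟩, b⟩ | b
  · refine le_of_eq ((sum_congr rfl fun g _ => ?_).trans (sum_ite_eq univ g' fun _ => 1)) |>.trans
      (by simp)
    by_cases h' : g' = g <;> simp [ovG, h, h']
  · simp [ovG, h]

theorem few {c : Fin Γ → ℕ} {T T' : ℕ} (h : ∑ g, c g ≤ T) (hT : 18 * T ≤ Γ * T') :
    (Γ : ℝ) - Γ / 18 ≤ ∑ g, if c g ≤ T' then (1 : ℝ) else 0 := by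
  have h1 : (univ.filter fun g => ¬c g ≤ T').card * (T' + 1) ≤ T := by
    refine le_trans ?_ ((sum_le_sum_of_subset (filter_subset (fun g => ¬c g ≤ T') univ)).trans h)
    exact card_nsmul_le_sum _ c (T' + 1) fun g hg => not_le.1 (mem_filter.1 hg).2
  have h2 : 18 * (univ.filter fun g => ¬c g ≤ T').card ≤ Γ :=
    Nat.le_of_mul_le_mul_right (by nlinarith) (Nat.succ_pos T')
  have h3 := card_filter_add_card_filter_not (s := univ) fun g => c g ≤ T'
  rw [card_univ, Fintype.card_fin] at h3
  rw [sum_boole]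
  have h4 : (18 : ℝ) * (univ.filter fun g => ¬c g ≤ T').card ≤ Γ := by exact_mod_cast h2
  have h5 : ((univ.filter fun g => c g ≤ T').card : ℝ) +
      (univ.filter fun g => ¬c g ≤ T').card = Γ := by exact_mod_cast h3
  linarith

theorem swap {A : Type} (H : Finset A) (g : Fin Γ) (φ : (Fin Γ → A) → ℝ) :
    ∑ z ∈ Fintype.piFinset fun _ => H, ∑ y ∈ H, φ (Function.update z g y) =
      H.card * ∑ z ∈ Fintype.piFinset fun _ => H, φ z := by
  have m : ∀ p ∈ (Fintype.piFinset fun _ : Fin Γ => H) ×ˢ H,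
      (Function.update p.1 g p.2, p.1 g) ∈ (Fintype.piFinset fun _ : Fin Γ => H) ×ˢ H :=
    fun p hp => by
      obtain ⟨h1, h2⟩ := mem_product.1 hp
      rw [Fintype.mem_piFinset] at h1
      refine mem_product.2 ⟨Fintype.mem_piFinset.2 fun j => ?_, h1 g⟩
      by_cases e : j = g
      · simpa [e] using h2
      · simpa [e] using h1 j
  rw [← sum_product', sum_nbij' (g := fun p => φ p.1) _ _ m m (fun p _ => by simp)
    (fun p _ => by simp) fun p _ => rfl, sum_product, mul_sum]
  simp

end Avg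

open Avg in
theorem avg : AvgStmt := by
  intro V m Γ s T T' h β f pr Ω _ μ var next start out hm hΓ hβ hf μ0 μ1 hc hT
  set H := univ.filter fun y => ¬h y = β with hH
  set H' := univ.filter fun y => h y = β with hH'
  set Z := Fintype.piFinset fun _ : Fin Γ => H with hZ
  have c1 : (H'.card : ℝ) + H.card = 2 ^ m := by
    have := card_filter_add_card_filter_not (s := univ) fun y => h y = β
    rw [card_univ, Fintype.card_fun, Fintype.card_bool, Fintype.card_fin] at this
    exact_mod_cast this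
  have c2 : 2 * (H'.card : ℝ) ≤ 2 ^ m := by exact_mod_cast hβ
  have c3 : (0 : ℝ) < 2 ^ m := by positivity
  have Zn : Z.Nonempty := Fintype.piFinset_nonempty.2 fun _ => card_pos.1 (by
    have : (0 : ℝ) < H.card := by linarith
    exact_mod_cast this)
  set O : Ω → (Fin Γ → Fin m → Bool) → Prop := fun ω z =>
    out ω (run (var ω) (next ω) (appG pr z) T (start ω)) = false with hO
  set E : Ω → Fin Γ → (Fin Γ → Fin m → Bool) → Prop := fun ω g z => O ω z ∧
    cnt (var ω) (next ω) (fun e => (ovG pr g e).isSome) (appG pr z) T (start ω) ≤ T' with hE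
  set p : Fin Γ → (Fin Γ → Fin m → Bool) → ℝ := fun g z => ∑ ω, μ ω * if E ω g z then 1 else 0
    with hp
  have p1 : ∀ g z, h (z g) = β → p g z ≤ 1 / 3 := fun g z e => by
    have a1 := hc (appG pr z)
    have a2 := sum_filter_add_sum_filter_not univ (fun ω =>
      (out ω (run (var ω) (next ω) (appG pr z) T (start ω)) = true ↔ f (appG pr z))) μ
    rw [μ1] at a2
    refine le_trans ?_ ((eq_sub_of_add_eq' a2).le.trans (by linarith))
    rw [sum_filter]
    refine sum_le_sum fun ω _ => ?_
    by_cases b : E ω g z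
    · rw [if_pos b, mul_one, if_pos fun c => ?_]
      exact Bool.false_ne_true (b.1.symm.trans (c.2 ((hf z).2 ⟨g, e⟩)))
    · rw [if_neg b, mul_zero]
      split_ifs
      exacts [le_rfl, μ0 ω]
  have p2 : ∀ z ∈ Z, (Γ : ℝ) * (11 / 18) ≤ ∑ g, p g z := fun z hz => by
    have nf : ¬f (appG pr z) := fun c => by
      obtain ⟨g, e⟩ := (hf z).1 c
      exact (mem_filter.1 (Fintype.mem_piFinset.1 hz g)).2 e
    have a1 := hc (appG pr z)
    rw [sum_filter] at a1
    have a2 := mul_le_mul_of_nonneg_left a1 (show (0 : ℝ) ≤ Γ - Γ / 18 by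
      linarith [Nat.cast_nonneg (α := ℝ) Γ])
    rw [sum_comm]
    refine le_trans (by linarith [Nat.cast_nonneg (α := ℝ) Γ]) (a2.trans ?_)
    rw [mul_sum]
    refine sum_le_sum fun ω _ => ?_
    rw [← mul_sum]
    split_ifs with c
    · have o : O ω z := Bool.eq_false_iff.2 fun e => nf (c.1 e)
      rw [mul_comm]
      refine mul_le_mul_of_nonneg_left ((few (sum_cnt (var ω) (next ω) _ (sum_ov pr) (appG pr z) T
        (start ω)) hT).trans_eq (sum_congr rfl fun g _ => ?_)) (μ0 ω)
      exact if_congr (and_iff_right o).symm rfl rfl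
    · rw [mul_zero]
      exact mul_nonneg (μ0 ω) (sum_nonneg fun g _ => by split_ifs <;> norm_num)
  set F : Ω → Fin Γ × (Fin Γ → Fin m → Bool) → ℝ := fun ω q =>
    ∑ y, wt h β y * if E ω q.1 (Function.update q.2 q.1 y) then 1 else 0 with hF
  have tot : ∑ ω, μ ω * ∑ _q ∈ (univ : Finset (Fin Γ)) ×ˢ Z, (2 : ℝ) ^ m / 36 ≤
      ∑ ω, μ ω * ∑ q ∈ univ ×ˢ Z, F ω q := by
    have e1 : ∑ ω, μ ω * ∑ q ∈ univ ×ˢ Z, F ω q =
        ∑ g, ∑ z ∈ Z, ∑ y, wt h β y * p g (Function.update z g y) := by
      simp only [hF, hp, mul_sum, sum_product, mul_left_comm (wt h β _)]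
      rw [sum_comm]
      refine sum_congr rfl fun g _ => ?_
      rw [sum_comm]
      exact sum_congr rfl fun z _ => sum_comm
    have e2 : ∀ g, H.card * ∑ z ∈ Z, p g z - Z.card * (H'.card * (5 / 9)) ≤
        ∑ z ∈ Z, ∑ y, wt h β y * p g (Function.update z g y) := fun g => by
      rw [← swap H g (p g), ← nsmul_eq_mul, ← sum_const, ← sum_sub_distrib]
      refine sum_le_sum fun z _ => ?_
      rw [← sum_filter_add_sum_filter_not univ fun y => h y = β, sub_eq_neg_add]
      refine add_le_add ?_ (sum_congr rfl fun y hy => ?_).le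
      · rw [← mul_neg, ← nsmul_eq_mul]
        refine card_nsmul_le_sum _ _ _ fun y hy => ?_
        have := p1 g (Function.update z g y) (by simpa using (mem_filter.1 hy).2)
        rw [wt, if_pos (mem_filter.1 hy).2]
        linarith
      · rw [wt, if_neg (mem_filter.1 hy).2, one_mul]
    have e3 := card_nsmul_le_sum _ _ _ p2
    rw [e1, ← sum_mul, μ1, one_mul, sum_const, card_product, card_univ, Fintype.card_fin]
    refine le_trans ?_ (sum_le_sum fun g _ => e2 g)
    rw [sum_sub_distrib, ← mul_sum, sum_comm, sum_const, card_univ, Fintype.card_fin]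
    simp only [nsmul_eq_mul, Nat.cast_mul] at e3 ⊢
    have e4 := mul_le_mul_of_nonneg_left e3 (Nat.cast_nonneg (α := ℝ) H.card)
    have e5 : (0 : ℝ) ≤ Γ * Z.card := by positivity
    nlinarith [mul_le_mul_of_nonneg_left c2 e5]
  obtain ⟨ω, hω⟩ : ∃ ω, ∑ _q ∈ (univ : Finset (Fin Γ)) ×ˢ Z, (2 : ℝ) ^ m / 36 ≤
      ∑ q ∈ univ ×ˢ Z, F ω q := by
    by_contra n
    obtain ⟨ω, -, hω⟩ := exists_ne_zero_of_sum_ne_zero (μ1.trans_ne one_ne_zero)
    exact (sum_lt_sum (fun ω _ => mul_le_mul_of_nonneg_left (not_le.1 fun c => n ⟨ω, c⟩).le (μ0 ω))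
      ⟨ω, mem_univ ω, mul_lt_mul_of_pos_left (not_le.1 fun c => n ⟨ω, c⟩)
        ((μ0 ω).lt_of_ne' hω)⟩).not_ge tot
  obtain ⟨⟨g, z⟩, -, hq⟩ := exists_le_of_sum_le (Nonempty.product ⟨⟨0, hΓ⟩, mem_univ _⟩ Zn) hω
  refine ⟨Fin s × ℕ, univ ×ˢ range (T + 1), var' (var ω) (ovG pr g) ⟨0, hm⟩,
    next' (var ω) (next ω) (ovG pr g) (appG pr z),
    nrm (var ω) (next ω) (ovG pr g) (appG pr z) T (start ω),
    fun p => p.2 = 0 ∧ out ω p.1 = false, fun x t => mem_product.2 ⟨mem_univ _,
      mem_range.2 (Nat.lt_succ_of_le ((run_le _ _ _ _ _ _ _ _).trans (nrm_le _ _ _ _ _ _)))⟩,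
    by simp, hq.trans_eq ?_⟩
  rw [sum_filter]
  refine sum_congr rfl fun y _ => ?_
  have := comp (var ω) (next ω) (ovG pr g) (appG pr z) ⟨0, hm⟩ y (fun v => out ω v = false) T
    (start ω) T'
  rw [inp_eq] at this
  by_cases c : E ω g (Function.update z g y)
  · rw [if_pos c, mul_one, if_pos (this.2 c)]
  · rw [if_neg c, mul_zero, if_neg fun e => c (this.1 e)]

end Pool.Agent.MP_6b3410_lc.T26
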