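import Pool.Agent.MP_6b3410_lc.T26.Spec

/-!
Random colourings of the layers: a first moment bound and a second moment bound.
-/

namespace Pool.Agent.MP_6b3410_lc.T26

open Classical Finset

namespace Col

/-- the indicator of the colourings that vanish on `D` -/
noncomputable def ev {r q : ℕ} (D : Finset (Fin r)) (χ : Fin r → Fin q) : ℝ :=
  if ∀ j ∈ D, (χ j).val = 0 then 1 else 0

theorem ev_nonneg {r q : ℕ} (D : Finset (Fin r)) (χ : Fin r → Fin q) : 0 ≤ ev D χ := by
  unfold ev; split_ifs <;> norm_num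

theorem ev_mul {r q : ℕ} (D D' : Finset (Fin r)) (χ : Fin r → Fin q) :
    ev D χ * ev D' χ = ev (D ∪ D') χ := by
  unfold ev
  by_cases h : ∀ j ∈ D, (χ j).val = 0
  · by_cases h' : ∀ j ∈ D', (χ j).val = 0
    · have h2 : ∀ j ∈ D ∪ D', (χ j).val = 0 := fun j hj =>
        (Finset.mem_union.1 hj).elim (h j) (h' j)
      rw [if_pos h, if_pos h', if_pos h2, one_mul]
    · have h2 : ¬∀ j ∈ D ∪ D', (χ j).val = 0 := fun h2 =>
        h' fun j hj => h2 j (Finset.mem_union_right _ hj)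
      rw [if_neg h', if_neg h2, mul_zero]
  · have h2 : ¬∀ j ∈ D ∪ D', (χ j).val = 0 := fun h2 =>
      h fun j hj => h2 j (Finset.mem_union_left _ hj)
    rw [if_neg h, if_neg h2, zero_mul]

theorem sum_ev {r q : ℕ} (hq : 1 ≤ q) (D : Finset (Fin r)) :
    ∑ χ : Fin r → Fin q, ev D χ = (q : ℝ) ^ r * (1 / q) ^ D.card := by
  have h1 : ∀ χ : Fin r → Fin q, ev D χ =
      ∏ j, (if j ∈ D then (if (χ j).val = 0 then (1 : ℝ) else 0) else 1) := by
    intro χ
    unfold ev
    split_ifs with h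
    · refine (Finset.prod_eq_one fun j _ => ?_).symm
      split_ifs with hj h2
      · rfl
      · exact absurd (h j hj) h2
      · rfl
    · push Not at h
      obtain ⟨j, hj, hg⟩ := h
      refine (Finset.prod_eq_zero (Finset.mem_univ j) ?_).symm
      rw [if_pos hj, if_neg hg]
  simp_rw [h1]
  have h2 := Finset.prod_univ_sum (fun _ : Fin r => (Finset.univ : Finset (Fin q)))
    (fun j (x : Fin q) => if j ∈ D then (if x.val = 0 then (1 : ℝ) else 0) else 1)
  rw [Fintype.piFinset_univ] at h2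
  rw [← h2]
  have hq0 : (q : ℝ) ≠ 0 := by positivity
  have h3 : ∀ j : Fin r, (∑ x : Fin q, if j ∈ D then (if x.val = 0 then (1 : ℝ) else 0) else 1) =
      (q : ℝ) * (if j ∈ D then 1 / (q : ℝ) else 1) := by
    intro j
    split_ifs with hj
    · rw [mul_one_div_cancel hq0]
      obtain ⟨q', rfl⟩ : ∃ q', q = q' + 1 := ⟨q - 1, by omega⟩
      rw [Fin.sum_univ_succ]
      simp
    · simp
  rw [Finset.prod_congr rfl fun j _ => h3 j, Finset.prod_mul_distrib, Finset.prod_const,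
    Finset.card_univ, Fintype.card_fin, Finset.prod_ite, Finset.prod_const, Finset.prod_const_one,
    mul_one, Finset.filter_mem_eq_inter, Finset.univ_inter]

theorem first (m r l k q : ℕ) (S : Fin r → Finset (Fin m)) (hq : 1 ≤ q) (hk : 1 ≤ k) (hm : 1 ≤ m)
    (hS : ∀ j, (S j).card ≤ l) (hr : r * l ≤ k * m) :
    200 * ((univ.filter fun χ : Fin r → Fin q =>
      ¬(q * ((univ.filter fun j => (χ j).val = 0).biUnion S).card ≤ 200 * k * m)).card : ℝ)
      ≤ (q : ℝ) ^ r := by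
  have hq0 : (q : ℝ) ≠ 0 := by positivity
  have h1 : ∀ χ : Fin r → Fin q,
      ((q * ((univ.filter fun j => (χ j).val = 0).biUnion S).card : ℕ) : ℝ) ≤
        ∑ j, (q : ℝ) * l * ev {j} χ := by
    intro χ
    have h2 : ((univ.filter fun j => (χ j).val = 0).biUnion S).card ≤
        ∑ j ∈ univ.filter fun j => (χ j).val = 0, l :=
      Finset.card_biUnion_le.trans (Finset.sum_le_sum fun j _ => hS j)
    have h3 : ∑ j, (q : ℝ) * l * ev {j} χ =
        q * ((∑ j ∈ univ.filter fun j => (χ j).val = 0, l : ℕ) : ℝ) := by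
      rw [Finset.sum_filter]
      push_cast
      rw [Finset.mul_sum]
      refine Finset.sum_congr rfl fun j _ => ?_
      unfold ev
      by_cases h : (χ j).val = 0 <;> simp [h]
    rw [h3]
    push_cast
    refine mul_le_mul_of_nonneg_left ?_ (by positivity)
    exact_mod_cast h2
  have h4 : ∑ χ : Fin r → Fin q, ∑ j, (q : ℝ) * l * ev {j} χ = (q : ℝ) ^ r * (r * l) := by
    rw [Finset.sum_comm]
    have : ∀ j : Fin r, ∑ χ : Fin r → Fin q, (q : ℝ) * l * ev {j} χ = (q : ℝ) ^ r * l := by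
      intro j
      rw [← Finset.mul_sum, sum_ev hq, Finset.card_singleton]
      field_simp
    rw [Finset.sum_congr rfl fun j _ => this j, Finset.sum_const, Finset.card_univ,
      Fintype.card_fin, nsmul_eq_mul]
    ring
  obtain ⟨X, hX⟩ : ∃ X, X = univ.filter fun χ : Fin r → Fin q =>
      ¬(q * ((univ.filter fun j => (χ j).val = 0).biUnion S).card ≤ 200 * k * m) := ⟨_, rfl⟩
  rw [← hX]
  have h5 : (X.card : ℝ) * (200 * k * m) ≤ (q : ℝ) ^ r * (r * l) := by
    rw [← h4, ← nsmul_eq_mul, ← Finset.sum_const]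
    refine le_trans (Finset.sum_le_sum fun χ hχ => ?_)
      (Finset.sum_le_sum_of_subset_of_nonneg (Finset.subset_univ X) fun χ _ _ =>
        Finset.sum_nonneg fun j _ => mul_nonneg (by positivity) (ev_nonneg _ _))
    refine le_trans ?_ (h1 χ)
    rw [hX] at hχ
    have := (not_le.1 (Finset.mem_filter.1 hχ).2).le
    exact_mod_cast this
  have h6 : ((r : ℝ) * l) ≤ k * m := by exact_mod_cast hr
  have h7 : (0 : ℝ) < k * m := by positivity
  have h8 : (0 : ℝ) < (q : ℝ) ^ r := by positivity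
  refine le_of_mul_le_mul_right ?_ h7
  nlinarith

/-- the second moment bound in general form -/
theorem cheb {Ω : Type} [Fintype Ω] (Z : Ω → ℝ) (N μ v : ℝ) (X : Finset Ω)
    (hN : (Fintype.card Ω : ℝ) = N) (h1 : ∑ ω, Z ω = N * μ)
    (h2 : ∑ ω, Z ω ^ 2 ≤ N * (μ ^ 2 + v * μ)) (hX : ∀ ω ∈ X, 2 * Z ω ≤ μ) (hμ : 0 < μ) :
    (X.card : ℝ) * μ ≤ 4 * v * N := by
  have h3 : ∑ ω, (Z ω - μ) ^ 2 ≤ N * (v * μ) := by
    have : ∀ ω, (Z ω - μ) ^ 2 = Z ω ^ 2 - 2 * μ * Z ω + μ ^ 2 := fun ω => by ring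
    rw [Finset.sum_congr rfl fun ω _ => this ω, Finset.sum_add_distrib, Finset.sum_sub_distrib,
      ← Finset.mul_sum, h1, Finset.sum_const, Finset.card_univ, nsmul_eq_mul, hN]
    nlinarith
  have h4 : (X.card : ℝ) * (μ ^ 2 / 4) ≤ ∑ ω, (Z ω - μ) ^ 2 := by
    rw [← nsmul_eq_mul, ← Finset.sum_const]
    refine le_trans (Finset.sum_le_sum fun ω hω => ?_)
      (Finset.sum_le_sum_of_subset_of_nonneg (Finset.subset_univ X) fun ω _ _ => sq_nonneg _)
    have := hX ω hω
    nlinarith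
  refine le_of_mul_le_mul_right ?_ hμ
  nlinarith

theorem half (m r l k : ℕ) (S : Fin r → Finset (Fin m)) (hk : 1 ≤ k)
    (hS : ∀ j, (S j).card ≤ l) (hr : r * l ≤ k * m) :
    m ≤ 2 * (univ.filter fun i : Fin m =>
      (univ.filter fun j => i ∈ S j).card ≤ 2 * k).card := by
  have h1 : ∑ i : Fin m, (univ.filter fun j => i ∈ S j).card = ∑ j, (S j).card := by
    simp_rw [Finset.card_filter]
    rw [Finset.sum_comm]
    refine Finset.sum_congr rfl fun j _ => ?_
    rw [← Finset.card_filter, Finset.filter_mem_eq_inter, Finset.univ_inter]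
  have h2 : ∑ j, (S j).card ≤ r * l := by
    refine (Finset.sum_le_sum fun j _ => hS j).trans ?_
    rw [Finset.sum_const, Finset.card_univ, Fintype.card_fin, smul_eq_mul]
  have h3 := Finset.card_filter_add_card_filter_not (s := (univ : Finset (Fin m)))
    (fun i : Fin m => (univ.filter fun j => i ∈ S j).card ≤ 2 * k)
  rw [Finset.card_univ, Fintype.card_fin] at h3
  obtain ⟨Y, hY⟩ : ∃ Y, Y = univ.filter fun i : Fin m =>
      ¬(univ.filter fun j => i ∈ S j).card ≤ 2 * k := ⟨_, rfl⟩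
  rw [← hY] at h3
  have h4 : Y.card * (2 * k) ≤ ∑ i : Fin m, (univ.filter fun j => i ∈ S j).card := by
    rw [← smul_eq_mul, ← Finset.sum_const]
    refine le_trans (Finset.sum_le_sum fun i hi => ?_)
      (Finset.sum_le_sum_of_subset (Finset.subset_univ Y))
    rw [hY] at hi
    exact (not_le.1 (Finset.mem_filter.1 hi).2).le
  have h5 : 2 * Y.card ≤ m := by
    refine Nat.le_of_mul_le_mul_left (c := k) ?_ hk
    nlinarith
  omega

theorem second (m r l k q : ℕ) (S : Fin r → Finset (Fin m)) (hq : 1 ≤ q) (hk : 1 ≤ k) (hm : 1 ≤ m)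
    (hS : ∀ j, (S j).card ≤ l) (hr : r * l ≤ k * m) (hl : 3200 * k * l * q ^ (2 * k) ≤ m) :
    200 * ((univ.filter fun χ : Fin r → Fin q =>
      ¬(m ≤ 4 * q ^ (2 * k) * ((univ.filter fun j => (χ j).val ≠ 0).biUnion S)ᶜ.card)).card : ℝ)
      ≤ (q : ℝ) ^ r := by
  have hq0 : (0 : ℝ) < q := by positivity
  have hq1 : (1 : ℝ) ≤ q := by exact_mod_cast hq
  have hp0 : (0 : ℝ) ≤ 1 / q := by positivity
  have hp1 : (1 : ℝ) / q ≤ 1 := by rw [div_le_one hq0]; exact hq1
  have hN0 : (0 : ℝ) < (q : ℝ) ^ r := by positivity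
  have hI := half m r l k S hk hS hr
  obtain ⟨D, hD⟩ : ∃ D : Fin m → Finset (Fin r), D = fun i => univ.filter fun j => i ∈ S j :=
    ⟨_, rfl⟩
  have hDm : ∀ i j, j ∈ D i ↔ i ∈ S j := fun i j => by rw [hD]; simp
  obtain ⟨I, hId⟩ : ∃ I, I = univ.filter fun i : Fin m =>
      (univ.filter fun j => i ∈ S j).card ≤ 2 * k := ⟨_, rfl⟩
  rw [← hId] at hI
  have hIm : ∀ i ∈ I, (D i).card ≤ 2 * k := fun i hi => by
    rw [hId] at hi; rw [hD]; exact (Finset.mem_filter.1 hi).2
  obtain ⟨μ, hμ⟩ : ∃ μ : ℝ, μ = ∑ i ∈ I, (1 / (q : ℝ)) ^ (D i).card := ⟨_, rfl⟩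
  have hQ0 : (0 : ℝ) < (q : ℝ) ^ (2 * k) := by positivity
  have hμ1 : (m : ℝ) ≤ 2 * (q : ℝ) ^ (2 * k) * μ := by
    have h1 : (I.card : ℝ) * (1 / (q : ℝ)) ^ (2 * k) ≤ μ := by
      rw [hμ, ← nsmul_eq_mul, ← Finset.sum_const]
      exact Finset.sum_le_sum fun i hi => pow_le_pow_of_le_one hp0 hp1 (hIm i hi)
    have h2 : (m : ℝ) ≤ 2 * I.card := by exact_mod_cast hI
    have h3 : (q : ℝ) ^ (2 * k) * (1 / (q : ℝ)) ^ (2 * k) = 1 := by
      rw [← mul_pow, mul_one_div_cancel hq0.ne', one_pow]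
    have h4 := mul_le_mul_of_nonneg_left h1 hQ0.le
    have h5 : (q : ℝ) ^ (2 * k) * (I.card * (1 / (q : ℝ)) ^ (2 * k)) = I.card := by
      rw [mul_left_comm, h3, mul_one]
    linarith
  have hm0 : (0 : ℝ) < m := by positivity
  have hμ0 : 0 < μ := by
    by_contra h
    have := mul_nonpos_of_nonneg_of_nonpos (a := 2 * (q : ℝ) ^ (2 * k)) (by positivity)
      (not_lt.1 h)
    linarith
  obtain ⟨X, hX⟩ : ∃ X, X = univ.filter fun χ : Fin r → Fin q =>
      ¬(m ≤ 4 * q ^ (2 * k) * ((univ.filter fun j => (χ j).val ≠ 0).biUnion S)ᶜ.card) := ⟨_, rfl⟩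
  rw [← hX]
  have hc := cheb (fun χ : Fin r → Fin q => ∑ i ∈ I, ev (D i) χ) ((q : ℝ) ^ r) μ (2 * k * l) X
    (by simp) ?_ ?_ ?_ hμ0
  · have h1 : (3200 : ℝ) * k * l * (q : ℝ) ^ (2 * k) ≤ m := by exact_mod_cast hl
    have h2 : (1600 : ℝ) * k * l ≤ μ := by
      refine le_of_mul_le_mul_right ?_ hQ0
      linarith
    refine le_of_mul_le_mul_right ?_ hμ0
    nlinarith
  · rw [Finset.sum_comm, hμ, Finset.mul_sum]
    exact Finset.sum_congr rfl fun i _ => sum_ev hq _
  · have h1 : ∀ χ : Fin r → Fin q, (∑ i ∈ I, ev (D i) χ) ^ 2 =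
        ∑ i ∈ I, ∑ i' ∈ I, ev (D i ∪ D i') χ := by
      intro χ
      rw [sq, Finset.sum_mul_sum]
      simp_rw [ev_mul]
    simp_rw [h1]
    rw [Finset.sum_comm]
    have h2 : ∀ i ∈ I, ∑ χ : Fin r → Fin q, ∑ i' ∈ I, ev (D i ∪ D i') χ ≤
        (q : ℝ) ^ r * ((1 / (q : ℝ)) ^ (D i).card * (μ + 2 * k * l)) := by
      intro i hi
      rw [Finset.sum_comm]
      simp_rw [sum_ev hq]
      rw [← Finset.mul_sum]
      refine mul_le_mul_of_nonneg_left ?_ hN0.le
      have h3 : ∀ i' ∈ I, (1 / (q : ℝ)) ^ (D i ∪ D i').card ≤ (1 / (q : ℝ)) ^ (D i).card *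
          ((1 / (q : ℝ)) ^ (D i').card + if i' ∈ (D i).biUnion S then 1 else 0) := by
        intro i' _
        have h4 : (0 : ℝ) ≤ (1 / (q : ℝ)) ^ (D i).card := by positivity
        have h5 : (0 : ℝ) ≤ (1 / (q : ℝ)) ^ (D i').card := by positivity
        split_ifs with h
        · have h6 : (1 / (q : ℝ)) ^ (D i ∪ D i').card ≤ (1 / (q : ℝ)) ^ (D i).card :=
            pow_le_pow_of_le_one hp0 hp1 (Finset.card_le_card Finset.subset_union_left)
          nlinarith [mul_nonneg h4 h5]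
        · have h6 : Disjoint (D i) (D i') := Finset.disjoint_left.2 fun j hj hj' =>
            h (Finset.mem_biUnion.2 ⟨j, hj, (hDm i' j).1 hj'⟩)
          rw [Finset.card_union_of_disjoint h6, pow_add, add_zero]
      refine (Finset.sum_le_sum h3).trans ?_
      rw [← Finset.mul_sum, Finset.sum_add_distrib, ← hμ]
      refine mul_le_mul_of_nonneg_left (add_le_add le_rfl ?_) (by positivity)
      rw [Finset.sum_boole]
      have h7 : (I.filter fun i' => i' ∈ (D i).biUnion S).card ≤ 2 * k * l := by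
        refine (Finset.card_le_card fun i' hi' => (Finset.mem_filter.1 hi').2).trans ?_
        refine Finset.card_biUnion_le.trans ((Finset.sum_le_sum fun j _ => hS j).trans ?_)
        rw [Finset.sum_const, smul_eq_mul]
        exact Nat.mul_le_mul_right _ (hIm i hi)
      exact_mod_cast h7
    refine (Finset.sum_le_sum h2).trans (le_of_eq ?_)
    rw [← Finset.mul_sum, ← Finset.sum_mul, ← hμ]
    ring
  · intro χ hχ
    rw [hX] at hχ
    have h1 := (not_le.1 (Finset.mem_filter.1 hχ).2).le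
    have h2 : ∑ i ∈ I, ev (D i) χ ≤
        (((univ.filter fun j => (χ j).val ≠ 0).biUnion S)ᶜ.card : ℝ) := by
      unfold ev
      rw [Finset.sum_boole]
      refine Nat.cast_le.2 (Finset.card_le_card fun i hi => ?_)
      rw [Finset.mem_compl, Finset.mem_biUnion]
      rintro ⟨j, hj, hij⟩
      exact (Finset.mem_filter.1 hj).2 ((Finset.mem_filter.1 hi).2 j ((hDm i j).2 hij))
    have h3 : (4 : ℝ) * (q : ℝ) ^ (2 * k) *
        (((univ.filter fun j => (χ j).val ≠ 0).biUnion S)ᶜ.card : ℝ) ≤ m := by exact_mod_cast h1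
    refine le_of_mul_le_mul_left ?_ hQ0
    nlinarith

end Col

theorem col : ColStmt := by
  intro m r l k q S hq hk hS hr hl
  rcases Nat.eq_zero_or_pos m with rfl | hm
  · rw [Finset.filter_eq_empty_iff.2]
    · simp
    · intro χ _
      rw [not_not]
      refine ⟨?_, Nat.zero_le _⟩
      rw [Finset.eq_empty_of_isEmpty (Finset.biUnion _ _)]
      simp
  · have h1 := Col.first m r l k q S hq hk hm hS hr
    have h2 := Col.second m r l k q S hq hk hm hS hr hl
    have h3 := Finset.card_union_le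
      (univ.filter fun χ : Fin r → Fin q =>
        ¬(q * ((univ.filter fun j => (χ j).val = 0).biUnion S).card ≤ 200 * k * m))
      (univ.filter fun χ : Fin r → Fin q =>
        ¬(m ≤ 4 * q ^ (2 * k) * ((univ.filter fun j => (χ j).val ≠ 0).biUnion S)ᶜ.card))
    rw [← Finset.filter_or] at h3
    simp_rw [not_and_or]
    have h4 : 200 * (univ.filter fun χ : Fin r → Fin q =>
      ¬(q * ((univ.filter fun j => (χ j).val = 0).biUnion S).card ≤ 200 * k * m)).card
      ≤ q ^ r := by exact_mod_cast h1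
    have h5 : 200 * (univ.filter fun χ : Fin r → Fin q =>
      ¬(m ≤ 4 * q ^ (2 * k) * ((univ.filter fun j => (χ j).val ≠ 0).biUnion S)ᶜ.card)).card
      ≤ q ^ r := by exact_mod_cast h2
    omega

end Pool.Agent.MP_6b3410_lc.T26
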