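import Pool.Agent.MP_6b3410_lc.T26.Spec
import Pool.Agent.MP_6b3410_lc.H71.Hard

/-!
Polynomials of degree four that are balanced on large embedded rectangles.
-/

namespace Pool.Agent.MP_6b3410_lc.T26

open Classical Finset

namespace Ext

open H75 H71

/-- a pattern of values on points with private monomials -/
theorem card_pat {n : ℕ} {G : Type} [Fintype G] (z : G → Fin n → Bool) (s : G → Bool)
    (t : G → Fin n × Fin n × Fin n × Fin n) (ht : ∀ g g', On (t g) (z g') ↔ g = g') :
    (univ.filter fun c : Fin n × Fin n × Fin n × Fin n → Bool => ∀ g, poly c (z g) = s g).card *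
      2 ^ Fintype.card G ≤ 2 ^ n ^ 4 := by
  have hti : Function.Injective t := fun g g' e => (ht g g').1 (e ▸ (ht g' g').2 rfl)
  have h1 := card_le_card_of_injOn
    (s := (univ.filter fun c : Fin n × Fin n × Fin n × Fin n → Bool =>
      ∀ g, poly c (z g) = s g) ×ˢ (univ : Finset (G → Bool)))
    (t := (univ : Finset (Fin n × Fin n × Fin n × Fin n → Bool)))
    (fun x => Function.extend t x.2 x.1) (fun _ _ => mem_coe.2 (mem_univ _)) (by
      rintro ⟨c, r⟩ hc ⟨c', r'⟩ hc' e
      have e' : Function.extend t r c = Function.extend t r' c' := e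
      have hc := (mem_filter.1 (mem_product.1 (mem_coe.1 hc)).1).2
      have hc' := (mem_filter.1 (mem_product.1 (mem_coe.1 hc')).1).2
      have off : ∀ τ, (¬∃ g, t g = τ) → c τ = c' τ := fun τ hτ => by
        have := congrFun e' τ
        rwa [Function.extend_apply' _ _ _ hτ, Function.extend_apply' _ _ _ hτ] at this
      refine Prod.ext (funext fun τ => ?_) (funext fun g => ?_)
      · by_cases hτ : ∃ g, t g = τ
        · obtain ⟨g, rfl⟩ := hτ
          refine eq_of_poly ((ht g g).2 rfl) (fun τ' hne ho => off τ' ?_)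
            ((hc g).trans (hc' g).symm)
          rintro ⟨g', rfl⟩
          exact hne (by rw [(ht g' g).1 ho])
        · exact off τ hτ
      · have := congrFun e' (t g)
        rwa [hti.extend_apply, hti.extend_apply] at this)
  simp only [card_product, card_univ, Fintype.card_fun, Fintype.card_bool, Fintype.card_prod,
    Fintype.card_fin] at h1
  convert h1 using 2
  ring

/-- patterns with few values `β` -/
noncomputable def few (G : Type) [Fintype G] (β : Bool) : Finset (G → Bool) :=
  univ.filter fun s => 5 * (univ.filter fun g => s g = β).card < 2 * Fintype.card G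

theorem card_few (G : Type) [Fintype G] (β : Bool) :
    (few G β).card * 51 ^ Fintype.card G ≤ 100 ^ Fintype.card G := by
  set N := Fintype.card G with hN
  have h1 : ∑ s : G → Bool, (2 / 3 : ℝ) ^ (univ.filter fun g => s g = β).card = (5 / 3) ^ N := by
    have a := Fintype.prod_sum (fun (_ : G) (b : Bool) => if b = β then (2 / 3 : ℝ) else 1)
    have b : ∑ b : Bool, (if b = β then (2 / 3 : ℝ) else 1) = 5 / 3 := by
      cases β <;> simp <;> norm_num
    rw [b, prod_const, card_univ] at a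
    rw [a]
    refine sum_congr (by congr) fun s _ => ?_
    rw [prod_ite, prod_const, prod_const_one, mul_one]
  have h2 : ∀ s ∈ few G β,
      (17 / 20 : ℝ) ^ N ≤ (2 / 3 : ℝ) ^ (univ.filter fun g => s g = β).card := fun s hs => by
    have hs := (mem_filter.1 hs).2
    refine le_of_pow_le_pow_left₀ (n := 5) (by norm_num) (by positivity) ?_
    calc ((17 / 20 : ℝ) ^ N) ^ 5 = ((17 / 20 : ℝ) ^ 5) ^ N := by rw [← pow_mul, ← pow_mul, mul_comm]
      _ ≤ ((2 / 3 : ℝ) ^ 2) ^ N := pow_le_pow_left₀ (by positivity) (by norm_num) N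
      _ ≤ _ := by
        rw [← pow_mul, ← pow_mul]
        exact pow_le_pow_of_le_one (by norm_num) (by norm_num) (by omega)
  have h3 : ((few G β).card : ℝ) * (17 / 20) ^ N ≤ (5 / 3) ^ N := by
    rw [← h1, ← nsmul_eq_mul]
    exact (card_nsmul_le_sum _ _ _ h2).trans
      (sum_le_sum_of_subset_of_nonneg (subset_univ _) fun _ _ _ => by positivity)
  have h4 : ((few G β).card : ℝ) * 51 ^ N ≤ 100 ^ N := by
    have := mul_le_mul_of_nonneg_right h3 (show (0 : ℝ) ≤ 60 ^ N by positivity)
    rwa [mul_assoc, ← mul_pow, ← mul_pow, show (17 / 20 * 60 : ℝ) = 51 by norm_num,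
      show (5 / 3 * 60 : ℝ) = 100 by norm_num] at this
  exact_mod_cast h4

/-- polynomials that are unbalanced on a family of points with private monomials -/
noncomputable def unb {n : ℕ} {G : Type} [Fintype G] (z : G → Fin n → Bool) (β : Bool) :
    Finset (Fin n × Fin n × Fin n × Fin n → Bool) :=
  univ.filter fun c => (∃ t : G → Fin n × Fin n × Fin n × Fin n,
    ∀ g g', On (t g) (z g') ↔ g = g') ∧ (fun g => poly c (z g)) ∈ few G β

theorem mem_unb {n : ℕ} {G : Type} [Fintype G] {z : G → Fin n → Bool} {β : Bool}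
    {c : Fin n × Fin n × Fin n × Fin n → Bool} (t : G → Fin n × Fin n × Fin n × Fin n)
    (ht : ∀ g g', On (t g) (z g') ↔ g = g')
    (h : 5 * (univ.filter fun g => poly c (z g) = β).card < 2 * Fintype.card G) : c ∈ unb z β :=
  mem_filter.2 ⟨mem_univ _, ⟨t, ht⟩, mem_filter.2 ⟨mem_univ _, h⟩⟩

theorem card_unb {n : ℕ} {G : Type} [Fintype G] (z : G → Fin n → Bool) (β : Bool) :
    (unb z β).card * 51 ^ Fintype.card G ≤ 50 ^ Fintype.card G * 2 ^ n ^ 4 := by
  by_cases h : ∃ t : G → Fin n × Fin n × Fin n × Fin n, ∀ g g', On (t g) (z g') ↔ g = g'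
  · obtain ⟨t, ht⟩ := h
    have h1 : unb z β ⊆ (few G β).biUnion fun s =>
        univ.filter fun c : Fin n × Fin n × Fin n × Fin n → Bool => ∀ g, poly c (z g) = s g :=
      fun c hc => mem_biUnion.2 ⟨_, (mem_filter.1 hc).2.2, mem_filter.2 ⟨mem_univ _, fun _ => rfl⟩⟩
    have h2 : (unb z β).card * 2 ^ Fintype.card G ≤ (few G β).card * 2 ^ n ^ 4 := by
      refine (Nat.mul_le_mul_right _ ((card_le_card h1).trans card_biUnion_le)).trans ?_
      rw [sum_mul]
      exact sum_le_card_nsmul _ _ _ fun s _ => card_pat z s t ht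
    refine Nat.le_of_mul_le_mul_right ?_ (show 0 < 2 ^ Fintype.card G by positivity)
    calc (unb z β).card * 51 ^ Fintype.card G * 2 ^ Fintype.card G
        = (unb z β).card * 2 ^ Fintype.card G * 51 ^ Fintype.card G := by ring
      _ ≤ (few G β).card * 2 ^ n ^ 4 * 51 ^ Fintype.card G := Nat.mul_le_mul_right _ h2
      _ = (few G β).card * 51 ^ Fintype.card G * 2 ^ n ^ 4 := by ring
      _ ≤ 100 ^ Fintype.card G * 2 ^ n ^ 4 := Nat.mul_le_mul_right _ (card_few G β)
      _ = _ := by rw [show 100 = 50 * 2 from rfl, mul_pow]; ring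
  · have : unb z β = ∅ := eq_empty_of_forall_notMem fun _ h' => h (mem_filter.1 h').2.1
    simp [this]

theorem exists_good {n e : ℕ} (hn : 1 ≤ n) (he : 160 * n ≤ e ^ 2) :
    ∃ c : Fin n × Fin n × Fin n × Fin n → Bool,
      ∀ (F : Finset (Fin n)) (u v : Fin e × Fin e → Fin n → Bool) (β : Bool),
        c ∉ unb (fun g : (Fin e × Fin e) × (Fin e × Fin e) => hyb F (u g.1) (v g.2)) β := by
  let Z : Finset (Fin n) × (Fin e × Fin e → Fin n → Bool) × (Fin e × Fin e → Fin n → Bool) × Bool →
      (Fin e × Fin e) × (Fin e × Fin e) → Fin n → Bool :=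
    fun x g => hyb x.1 (x.2.1 g.1) (x.2.2.1 g.2)
  set A := n + 2 * (n * e ^ 2) + 1 with hA
  have h1 : (univ.biUnion fun x => unb (Z x) x.2.2.2).card * 51 ^ e ^ 4 ≤
      2 ^ A * (50 ^ e ^ 4 * 2 ^ n ^ 4) := by
    refine (Nat.mul_le_mul_right _ card_biUnion_le).trans ?_
    rw [sum_mul]
    refine (sum_le_card_nsmul _ _ (50 ^ e ^ 4 * 2 ^ n ^ 4) fun x _ => ?_).trans (le_of_eq ?_)
    · have := card_unb (Z x) x.2.2.2
      simp only [Fintype.card_prod, Fintype.card_fin] at this
      rwa [show e * e * (e * e) = e ^ 4 by ring] at this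
    · simp only [card_univ, Fintype.card_prod, Fintype.card_fun, Fintype.card_bool,
        Fintype.card_fin, Fintype.card_finset, smul_eq_mul, ← pow_mul, hA]
      ring
  have h2 : 40 * A ≤ e ^ 4 := by rw [hA]; nlinarith
  have h3 : 2 ^ A * 50 ^ e ^ 4 < 51 ^ e ^ 4 := by
    obtain ⟨d, hd⟩ := Nat.exists_eq_add_of_le h2
    rw [hd, pow_add 50, pow_add 51, pow_mul 50, pow_mul 51, ← mul_assoc, ← mul_pow]
    exact Nat.mul_lt_mul_of_lt_of_le (Nat.pow_lt_pow_left (by norm_num) (by omega))
      (Nat.pow_le_pow_left (by norm_num) d) (by positivity)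
  obtain ⟨c, -, hc⟩ := exists_mem_notMem_of_card_lt_card
    (s := univ.biUnion fun x => unb (Z x) x.2.2.2) (t := univ) (by
      have h4 : 2 ^ A * (50 ^ e ^ 4 * 2 ^ n ^ 4) < 2 ^ n ^ 4 * 51 ^ e ^ 4 := by
        rw [← mul_assoc, mul_comm]
        exact Nat.mul_lt_mul_of_pos_left h3 (by positivity)
      have h5 := Nat.lt_of_mul_lt_mul_right (h1.trans_lt h4)
      simp only [card_univ, Fintype.card_fun, Fintype.card_bool, Fintype.card_prod,
        Fintype.card_fin]
      convert h5 using 2
      ring)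
  exact ⟨c, fun F u v β h => hc (mem_biUnion.2 ⟨(F, u, v, β), mem_univ _, h⟩)⟩

/-- removing heavy blocks one after the other -/
theorem cover {α ι : Type} [Fintype ι] [Nonempty ι] (f : α → ℝ) (hf : ∀ a, 0 ≤ f a) (κ : ℝ)
    (hκ : 0 ≤ κ) (K : ℕ) (R : Finset α) :
    (∀ R' ⊆ R, K < R'.card → ∃ u : ι → α, Function.Injective u ∧ (∀ i, u i ∈ R') ∧
      κ * Fintype.card ι ≤ ∑ i, f (u i)) → κ * (R.card - K) ≤ ∑ a ∈ R, f a := by
  induction R using Finset.strongInduction with
  | H R ih =>
    intro h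
    by_cases hK : K < R.card
    · obtain ⟨u, hu, hm, hs⟩ := h R Subset.rfl hK
      have hsub : univ.image u ⊆ R := image_subset_iff.2 fun i _ => hm i
      have h1 := ih (R \ univ.image u) (sdiff_ssubset hsub (univ_nonempty.image u))
        fun R' hR' => h R' (hR'.trans sdiff_subset)
      have h2 := card_sdiff_add_card_eq_card hsub
      rw [card_image_of_injective _ hu, card_univ] at h2
      rw [← sum_sdiff hsub, sum_image fun a _ b _ e => hu e, ← h2]
      push_cast
      linarith
    · have : (R.card : ℝ) ≤ K := by exact_mod_cast not_lt.1 hK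
      exact (mul_nonpos_of_nonneg_of_nonpos hκ (by linarith)).trans (sum_nonneg fun a _ => hf a)

/-- a grid among points that are constant outside `F` -/
theorem grid {n e : ℕ} (he : 2 ≤ e) (F : Finset (Fin n)) (o : Fin n → Bool)
    (R : Finset (Fin n → Bool)) (hw : ∀ u ∈ R, ∀ i, i ∉ F → u i = o i)
    (h : ∑ k ∈ range (2 * e), n.choose k < R.card) :
    ∃ (p q : Fin e → Fin n) (u : Fin e × Fin e → Fin n → Bool), (∀ g, u g ∈ R) ∧
      Function.Injective u ∧ (∀ a, p a ∈ F) ∧ (∀ a, q a ∈ F) ∧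
      (∀ g a, u g (p a) = true ↔ a = g.1) ∧ ∀ g b, u g (q b) = true ↔ b = g.2 := by
  obtain ⟨p, q, u, hu, hp, hq⟩ := exists_grid (e := e) R h
  have : Nontrivial (Fin e) := Fin.nontrivial_iff_two_le.2 he
  have inF : ∀ (i : Fin n) (g g' : Fin e × Fin e), u g i = true → ¬u g' i = true → i ∈ F :=
    fun i g g' a b => by
      by_contra hi
      exact b (by rw [hw _ (hu g') i hi, ← hw _ (hu g) i hi, a])
  refine ⟨p, q, u, hu, fun g g' e => Prod.ext ?_ ?_, fun a => ?_, fun a => ?_, hp, hq⟩
  · exact (hp g' g.1).1 (e ▸ (hp g g.1).2 rfl)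
  · exact (hq g' g.2).1 (e ▸ (hq g g.2).2 rfl)
  · obtain ⟨b, hb⟩ := exists_ne a
    exact inF _ (a, a) (b, b) ((hp _ _).2 rfl) fun h => hb ((hp _ _).1 h).symm
  · obtain ⟨b, hb⟩ := exists_ne a
    exact inF _ (a, a) (b, b) ((hq _ _).2 rfl) fun h => hb ((hq _ _).1 h).symm

end Ext

open Ext H71 in
theorem ext : ExtStmt := by
  intro m e hm he
  obtain ⟨c, hc⟩ := Ext.exists_good hm he
  refine ⟨c, fun F G o R₁ R₂ β hFG k₁ k₂ w₁ w₂ => ?_⟩
  have he2 : 2 ≤ e := by
    by_contra hlt
    have : e ≤ 1 := by omega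
    nlinarith
  have : Nonempty (Fin e × Fin e) := ⟨(⟨0, by omega⟩, ⟨0, by omega⟩)⟩
  set K := ∑ k ∈ range (2 * e), m.choose k with hK
  have hKle : 50 * K ≤ 100 * e * (m + 1) ^ (2 * e) := by
    have := sum_le_card_nsmul (range (2 * e)) (fun k => m.choose k) ((m + 1) ^ (2 * e))
      fun k hk => (Nat.choose_le_pow m k).trans ((Nat.pow_le_pow_left (Nat.le_succ m) k).trans
        (Nat.pow_le_pow_right (Nat.succ_pos m) (mem_range.1 hk).le))
    rw [card_range, smul_eq_mul] at this
    calc 50 * K ≤ 50 * (2 * e * (m + 1) ^ (2 * e)) := Nat.mul_le_mul_left _ this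
      _ = _ := by ring
  have l₁ : (50 * K : ℝ) ≤ R₁.card := by exact_mod_cast hKle.trans k₁
  have l₂ : (50 * K : ℝ) ≤ R₂.card := by exact_mod_cast hKle.trans k₂
  have K0 : (0 : ℝ) ≤ K := Nat.cast_nonneg _
  let φ : (Fin m → Bool) → (Fin m → Bool) → ℝ :=
    fun a b => if H75.poly c (hyb F a b) = β then 1 else 0
  have φ0 : ∀ a b, 0 ≤ φ a b := fun a b => by
    simp only [φ]
    split_ifs <;> norm_num
  have h1 := cover (ι := Fin e × Fin e) (fun b => ∑ a ∈ R₁, φ a b)
    (fun b => sum_nonneg fun a _ => φ0 a b) (2 / 5 * (R₁.card - K)) (by linarith) K R₂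
    (fun R₂' s₂ c₂ => by
      obtain ⟨p', q', v, hv, vi, m3, m4, hp', hq'⟩ :=
        grid he2 G o R₂' (fun u hu => w₂ u (s₂ hu)) c₂
      refine ⟨v, vi, hv, ?_⟩
      have h2 := cover (ι := Fin e × Fin e) (fun a => ∑ j, φ a (v j))
        (fun a => sum_nonneg fun j _ => φ0 a (v j)) (2 / 5 * Fintype.card (Fin e × Fin e))
        (by positivity) K R₁ (fun R₁' s₁ c₁ => by
          obtain ⟨p, q, u, hu, ui, m1, m2, hp, hq⟩ :=
            grid he2 F o R₁' (fun u hu => w₁ u (s₁ hu)) c₁
          refine ⟨u, ui, hu, ?_⟩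
          have h3 : 2 * Fintype.card ((Fin e × Fin e) × (Fin e × Fin e)) ≤
              5 * (univ.filter fun g : (Fin e × Fin e) × (Fin e × Fin e) =>
                H75.poly c (hyb F (u g.1) (v g.2)) = β).card := by
            by_contra hlt
            refine hc F u v β (mem_unb (fun g => (p g.1.1, q g.1.2, p' g.2.1, q' g.2.2))
              (fun g g' => ?_) (not_le.1 hlt))
            have m3' := fun a => disjoint_right.1 hFG (m3 a)
            have m4' := fun a => disjoint_right.1 hFG (m4 a)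
            simp only [On, hyb, m1, m2, m3', m4', if_true, if_false, hp, hq, hp', hq',
              Prod.ext_iff, and_assoc]
          have h4 : ∑ i, ∑ j, φ (u i) (v j) =
              ((univ.filter fun g : (Fin e × Fin e) × (Fin e × Fin e) =>
                H75.poly c (hyb F (u g.1) (v g.2)) = β).card : ℝ) := by
            rw [card_filter, ← Fintype.sum_prod_type']
            push_cast
            rfl
          rw [h4]
          rw [Fintype.card_prod] at h3
          have h5 := (Nat.cast_le (α := ℝ)).2 h3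
          push_cast at h5
          linarith)
      rw [sum_comm]
      linarith)
  have h6 : ∑ b ∈ R₂, ∑ a ∈ R₁, φ a b =
      (((R₁ ×ˢ R₂).filter fun p => H75.poly c (hyb F p.1 p.2) = β).card : ℝ) := by
    rw [card_filter, sum_comm, ← sum_product']
    push_cast
    rfl
  rw [h6] at h1
  have h7 : (3 * (R₁.card * R₂.card) : ℝ) ≤
      8 * (((R₁ ×ˢ R₂).filter fun p => H75.poly c (hyb F p.1 p.2) = β).card : ℝ) := by
    have a : (49 / 50 * R₁.card : ℝ) * (49 / 50 * R₂.card) ≤ (R₁.card - K) * (R₂.card - K) :=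
      mul_le_mul (by linarith) (by linarith) (by positivity) (by linarith)
    have b : (0 : ℝ) ≤ R₁.card * R₂.card := by positivity
    nlinarith
  exact_mod_cast h7

end Pool.Agent.MP_6b3410_lc.T26
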