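import Pool.Agent.MP_6b3410_lc.T26.Spec
import Pool.Agent.MP_6b3410_lc.H48.Gadget4

/-!
The disjunction over a dense family of groups is a projection of Hamiltonicity.
-/

namespace Pool.Agent.MP_6b3410_lc.T26

open Classical Finset

namespace Gad

/-- hidden variables -/
abbrev Yv (G m T a Q : ℕ) : Type := (Fin G ⊕ Fin m ⊕ Fin (T + 1)) ⊕ Bool × (Fin a ⊕ Fin Q)

/-- clauses -/
abbrev Kv (G m T a Q : ℕ) : Type :=
  (Fin T × (Fin 6 → Bool)) ⊕ Option Bool ⊕ (Bool × Fin G × Fin m × Bool) ⊕ Bool × Fin a × Fin Q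

variable {G m T a Q : ℕ}

/-- the scope of a parity constraint -/
def sc (e : Fin T → Fin m × Fin m × Fin m × Fin m) (t : Fin T) : Fin 6 → Yv G m T a Q :=
  ![.inl (.inr (.inr t.castSucc)), .inl (.inr (.inr t.succ)), .inl (.inr (.inl (e t).1)),
    .inl (.inr (.inl (e t).2.1)), .inl (.inr (.inl (e t).2.2.1)), .inl (.inr (.inl (e t).2.2.2))]

/-- the literals of a clause -/
noncomputable def cls (e : Fin T → Fin m × Fin m × Fin m × Fin m)
    (R : Fin T → (Fin 6 → Bool) → Prop) (lr : Bool → Fin G → Fin m × Bool → Fin a) :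
    Kv G m T a Q → Finset (Yv G m T a Q × Bool)
  | .inl p => if R p.1 p.2 then {(.inl (.inr (.inr 0)), true), (.inl (.inr (.inr 0)), false)}
      else univ.image fun k => (sc e p.1 k, !p.2 k)
  | .inr (.inl none) => univ.image fun γ => (.inl (.inl γ), true)
  | .inr (.inl (some s)) => univ.image fun ξ => (.inr (s, .inr ξ), true)
  | .inr (.inr (.inl p)) => {(.inl (.inl p.2.1), false), (.inl (.inr (.inl p.2.2.1)), !p.2.2.2),
      (.inr (p.1, .inl (lr p.1 p.2.1 p.2.2)), true)}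
  | .inr (.inr (.inr p)) => {(.inr (p.1, .inl p.2.1), false), (.inr (p.1, .inr p.2.2), false)}

/-- the node of an arc on the side `s` -/
def nd (lr : Bool → Fin G → Fin m × Bool → Fin a) (s : Bool)
    (p : (Fin G × (Bool → Fin Q)) × Fin m × Bool) : Kv G m T a Q :=
  .inr (.inr (.inr (s, lr s p.1.1 p.2, p.1.2 s)))

variable {e : Fin T → Fin m × Fin m × Fin m × Fin m} {R : Fin T → (Fin 6 → Bool) → Prop}
  {lr : Bool → Fin G → Fin m × Bool → Fin a}

lemma nd_eq {s s' : Bool} {p : (Fin G × (Bool → Fin Q)) × Fin m × Bool} {x : Fin a} {ξ : Fin Q} :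
    (nd lr s p : Kv G m T a Q) = .inr (.inr (.inr (s', x, ξ))) ↔
      s = s' ∧ lr s p.1.1 p.2 = x ∧ p.1.2 s = ξ := by
  simp [nd]

lemma sum_card : ∑ κ : Kv G m T a Q, (cls e R lr κ).card ≤
    384 * T + (G + 2 * Q) + 12 * (G * m) + 4 * (a * Q) := by
  have h1 : ∑ p : Fin T × (Fin 6 → Bool), (cls (Q := Q) e R lr (.inl p)).card ≤ 384 * T := by
    refine (sum_le_card_nsmul _ _ 6 fun p _ => ?_).trans (by simp; omega)
    rw [cls]
    split_ifs
    · exact card_le_two.trans (by norm_num)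
    · exact card_image_le.trans (by simp)
  have h2 : ∑ p : Option Bool, (cls (Q := Q) e R lr (.inr (.inl p))).card ≤ G + 2 * Q := by
    rw [Fintype.sum_option]
    refine add_le_add (card_image_le.trans (by simp)) ?_
    exact (sum_le_card_nsmul _ _ Q fun p _ => card_image_le.trans (by simp)).trans (by simp)
  have h3 : ∑ p : Bool × Fin G × Fin m × Bool,
      (cls (Q := Q) e R lr (.inr (.inr (.inl p)))).card ≤ 12 * (G * m) :=
    (sum_le_card_nsmul _ _ 3 fun p _ => card_le_three).trans (by simp; nlinarith)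
  have h4 : ∑ p : Bool × Fin a × Fin Q,
      (cls e R lr (.inr (.inr (.inr p)))).card ≤ 4 * (a * Q) :=
    (sum_le_card_nsmul _ _ 2 fun p _ => card_le_two).trans (by simp; nlinarith)
  rw [Fintype.sum_sum_type, Fintype.sum_sum_type, Fintype.sum_sum_type]
  omega

lemma par_iff (y : Yv G m T a Q → Bool) :
    (∀ p, ∃ t ∈ cls e R lr (.inl p), y t.1 = t.2) ↔ ∀ t, R t fun k => y (sc e t k) := by
  constructor
  · intro h t
    by_contra hc
    obtain ⟨u, hu, h1⟩ := h (t, fun k => y (sc e t k))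
    rw [cls, if_neg hc] at hu
    obtain ⟨k, -, rfl⟩ := mem_image.1 hu
    exact (Bool.eq_not_self _).1 h1
  · intro h p
    rw [cls]
    split_ifs with hp
    · refine ⟨(.inl (.inr (.inr 0)), y (.inl (.inr (.inr 0)))), ?_, rfl⟩
      cases y (.inl (.inr (.inr 0))) <;> simp
    · by_contra hc
      push Not at hc
      refine hp ?_
      have : p.2 = fun k => y (sc e p.1 k) := funext fun k => by
        have := hc _ (mem_image_of_mem _ (mem_univ k))
        revert this
        cases p.2 k <;> cases y (sc e p.1 k) <;> simp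
      rw [this]
      exact h _

section

variable (h2 : ∀ γ γ' i i', lr false γ i = lr false γ' i' → lr true γ i = lr true γ' i' →
    γ = γ' ∧ i = i')
  (h3 : ∀ γ γ' i i' j, lr false γ i = lr false γ' j → lr true γ i' = lr true γ' j → i = i')
include h3

lemma lr_inj (s : Bool) (γ : Fin G) : Function.Injective (lr s γ) := by
  intro u u' h
  cases s
  · exact h3 γ γ u u' u' h rfl
  · exact (h3 γ γ u' u u' rfl h).symm

include h2

lemma key (on : (Fin G × (Bool → Fin Q)) × Fin m × Bool → Prop) :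
    (∃ (y : Yv G m T a Q → Bool) (p : Fin m → (Fin G × (Bool → Fin Q)) × Fin m × Bool),
      Function.Injective (fun i => (nd lr false (p i) : Kv G m T a Q)) ∧
      Function.Injective (fun i => (nd lr true (p i) : Kv G m T a Q)) ∧ (∀ i, on (p i)) ∧
      ∀ κ, (∀ i, nd lr false (p i) ≠ κ) → (∀ i, nd lr true (p i) ≠ κ) →
        ∃ t ∈ cls e R lr κ, y t.1 = t.2) ↔
    ∃ (g : Fin G × (Bool → Fin Q)) (α : Fin m → Bool) (ch : Fin (T + 1) → Bool),
      (∀ i, on (g, i, α i)) ∧ ∀ t, R t ![ch t.castSucc, ch t.succ, α (e t).1, α (e t).2.1,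
        α (e t).2.2.1, α (e t).2.2.2] := by
  constructor
  · rintro ⟨y, p, -, -, hon, h⟩
    obtain ⟨_, hγ, k1⟩ := h (.inr (.inl none)) (by simp [nd]) (by simp [nd])
    obtain ⟨γ, -, rfl⟩ := mem_image.1 hγ
    have k2 : ∀ s, ∃ ξ, y (.inr (s, .inr ξ)) = true := fun s => by
      obtain ⟨_, hξ, k2⟩ := h (.inr (.inl (some s))) (by simp [nd]) (by simp [nd])
      obtain ⟨ξ, -, rfl⟩ := mem_image.1 hξ
      exact ⟨ξ, k2⟩
    choose ξ k2 using k2
    let α : Fin m → Bool := fun i => y (.inl (.inr (.inl i)))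
    have k3 : ∀ s i, y (.inr (s, .inl (lr s γ (i, α i)))) = true := fun s i => by
      obtain ⟨u, hu, k3⟩ := h (.inr (.inr (.inl (s, γ, i, α i)))) (by simp [nd]) (by simp [nd])
      simp only [cls, mem_insert, mem_singleton] at hu
      rcases hu with rfl | rfl | rfl
      · exact absurd (k1.symm.trans k3) (by simp)
      · exact ((Bool.eq_not_self _).1 k3).elim
      · exact k3
    have k4 : ∀ s i, ∃ k, lr s (p k).1.1 (p k).2 = lr s γ (i, α i) ∧ (p k).1.2 s = ξ s := by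
      intro s i
      by_contra hc
      have hn : ∀ s' k, (nd lr s' (p k) : Kv G m T a Q) ≠
          .inr (.inr (.inr (s, lr s γ (i, α i), ξ s))) := fun s' k e => by
        obtain ⟨rfl, e⟩ := nd_eq.1 e
        exact hc ⟨k, e⟩
      obtain ⟨u, hu, k4⟩ := h _ (hn false) (hn true)
      simp only [cls, mem_insert, mem_singleton] at hu
      rcases hu with rfl | rfl
      · exact absurd ((k3 s i).symm.trans k4) (by simp)
      · exact absurd ((k2 s).symm.trans k4) (by simp)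
    choose σ k4 k5 using k4
    have k6 : Function.Surjective (σ true) := Finite.surjective_of_injective fun i i' e =>
      congrArg Prod.fst (lr_inj h3 true γ ((k4 true i).symm.trans (e ▸ k4 true i')))
    refine ⟨(γ, ξ), α, fun t => y (.inl (.inr (.inr t))), fun i => ?_, fun t => ?_⟩
    · obtain ⟨i', hi⟩ := k6 (σ false i)
      have b1 := (k4 false i).symm
      have b2 := (k4 true i').symm
      have b3 := k5 true i'
      rw [hi] at b2 b3
      rw [← h3 _ _ _ _ _ b1 b2] at b2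
      obtain ⟨b4, b5⟩ := h2 _ _ _ _ b1 b2
      have b6 : ξ = (p (σ false i)).1.2 := funext fun s => by
        cases s
        · exact (k5 false i).symm
        · exact b3.symm
      rw [b4, b5, b6]
      exact hon _
    · have := (par_iff y).1 (fun q => h (.inl q) (by simp [nd]) (by simp [nd])) t
      refine Eq.mp (congrArg _ (funext fun k => ?_)) this
      fin_cases k <;> rfl
  · rintro ⟨⟨γ, ξ⟩, α, ch, hon, hR⟩
    have inj : ∀ s, Function.Injective fun i => (nd lr s ((γ, ξ), i, α i) : Kv G m T a Q) :=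
      fun s i i' e => congrArg Prod.fst (lr_inj h3 s γ (nd_eq.1 e).2.1)
    refine ⟨Sum.elim (Sum.elim (fun γ' => decide (γ' = γ)) (Sum.elim α ch)) fun u =>
      Sum.elim (fun x => decide (∃ i, lr u.1 γ (i, α i) = x)) (fun ξ' => decide (ξ' = ξ u.1)) u.2,
      fun i => ((γ, ξ), i, α i), inj false, inj true, hon, ?_⟩
    rintro (q | (_ | s) | ⟨s, γ', i, b⟩ | ⟨s, x, ξ'⟩) c1 c2
    · refine (par_iff _).2 (fun t => ?_) q
      refine Eq.mp (congrArg _ (funext fun k => ?_)) (hR t)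
      fin_cases k <;> rfl
    · exact ⟨_, mem_image_of_mem _ (mem_univ γ), by simp⟩
    · exact ⟨_, mem_image_of_mem _ (mem_univ (ξ s)), by simp⟩
    · by_cases e1 : γ' = γ
      · by_cases e2 : α i = b
        · refine ⟨_, mem_insert_of_mem (mem_insert_of_mem (mem_singleton_self _)), ?_⟩
          exact decide_eq_true ⟨i, by rw [e1, e2]⟩
        · exact ⟨_, mem_insert_of_mem (mem_insert_self _ _), Bool.eq_not_of_ne e2⟩
      · exact ⟨_, mem_insert_self _ _, decide_eq_false e1⟩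
    · by_cases e1 : ∃ i, lr s γ (i, α i) = x
      · refine ⟨_, mem_insert_of_mem (mem_singleton_self _), decide_eq_false fun e2 => ?_⟩
        obtain ⟨i, e1⟩ := e1
        cases s
        · exact c1 i (nd_eq.2 ⟨rfl, e1, e2.symm⟩)
        · exact c2 i (nd_eq.2 ⟨rfl, e1, e2.symm⟩)
      · exact ⟨_, mem_insert_self _ _, decide_eq_false e1⟩

lemma core (hL : LookStmt) {n : ℕ} (hm : 1 ≤ m) (b1 : 2 * (G * m) ≤ a * Q) (b2 : m ^ 4 ≤ a)
    (b3 : a ≤ Q) (hn : 4096 * (a * Q) ≤ n) (c : Fin m × Fin m × Fin m × Fin m → Bool) (β : Bool) :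
    ∃ pr : H19.Edge n → ((Fin (G * Q ^ 2) × Fin m) × Bool) ⊕ Bool,
      ∀ z : Fin (G * Q ^ 2) → Fin m → Bool, H19.Ham (appG pr z) ↔ ∃ g, H75.poly c (z g) = β := by
  have hc : Fintype.card (Fin m × Fin m × Fin m × Fin m) = m ^ 4 := by simp; ring
  let e := (Fintype.equivFinOfCardEq hc).symm
  have hT : m ≤ m ^ 4 := Nat.le_self_pow (by norm_num) m
  generalize m ^ 4 = T at *
  let f : Fin G × (Bool → Fin Q) ≃ Fin (G * Q ^ 2) := Fintype.equivFinOfCardEq (by simp)
  let R : Fin T → (Fin 6 → Bool) → Prop := fun t σ =>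
    σ 1 = xor (σ 0) (c (e t) && σ 2 && σ 3 && σ 4 && σ 5) ∧
      (t.val = 0 → σ 0 = false) ∧ (t.val + 1 = T → σ 1 = β)
  have : Nonempty (Yv G m T a Q) := ⟨.inl (.inr (.inr 0))⟩
  obtain ⟨rail, rho, hri, hr⟩ := hL n m (Yv G m T a Q) (Kv G m T a Q) _ (cls e R lr) (nd lr false)
    (nd lr true) (fun p p' h => by simp [nd] at h) (fun p p' k1 k2 => by
      obtain ⟨-, k3, k4⟩ := nd_eq.1 k1
      obtain ⟨-, k5, k6⟩ := nd_eq.1 k2
      obtain ⟨k7, k8⟩ := h2 _ _ _ _ k3 k5
      refine Prod.ext (Prod.ext k7 (funext fun s => ?_)) k8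
      cases s
      exacts [k4, k6]) (by
      have c1 := sum_card (Q := Q) (e := e) (R := R) (lr := lr)
      have c2 : Fintype.card (Yv G m T a Q) = G + (m + (T + 1)) + 2 * (a + Q) := by simp
      have c3 : Fintype.card (Kv G m T a Q) = T * 64 + (3 + (4 * (G * m) + 2 * (a * Q))) := by
        simp; ring
      have c4 : G ≤ G * m := Nat.le_mul_of_pos_right _ hm
      have c5 : Q ≤ a * Q := Nat.le_mul_of_pos_left _ (by omega)
      omega)
  let pr : H19.Edge n → ((Fin (G * Q ^ 2) × Fin m) × Bool) ⊕ Bool := fun x =>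
    if h : ∃ p, rail p = x then Sum.inl ((f h.choose.1, h.choose.2.1), h.choose.2.2)
    else Sum.inr (rho x)
  have hpr : ∀ p, pr (rail p) = Sum.inl ((f p.1, p.2.1), p.2.2) := fun p => by
    have h : ∃ p', rail p' = rail p := ⟨p, rfl⟩
    simp only [pr, dif_pos h, hri h.choose_spec]
  have hpr' : ∀ x, x ∉ Set.range rail → pr x = Sum.inr (rho x) := fun x he => dif_neg he
  refine ⟨pr, fun z => ?_⟩
  have hx : ∀ p, appG pr z (rail p) = true ↔ z (f p.1) p.2.1 = p.2.2 := fun p => by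
    simp [appG, hpr]
  have hp : ∀ α : Fin m → Bool, (∃ ch : Fin (T + 1) → Bool, ∀ t, R t ![ch t.castSucc, ch t.succ,
      α (e t).1, α (e t).2.1, α (e t).2.2.1, α (e t).2.2.2]) ↔ H75.poly c α = β := by
    intro α
    have h4 := H48.run_iff (T := T) (by omega)
      (fun t => c (e t) && α (e t).1 && α (e t).2.1 && α (e t).2.2.1 && α (e t).2.2.2) β
    refine Iff.trans ?_ (h4.trans ?_)
    · rfl
    · have : H19.par (fun t => c (e t) && α (e t).1 && α (e t).2.1 && α (e t).2.2.1 &&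
          α (e t).2.2.2) = H75.poly c α := by
        unfold H19.par H75.poly
        rw [Equiv.sum_comp e fun t => (c t && α t.1 && α t.2.1 && α t.2.2.1 && α t.2.2.2).toNat,
          Finset.card_filter]
        refine congrArg (fun k => decide (Odd k)) (sum_congr rfl fun t _ => ?_)
        cases c t <;> cases α t.1 <;> cases α t.2.1 <;> cases α t.2.2.1 <;> cases α t.2.2.2 <;> simp
      rw [this]
  rw [hr _ fun x he => by simp [appG, hpr' x he],
    key h2 h3 fun p => appG pr z (rail p) = true]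
  constructor
  · rintro ⟨g, α, ch, k1, k2⟩
    have : z (f g) = α := funext fun i => (hx _).1 (k1 i)
    exact ⟨f g, this ▸ (hp α).1 ⟨ch, k2⟩⟩
  · rintro ⟨g, hg⟩
    obtain ⟨g, rfl⟩ := f.surjective g
    obtain ⟨ch, k⟩ := (hp _).2 hg
    exact ⟨g, _, ch, fun i => (hx _).2 rfl, k⟩

end

end Gad

theorem gad : LookStmt → RSStmt → GadStmt := by
  rintro hL ⟨d₀, hR⟩
  have h0 : 1 ≤ 4 ^ d₀ := Nat.one_le_pow _ _ (by norm_num)
  refine ⟨16 * 4096 ^ 2 * 4 ^ d₀, by omega, fun n m hm hn c β => ?_⟩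
  have h1 : 1 ≤ m ^ 8 := Nat.one_le_pow _ _ hm
  have h2 : 4 ^ d₀ ≤ 4 ^ d₀ * m ^ 8 := Nat.le_mul_of_pos_right _ h1
  have h3 : m ^ 8 ≤ 4 ^ d₀ * m ^ 8 := Nat.le_mul_of_pos_left _ h0
  rw [mul_assoc] at hn
  obtain ⟨d, hd⟩ : ∃ d, d = Nat.log 4 (n / 4096) := ⟨_, rfl⟩
  have h4 : 4 ^ d ≤ n / 4096 := hd ▸ Nat.pow_log_le_self 4 (by omega)
  have h5 : n / 4096 < 4 ^ (d + 1) := hd ▸ Nat.lt_pow_succ_log_self (by norm_num) _
  have h6 : d₀ ≤ d := hd ▸ Nat.le_log_of_pow_le (by norm_num) (by omega)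
  have h7 : 4 ^ d = 2 ^ d * 2 ^ d := (mul_pow 2 2 d)
  rw [pow_succ, h7] at h5
  rw [h7] at h4
  have h8 : (m * 2) ^ 4 ≤ 2 ^ d := by
    refine Nat.mul_self_le_mul_self_iff.1 ?_
    have : (m * 2) ^ 4 * (m * 2) ^ 4 = 256 * m ^ 8 := by ring
    omega
  obtain ⟨G, l, r, k1, k2, k3⟩ := hR d h6 (m * 2) (by omega) h8
  rw [h7] at k1
  generalize 2 ^ d = a at *
  have a0 : 0 < a := by
    rcases Nat.eq_zero_or_pos a with h | h
    · rw [h] at h5; omega
    · exact h
  let u : Fin m × Bool ≃ Fin (m * 2) := Fintype.equivFinOfCardEq (by simp)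
  have k4 : G * (m * 2) ≤ a * a := by
    have := Fintype.card_le_of_injective (fun p : Fin G × Fin (m * 2) => (l p.1 p.2, r p.1 p.2))
      fun p p' e => by
        obtain ⟨e1, e2⟩ := k2 _ _ _ _ (congrArg Prod.fst e) (congrArg Prod.snd e)
        exact Prod.ext e1 e2
    simpa using this
  obtain ⟨Q, hQ⟩ : ∃ Q, Q = n / (4096 * a) := ⟨_, rfl⟩
  have q1 : a ≤ Q := by
    rw [hQ, Nat.le_div_iff_mul_le (by omega), mul_left_comm]
    omega
  have q2 : 4096 * (a * Q) ≤ n := by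
    rw [← mul_assoc, hQ]
    exact Nat.mul_div_le _ _
  have q3 : n ≤ 8192 * (a * Q) := by
    have e1 := Nat.lt_mul_div_succ n (show 0 < 4096 * a by omega)
    have e2 : a ≤ a * Q := Nat.le_mul_of_pos_right _ (by omega)
    rw [← hQ, mul_add, mul_assoc] at e1
    omega
  have q4 := Nat.mul_le_mul_left a q1
  rw [← mul_assoc] at k1 k4
  obtain ⟨pr, h⟩ := Gad.core (lr := fun s γ p => cond s r l γ (u p)) (Q := Q)
    (fun γ γ' i i' e1 e2 => (k2 _ _ _ _ e1 e2).imp id fun e => u.injective e)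
    (fun γ γ' i i' j e1 e2 => u.injective (k3 _ _ _ _ _ e1 e2)) hL hm (by omega)
    ((Nat.pow_le_pow_left (by omega) 4).trans h8) q1 q2 c β
  refine ⟨_, pr, ?_, h⟩
  have k5 : a * a ≤ 4 * (G * m) := by
    rw [mul_assoc, ← mul_assoc G] at k1
    omega
  calc n ^ 2 ≤ (8192 * (a * Q)) ^ 2 := Nat.pow_le_pow_left q3 2
    _ = 4 * 4096 ^ 2 * Q ^ 2 * (a * a) := by ring
    _ ≤ 4 * 4096 ^ 2 * Q ^ 2 * (4 * (G * m)) := Nat.mul_le_mul_left _ k5
    _ = 16 * 4096 ^ 2 * 1 * (G * Q ^ 2 * m) := by ring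
    _ ≤ _ := Nat.mul_le_mul_right _ (Nat.mul_le_mul_left _ h0)

end Pool.Agent.MP_6b3410_lc.T26
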