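import Mathlib
import Pool.Agent.MP_6b3410_lc.T26.Spec
import Pool.Agent.MP_6b3410_lc.H48.Gadget4

/-!
A chain of slots with several hubs: formulas with hidden variables and several lookups.
-/

namespace Pool.Agent.MP_6b3410_lc.T26

namespace Look

open Classical Pool.Agent.MP_6b3410_lc.H5

/-- vertices -/
inductive Vx (M w : ℕ) (K : Type) : Type
  | E (j : Fin M) (b : Bool) : Vx M w K
  | Mi (j : Fin M) : Vx M w K
  | C (c : K) : Vx M w K
  | P (i : Fin (w + 1)) : Vx M w K

def vxEquiv (M w : ℕ) (K : Type) : ((Fin M × Bool) ⊕ Fin M ⊕ K ⊕ Fin (w + 1)) ≃ Vx M w K where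
  toFun
    | Sum.inl x => Vx.E x.1 x.2
    | Sum.inr (Sum.inl j) => Vx.Mi j
    | Sum.inr (Sum.inr (Sum.inl c)) => Vx.C c
    | Sum.inr (Sum.inr (Sum.inr i)) => Vx.P i
  invFun
    | Vx.E j b => Sum.inl (j, b)
    | Vx.Mi j => Sum.inr (Sum.inl j)
    | Vx.C c => Sum.inr (Sum.inr (Sum.inl c))
    | Vx.P i => Sum.inr (Sum.inr (Sum.inr i))
  left_inv := by rintro (x | j | c | i) <;> rfl
  right_inv := by rintro (_ | _ | _ | _) <;> rfl

instance (M w : ℕ) (K : Type) [Fintype K] : Fintype (Vx M w K) :=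
  Fintype.ofEquiv _ (vxEquiv M w K)

lemma card_vx (M w : ℕ) (K : Type) [Fintype K] :
    Fintype.card (Vx M w K) = 3 * M + Fintype.card K + w + 1 := by
  rw [← Fintype.card_congr (vxEquiv M w K)]
  simp
  ring

variable {M : ℕ} (w : ℕ) {K : Type} (cls : Fin M → Option K) (pol : Fin M → Bool)
  (T : Fin M → Bool → Bool → Prop) (A B : K → Prop) (D : K → K → Prop)

/-- arcs -/
def Arc : Vx M w K → Vx M w K → Prop
  | Vx.E j _, Vx.Mi j' => j = j'
  | Vx.Mi j, Vx.E j' _ => j = j'
  | Vx.E j b, Vx.E j' b' => j.val + 1 = j'.val ∧ T j b b'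
  | Vx.E j b, Vx.C c => cls j = some c ∧ b = pol j
  | Vx.C c, Vx.Mi j => cls j = some c
  | Vx.E j _, Vx.P i => j.val + 1 = M ∧ i = 0
  | Vx.P i, Vx.E j _ => i = Fin.last w ∧ j.val = 0
  | Vx.P i, Vx.C c => i ≠ Fin.last w ∧ A c
  | Vx.C c, Vx.C c' => A c ∧ B c' ∧ D c c'
  | Vx.C c, Vx.P i => B c ∧ i ≠ 0
  | _, _ => False

/-- the condition that the Hamilton cycles read off -/
def Good : Prop :=
  ∃ st : Fin M → Bool, (∀ j j' : Fin M, j.val + 1 = j'.val → T j (!st j) (st j')) ∧
    ∃ a b : Fin w → K, Function.Injective a ∧ Function.Injective b ∧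
      (∀ i, A (a i) ∧ B (b i) ∧ D (a i) (b i)) ∧
      ∀ c, (∀ i, a i ≠ c) → (∀ i, b i ≠ c) → ∃ j, cls j = some c ∧ st j = pol j

variable {w cls pol T A B D}

theorem chain_sound [Fintype K] (hM : 0 < M) (hAB : ∀ c, A c → ¬ B c)
    (h : DHam (Arc w cls pol T A B D)) : Good w cls pol T A B D := by
  obtain ⟨σ, hσ⟩ := h
  have hsurj := Finite.injective_iff_surjective.1 hσ.inj
  have h2 := hσ.no_two (Vx.E ⟨0, hM⟩ true) (Vx.E ⟨0, hM⟩ false) (Vx.Mi ⟨0, hM⟩)
    (by simp) (by simp) (by simp)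
  have h3 := hσ.no_three (Vx.E ⟨0, hM⟩ true) (Vx.E ⟨0, hM⟩ false) (Vx.Mi ⟨0, hM⟩) (Vx.P 0)
    (by simp) (by simp) (by simp) (by simp) (by simp) (by simp)
  have hMi : ∀ j, ∃ b, σ (Vx.Mi j) = Vx.E j (!b) := by
    intro j
    have := hσ.arc (Vx.Mi j)
    rcases hv : σ (Vx.Mi j) with ⟨j', b⟩ | _ | _ | _ <;> rw [hv] at this <;>
      simp only [Arc] at this
    exact ⟨!b, by rw [this, Bool.not_not]⟩
  choose st hst using hMi
  -- forward moves
  let Fw : Fin M → Vx M w K → Prop := fun j v =>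
    (∃ j' b', v = Vx.E j' b' ∧ j.val + 1 = j'.val) ∨ (v = Vx.P 0 ∧ j.val + 1 = M)
  have hout : ∀ j b, σ (Vx.E j b) = Vx.Mi j ∨ Fw j (σ (Vx.E j b)) ∨
      (∃ c, σ (Vx.E j b) = Vx.C c ∧ cls j = some c ∧ b = pol j) := by
    intro j b
    have := hσ.arc (Vx.E j b)
    rcases hv : σ (Vx.E j b) with ⟨j', b'⟩ | j' | c | i <;> rw [hv] at this <;>
      simp only [Arc] at this
    · exact Or.inr (Or.inl (Or.inl ⟨j', b', rfl, this.1⟩))
    · exact Or.inl (by rw [this])
    · exact Or.inr (Or.inr ⟨c, rfl, this⟩)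
    · exact Or.inr (Or.inl (Or.inr ⟨by rw [this.2], this.1⟩))
  have ha : ∀ j b, Fw j (σ (Vx.E j b)) → ¬ Fw j (σ (Vx.E j (!b))) := by
    rintro j b (⟨j1, b1, e1, e2⟩ | ⟨e1, e2⟩) (⟨j2, b2, e3, e4⟩ | ⟨e3, e4⟩)
    · obtain rfl : j1 = j2 := Fin.ext (by omega)
      by_cases hb : b1 = b2
      · have := hσ.inj (e1.trans (hb ▸ e3).symm)
        simp at this
      · by_cases hb1 : b1 = !st j1
        · have := hσ.inj (e1.trans (hb1 ▸ hst j1).symm)
          simp at this
        · have hb2 : b2 = !st j1 := by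
            revert hb hb1; cases b1 <;> cases b2 <;> cases st j1 <;> simp
          have := hσ.inj (e3.trans (hb2 ▸ hst j1).symm)
          simp at this
    · have := j1.2; omega
    · have := j2.2; omega
    · have := hσ.inj (e1.trans e3.symm)
      simp at this
  have hb : ∀ j, σ (Vx.E j (st j)) = Vx.Mi j ∨ ∃ c, cls j = some c ∧ σ (Vx.C c) = Vx.Mi j := by
    intro j
    obtain ⟨u, hu⟩ := hsurj (Vx.Mi j)
    have := hσ.arc u
    rw [hu] at this
    rcases u with ⟨j', b'⟩ | j' | c | i <;> simp only [Arc] at this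
    · subst this
      by_cases hb : b' = st j'
      · exact Or.inl (hb ▸ hu)
      · exfalso
        have hb' : b' = !st j' := by revert hb; cases b' <;> cases st j' <;> simp
        exact h2 (Vx.Mi j') (by rw [hst, ← hb', hu])
    · exact Or.inr ⟨c, this, hu⟩
  have hc : ∀ j, ∃ b, Fw j (σ (Vx.E j b)) := by
    intro j
    by_cases hj : j.val + 1 < M
    · obtain ⟨u, hu⟩ := hsurj (Vx.E ⟨j.val + 1, hj⟩ (st ⟨j.val + 1, hj⟩))
      have := hσ.arc u
      rw [hu] at this
      rcases u with ⟨j', b'⟩ | j' | c | i <;> simp only [Arc] at this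
      · obtain rfl : j' = j := Fin.ext (by omega)
        exact ⟨b', Or.inl ⟨_, _, hu, rfl⟩⟩
      · subst this
        rw [hst] at hu
        simp at hu
      · omega
    · obtain ⟨u, hu⟩ := hsurj (Vx.P 0)
      have := hσ.arc u
      rw [hu] at this
      rcases u with ⟨j', b'⟩ | j' | c | i <;> simp only [Arc] at this
      · have := j.2
        obtain rfl : j' = j := Fin.ext (by omega)
        exact ⟨b', Or.inr ⟨hu, by omega⟩⟩
      · simp at this
  have hnF1 : ∀ j j', ¬ Fw j (Vx.Mi j') := by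
    rintro j j' (⟨_, _, h, _⟩ | ⟨h, _⟩) <;> simp at h
  have hnF2 : ∀ j c, ¬ Fw j (Vx.C c) := by
    rintro j j' (⟨_, _, h, _⟩ | ⟨h, _⟩) <;> simp at h
  have hd : ∀ j, Fw j (σ (Vx.E j (!st j))) := by
    intro j
    rcases hout j (!st j) with h | h | ⟨c, h⟩
    · exact absurd (by rw [hst, h]) (h2 (Vx.Mi j))
    · exact h
    · exfalso
      obtain ⟨b, hb'⟩ := hc j
      have e1 : b = st j := by
        by_contra hne
        have : b = !st j := by revert hne; cases b <;> cases st j <;> simp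
        rw [this, h.1] at hb'
        exact hnF2 _ _ hb'
      rw [e1] at hb'
      rcases hb j with h' | ⟨c', h', h''⟩
      · rw [h'] at hb'; exact hnF1 _ _ hb'
      · obtain rfl : c = c' := Option.some.inj (h.2.1.symm.trans h')
        exact h3 (Vx.Mi j) (by rw [hst, h.1, h''])
  have he : ∀ j, σ (Vx.E j (st j)) = Vx.Mi j ∨
      (∃ c, σ (Vx.E j (st j)) = Vx.C c ∧ cls j = some c ∧ st j = pol j) := by
    intro j
    rcases hout j (st j) with h | h | h
    · exact Or.inl h
    · exact absurd (hd j) (ha j _ h)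
    · exact Or.inr h
  have hin : ∀ j b c, σ (Vx.E j b) = Vx.C c →
      cls j = some c ∧ st j = pol j ∧ σ (Vx.C c) = Vx.Mi j := by
    intro j b c h
    have e1 : b = st j := by
      by_contra hne
      have : b = !st j := by revert hne; cases b <;> cases st j <;> simp
      have h' := hd j
      rw [← this, h] at h'
      exact hnF2 _ _ h'
    subst e1
    rcases he j with h' | ⟨c', h'⟩
    · rw [h] at h'; simp at h'
    · obtain rfl : c' = c := by
        have := h'.1.symm.trans h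
        simpa using this
      refine ⟨h'.2.1, h'.2.2, ?_⟩
      rcases hb j with h'' | ⟨c'', h1, h''⟩
      · rw [h] at h''; simp at h''
      · obtain rfl : c' = c'' := Option.some.inj (h'.2.1.symm.trans h1)
        exact h''
  have hback : ∀ j c, σ (Vx.C c) = Vx.Mi j → σ (Vx.E j (st j)) = Vx.C c := by
    intro j c h
    have h1 := hσ.arc (Vx.C c)
    rw [h] at h1
    simp only [Arc] at h1
    rcases he j with h' | ⟨c', h'⟩
    · have := hσ.inj (h.trans h'.symm)
      simp at this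
    · obtain rfl : c' = c := Option.some.inj (h'.2.1.symm.trans h1)
      exact h'.1
  refine ⟨st, fun j j' h => ?_, ?_⟩
  · rcases hd j with ⟨j1, b1, e1, e2⟩ | ⟨-, e2⟩
    · obtain rfl : j1 = j' := Fin.ext (by omega)
      have := hσ.arc (Vx.E j (!st j))
      rw [e1] at this
      simp only [Arc] at this
      by_cases hb1 : b1 = st j1
      · exact hb1 ▸ this.2
      · have e4 : b1 = !st j1 := by revert hb1; cases b1 <;> cases st j1 <;> simp
        have := hσ.inj (e1.trans (e4 ▸ hst j1).symm)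
        simp at this
    · have := j'.2; omega
  · have h5 : ∀ i : Fin w, ∃ a, σ (Vx.P i.castSucc) = Vx.C a ∧ A a := by
      intro i
      have := hσ.arc (Vx.P i.castSucc)
      rcases hv : σ (Vx.P i.castSucc) with ⟨j', b'⟩ | j' | c | i <;> rw [hv] at this <;>
        simp only [Arc] at this
      · exact absurd this.1 (Fin.castSucc_ne_last i)
      · exact ⟨c, rfl, this.2⟩
    choose a ea hA using h5
    have h6 : ∀ i : Fin w, ∃ b, σ (Vx.C (a i)) = Vx.C b ∧ B b ∧ D (a i) b := by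
      intro i
      have := hσ.arc (Vx.C (a i))
      rcases hv : σ (Vx.C (a i)) with ⟨j', b'⟩ | j' | c | i <;> rw [hv] at this <;>
        simp only [Arc] at this
      · have := hσ.inj ((hback _ _ hv).trans (ea i).symm)
        simp at this
      · exact ⟨c, rfl, this.2⟩
      · exact absurd this.1 (hAB _ (hA _))
    choose b eb hB hD using h6
    have ia : Function.Injective a := fun i i' h => by
      have := hσ.inj ((ea i).trans (h ▸ ea i').symm)
      simpa using this
    have ib : Function.Injective b := fun i i' h => by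
      have := hσ.inj ((eb i).trans (h ▸ eb i').symm)
      exact ia (by simpa using this)
    refine ⟨a, b, ia, ib, fun i => ⟨hA i, hB i, hD i⟩, fun c hca hcb => ?_⟩
    obtain ⟨u, hu⟩ := hsurj (Vx.C c)
    have := hσ.arc u
    rw [hu] at this
    rcases u with ⟨j', b'⟩ | j' | c' | i <;> simp only [Arc] at this
    · exact ⟨j', (hin _ _ _ hu).1, (hin _ _ _ hu).2.1⟩
    · exfalso
      obtain ⟨u', hu'⟩ := hsurj (Vx.C c')
      have h4 := hσ.arc u'
      rw [hu'] at h4
      rcases u' with ⟨j'', b''⟩ | j'' | c'' | i <;> simp only [Arc] at h4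
      · have := (hin _ _ _ hu').2.2
        rw [hu] at this
        simp at this
      · exact hAB _ this.1 h4.2.1
      · obtain ⟨i, rfl⟩ := Fin.exists_castSucc_eq.2 h4.1
        rw [ea] at hu'
        obtain rfl : a i = c' := by simpa using hu'
        rw [eb] at hu
        exact hcb i (by simpa using hu)
    · obtain ⟨i, rfl⟩ := Fin.exists_castSucc_eq.2 this.1
      rw [ea] at hu
      exact absurd (by simpa using hu) (hca i)

theorem chain_complete [Fintype K] (hM : 0 < M) (hAB : ∀ c, A c → ¬ B c)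
    (h : Good w cls pol T A B D) : DHam (Arc w cls pol T A B D) := by
  obtain ⟨st, hT, a, b, ia, ib, hD, hcl⟩ := h
  have hab : ∀ i, ¬ ∃ i', a i' = b i := fun i ⟨i', h⟩ => hAB _ (hD i').1 (h ▸ (hD i).2.1)
  let fr : K → Prop := fun c => (¬ ∃ i, a i = c) ∧ ¬ ∃ i, b i = c
  have hex : ∀ c : K, ∃ j : Fin M, fr c → cls j = some c ∧ st j = pol j := by
    intro c
    by_cases hc : fr c
    · obtain ⟨j, hj⟩ := hcl c (fun i h => hc.1 ⟨i, h⟩) fun i h => hc.2 ⟨i, h⟩
      exact ⟨j, fun _ => hj⟩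
    · exact ⟨⟨0, hM⟩, fun h => absurd h hc⟩
  choose slot hslot using hex
  let det : Fin M → Prop := fun j => ∃ c, fr c ∧ slot c = j
  let σ : Vx M w K → Vx M w K
    | Vx.E j b => if b = st j then (if h : det j then Vx.C h.choose else Vx.Mi j)
        else (if h : j.val + 1 < M then Vx.E ⟨j.val + 1, h⟩ (st ⟨j.val + 1, h⟩) else Vx.P 0)
    | Vx.Mi j => Vx.E j (!st j)
    | Vx.C c => if h : ∃ i, a i = c then Vx.C (b h.choose) else
        if h : ∃ i, b i = c then Vx.P h.choose.succ else Vx.Mi (slot c)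
    | Vx.P i => if h : i.val < w then Vx.C (a ⟨i.val, h⟩) else Vx.E ⟨0, hM⟩ (st ⟨0, hM⟩)
  let ρ : Vx M w K → ℕ
    | Vx.E j b => if b = st j then 4 * j.val else 4 * j.val + 3
    | Vx.Mi j => 4 * j.val + 2
    | Vx.C c => if h : ∃ i, a i = c then 4 * M + 3 * h.choose.val + 1 else
        if h : ∃ i, b i = c then 4 * M + 3 * h.choose.val + 2 else 4 * (slot c).val + 1
    | Vx.P i => 4 * M + 3 * i.val
  have ca : ∀ i, σ (Vx.C (a i)) = Vx.C (b i) ∧ ρ (Vx.C (a i)) = 4 * M + 3 * i.val + 1 := by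
    intro i
    have h : ∃ i', a i' = a i := ⟨i, rfl⟩
    simp only [σ, ρ, dif_pos h, ia h.choose_spec, and_self]
  have cb : ∀ i, σ (Vx.C (b i)) = Vx.P i.succ ∧ ρ (Vx.C (b i)) = 4 * M + 3 * i.val + 2 := by
    intro i
    have h : ∃ i', b i' = b i := ⟨i, rfl⟩
    simp only [σ, ρ, dif_neg (hab i), dif_pos h, ib h.choose_spec, and_self]
  have cf : ∀ c, fr c → σ (Vx.C c) = Vx.Mi (slot c) ∧ ρ (Vx.C c) = 4 * (slot c).val + 1 := by
    intro c h
    simp only [σ, ρ, dif_neg h.1, dif_neg h.2, and_self]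
  have ce : ∀ c, fr c → σ (Vx.E (slot c) (st (slot c))) = Vx.C c := by
    intro c hc
    have h : det (slot c) := ⟨c, hc, rfl⟩
    have e := (hslot _ h.choose_spec.1).1
    rw [h.choose_spec.2, (hslot c hc).1] at e
    simp only [σ, if_true, dif_pos h, ← Option.some.inj e]
  have cm : ∀ j, ¬ det j → σ (Vx.E j (st j)) = Vx.Mi j := by
    intro j h
    simp only [σ, if_true, dif_neg h]
  have cp : ∀ i : Fin w, σ (Vx.P i.castSucc) = Vx.C (a i) := by
    intro i
    simp [σ]
  have cl : σ (Vx.P (Fin.last w)) = Vx.E ⟨0, hM⟩ (st ⟨0, hM⟩) := by simp [σ]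
  have tri : ∀ c, (∃ i, a i = c) ∨ (∃ i, b i = c) ∨ fr c := fun c => by
    simp only [fr]
    tauto
  have hsurj : Function.Surjective σ := by
    rintro (⟨j, b⟩ | j | c | i)
    · by_cases hb : b = st j
      · rcases Nat.eq_zero_or_pos j.val with h0 | h0
        · refine ⟨Vx.P (Fin.last w), ?_⟩
          obtain rfl : j = ⟨0, hM⟩ := Fin.ext h0
          rw [cl, hb]
        · have := j.2
          refine ⟨Vx.E ⟨j.val - 1, by omega⟩ (!st ⟨j.val - 1, by omega⟩), ?_⟩
          have e1 : j.val - 1 + 1 = j.val := by omega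
          simp [σ, hb, e1]
      · refine ⟨Vx.Mi j, ?_⟩
        have : b = !st j := by revert hb; cases b <;> cases st j <;> simp
        simp [σ, this]
    · by_cases hd : det j
      · obtain ⟨c, hc, rfl⟩ := hd
        exact ⟨Vx.C c, (cf c hc).1⟩
      · exact ⟨Vx.E j (st j), cm j hd⟩
    · rcases tri c with ⟨i, rfl⟩ | ⟨i, rfl⟩ | hc
      · exact ⟨Vx.P i.castSucc, cp i⟩
      · exact ⟨Vx.C (a i), (ca i).1⟩
      · exact ⟨Vx.E (slot c) (st (slot c)), ce c hc⟩
    · refine Fin.cases ?_ (fun i => ⟨Vx.C (b i), (cb i).1⟩) i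
      refine ⟨Vx.E ⟨M - 1, by omega⟩ (!st ⟨M - 1, by omega⟩), ?_⟩
      have e1 : ¬ (M - 1 + 1 < M) := by omega
      simp [σ, e1]
  refine ⟨σ, Cyc.of_rank (Finite.injective_iff_surjective.2 hsurj) ?_ ρ (Vx.P (Fin.last w)) ?_⟩
  · rintro (⟨j, b⟩ | j | c | i)
    · by_cases h1 : b = st j
      · subst h1
        by_cases hd : det j
        · obtain ⟨c, hc, rfl⟩ := hd
          rw [ce c hc]
          exact hslot c hc
        · rw [cm j hd]
          rfl
      · simp only [σ, if_neg h1]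
        split_ifs with h3
        · refine ⟨rfl, ?_⟩
          have : b = !st j := by revert h1; cases b <;> cases st j <;> simp
          rw [this]
          exact hT _ _ rfl
        · have := j.2
          exact ⟨by omega, rfl⟩
    · rfl
    · rcases tri c with ⟨i, rfl⟩ | ⟨i, rfl⟩ | hc
      · rw [(ca i).1]
        exact hD i
      · rw [(cb i).1]
        exact ⟨(hD i).2.1, Fin.succ_ne_zero i⟩
      · rw [(cf c hc).1]
        exact (hslot c hc).1
    · refine Fin.lastCases ?_ (fun i => ?_) i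
      · rw [cl]
        exact ⟨rfl, rfl⟩
      · rw [cp]
        exact ⟨Fin.castSucc_ne_last i, (hD i).1⟩
  · rintro (⟨j, b⟩ | j | c | i) hv
    · by_cases h1 : b = st j
      · subst h1
        by_cases hd : det j
        · obtain ⟨c, hc, rfl⟩ := hd
          rw [ce c hc, (cf c hc).2]
          simp [ρ]
        · rw [cm j hd]
          simp [ρ]
      · simp only [σ, if_neg h1]
        split_ifs with h3
        · simp only [ρ, h1, if_true, if_false]; omega
        · have := j.2
          simp only [ρ, h1, if_false]; omega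
    · simp [σ, ρ]
    · rcases tri c with ⟨i, rfl⟩ | ⟨i, rfl⟩ | hc
      · rw [(ca i).1, (ca i).2, (cb i).2]
        omega
      · rw [(cb i).1, (cb i).2]
        simp only [ρ, Fin.val_succ]
        omega
      · rw [(cf c hc).1, (cf c hc).2]
        simp [ρ]
    · obtain ⟨i, rfl⟩ := Fin.exists_castSucc_eq.2 fun h : i = Fin.last w => hv (by rw [h])
      rw [cp, (ca i).2]
      simp [ρ]

theorem chain_iff [Fintype K] (hM : 0 < M) (hAB : ∀ c, A c → ¬ B c) :
    DHam (Arc w cls pol T A B D) ↔ Good w cls pol T A B D :=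
  ⟨chain_sound hM hAB, chain_complete hM hAB⟩

end Look

open Classical Look Pool.Agent.MP_6b3410_lc.H5

theorem look : LookStmt := by
  intro N w Y K Z _ _ _ cls src tgt hst hinj hN
  obtain ⟨L, oc, hM, hL, ho1, ho2⟩ := H48.exists_occ (O := Σ κ, cls κ) fun o => o.2.1.1
  obtain ⟨row, pos, h0, h1, h2, h3⟩ := H19.exists_chain Y L
  simp only [Fintype.card_sigma, Fintype.card_coe] at hM
  have hM0 : 0 < ∑ r, L r := by
    have := Fintype.card_pos (α := Y)
    omega
  generalize (∑ r, L r) = M at *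
  have hV : 3 * Fintype.card (Vx M w K) ≤ N := by rw [card_vx, hM]; exact hN
  have : Nonempty (Vx M w K) := ⟨Vx.P 0⟩
  obtain ⟨rail, hri, hr⟩ := H19.exists_rails (V := Vx M w K) N hV (fun p => Vx.C (src p))
    (fun p => Vx.C (tgt p)) fun p p' e1 e2 => hinj p p' (Vx.C.inj e1) (Vx.C.inj e2)
  let cl : Fin M → Option K := fun j => (oc (row j) (pos j)).map fun o => o.1
  let pol : Fin M → Bool := fun j => ((oc (row j) (pos j)).map fun o => o.2.1.2).getD false
  let T : Fin M → Bool → Bool → Prop := fun j b b' => pos j + 1 < L (row j) → b' = !b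
  obtain ⟨rho, hrho⟩ := hr (Arc w cl pol T (· ∈ Set.range src) (· ∈ Set.range tgt) fun _ _ => False)
    fun p h => h.2.2
  refine ⟨rail, rho, hri, fun x hx => ?_⟩
  have e : (fun u v => Arc w cl pol T (· ∈ Set.range src) (· ∈ Set.range tgt) (fun _ _ => False) u v
      ∨ ∃ p, x (rail p) = true ∧ u = Vx.C (src p) ∧ v = Vx.C (tgt p)) =
      Arc w cl pol T (· ∈ Set.range src) (· ∈ Set.range tgt)
        fun c c' => ∃ p, x (rail p) = true ∧ src p = c ∧ tgt p = c' := by
    funext u v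
    refine propext ⟨?_, fun hA => ?_⟩
    · rintro (hA | ⟨p, hp, rfl, rfl⟩)
      · cases u <;> cases v <;> first
          | exact hA
          | exact hA.2.2.elim
      · exact ⟨⟨p, rfl⟩, ⟨p, rfl⟩, p, hp, rfl, rfl⟩
    · cases u <;> cases v <;> first
        | exact Or.inl hA
        | skip
      obtain ⟨-, -, p, hp, rfl, rfl⟩ := hA
      exact Or.inr ⟨p, hp, rfl, rfl⟩
  rw [hrho x hx, e, chain_iff hM0 (by
    rintro c ⟨p, rfl⟩ ⟨p', h⟩
    exact hst p p' h.symm)]
  constructor
  · rintro ⟨st, hT, a, b, ia, ib, hD, hcl⟩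
    choose p hp ea eb using fun i => (hD i).2.2
    choose j0 hj1 hj2 using fun v => h1 v 0 (by have := hL v; omega)
    have hrow : ∀ m j, pos j = m → st j = st (j0 (row j)) := by
      intro m
      induction m with
      | zero => intro j hj; rw [← h2 j (j0 (row j)) (hj1 _).symm (by rw [hj, hj2])]
      | succ m ih =>
        intro j hj
        obtain ⟨j', e1, e2⟩ := h1 (row j) m (by have := h0 j; omega)
        rw [hT j' j (h3 _ _ e1 (by omega)) (by rw [e1, e2, ← hj]; exact h0 j), Bool.not_not,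
          ih j' e2, e1]
    refine ⟨fun v => st (j0 v), p, by simpa only [ea] using ia, by simpa only [eb] using ib, hp,
      fun κ k1 k2 => ?_⟩
    obtain ⟨j, e1, e2⟩ := hcl κ (by simpa only [ea] using k1) (by simpa only [eb] using k2)
    obtain ⟨o, e3, rfl⟩ := Option.map_eq_some_iff.1 e1
    refine ⟨o.2.1, o.2.2, ?_⟩
    beta_reduce
    rw [(ho1 _ _ _ e3).1, ← hrow _ j rfl, e2]
    simp [pol, e3]
  · rintro ⟨y, p, ia, ib, hp, hy⟩
    refine ⟨fun j => y (row j), fun j j' hj hlt => ?_, _, _, ia, ib,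
      fun i => ⟨⟨_, rfl⟩, ⟨_, rfl⟩, p i, hp i, rfl, rfl⟩, fun κ k1 k2 => ?_⟩
    · obtain ⟨j1, e1, e2⟩ := h1 _ _ hlt
      have := h3 j j1 e1.symm e2.symm
      obtain rfl : j1 = j' := Fin.ext (by omega)
      beta_reduce
      rw [Bool.not_not, e1]
    · obtain ⟨t, ht, e1⟩ := hy κ k1 k2
      obtain ⟨m, hm, e2⟩ := ho2 ⟨κ, t, ht⟩
      obtain ⟨j, e3, e4⟩ := h1 _ _ hm
      exact ⟨j, by simp [cl, e3, e4, e2], by simp [pol, e3, e4, e2, e1]⟩

end Pool.Agent.MP_6b3410_lc.T26
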