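import Pool.Agent.MP_6b3410_lc.T26.Spec

/-!
Assembly of the time-space tradeoff.
-/

namespace Pool.Agent.MP_6b3410_lc.T26

open Classical Finset

namespace Main

lemma neg_of_bal {m K : ℕ} {h : (Fin m → Bool) → Bool} (hb : Bal h K) (β : Bool) :
    Neg (wt h β) K := by
  intro F G o R₁ R₂ h1 h2 h3 h4 h5
  have h6 := hb F G o R₁ R₂ β h1 h2 h3 h4 h5
  have e : ∀ p : (Fin m → Bool) × (Fin m → Bool), wt h β (hyb F p.1 p.2) =
      1 - 8 / 3 * if h (hyb F p.1 p.2) = β then (1 : ℝ) else 0 := by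
    intro p
    unfold wt
    split_ifs <;> norm_num
  rw [← card_product, card_filter] at h6
  have h7 : (3 : ℝ) * (R₁ ×ˢ R₂).card ≤
      8 * ∑ p ∈ R₁ ×ˢ R₂, if h (hyb F p.1 p.2) = β then (1 : ℝ) else 0 := by exact_mod_cast h6
  simp only [e]
  rw [sum_sub_distrib, ← mul_sum, sum_const, nsmul_eq_mul]
  linarith

lemma exists_half {m : ℕ} (h : (Fin m → Bool) → Bool) :
    ∃ β, 2 * (univ.filter fun y => h y = β).card ≤ 2 ^ m := by
  have h1 := card_filter_add_card_filter_not (s := univ) fun y => h y = true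
  simp only [card_univ, Fintype.card_fun, Fintype.card_bool, Fintype.card_fin,
    Bool.not_eq_true] at h1
  by_cases h2 : 2 * (univ.filter fun y => h y = true).card ≤ 2 ^ m
  · exact ⟨true, h2⟩
  · exact ⟨false, by omega⟩

lemma lin_le (ν : ℕ) (h : 16 ≤ ν) : 3200 * ν ≤ 2 ^ ν := by
  induction ν, h using Nat.le_induction with
  | base => norm_num
  | succ n hn ih => rw [pow_succ]; omega

lemma K_le {ν M e : ℕ} (hν : 16 ≤ ν) (hM : M = 2 ^ ν) (he : e = Nat.sqrt (160 * M ^ 10) + 1) :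
    100 * e * (M ^ 10 + 1) ^ (2 * e) ≤ 2 ^ M ^ 7 := by
  have h1 := lin_le ν hν
  rw [← hM] at h1
  have hM1 : 1 ≤ M ^ 5 := Nat.one_le_pow _ _ (by omega)
  have h2 : e ≤ 14 * M ^ 5 := by
    have : Nat.sqrt (160 * M ^ 10) ≤ 13 * M ^ 5 := by
      rw [← Nat.sqrt_eq' (13 * M ^ 5)]
      exact Nat.sqrt_le_sqrt (by nlinarith [Nat.zero_le (M ^ 10)])
    omega
  have h3 : M ^ 10 + 1 ≤ 2 ^ (10 * ν + 1) := by
    have : M ^ 10 = 2 ^ (10 * ν) := by rw [hM, ← pow_mul, mul_comm]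
    rw [pow_succ 2, this]
    have := Nat.one_le_two_pow (n := 10 * ν)
    omega
  have h4 : 100 * e ≤ 2 ^ (100 * e) := Nat.lt_two_pow_self.le
  calc 100 * e * (M ^ 10 + 1) ^ (2 * e) ≤ 2 ^ (100 * e) * (2 ^ (10 * ν + 1)) ^ (2 * e) := by gcongr
    _ = 2 ^ ((20 * ν + 102) * e) := by rw [← pow_mul, ← pow_add]; ring_nf
    _ ≤ 2 ^ M ^ 7 := by
      refine Nat.pow_le_pow_right (by norm_num) ?_
      calc (20 * ν + 102) * e ≤ (20 * ν + 102) * (14 * M ^ 5) := by gcongr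
        _ = (280 * ν + 1428) * 1 * M ^ 5 := by ring
        _ ≤ M * M * M ^ 5 := by gcongr <;> omega
        _ = M ^ 7 := by ring

lemma core (hG : GadStmt) (hE : ExtStmt) (hP : ProgStmt) (hA : AvgStmt) (hN : NumStmt) :
    ∃ C ν₁ : ℕ, 1 ≤ C ∧ ∀ ν k κ n : ℕ, ν₁ ≤ ν → 1 ≤ k → 2 * k * κ ≤ ν → ν ^ 3 ≤ 2 ^ κ →
      C * 2 ^ (80 * ν) ≤ n → ∀ (s T : ℕ) (Ω : Type) [Fintype Ω] (μ : Ω → ℝ)
      (var : Ω → Fin s → H19.Edge n) (next : Ω → Fin s → Bool → Fin s) (start : Ω → Fin s)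
      (out : Ω → Fin s → Bool), (∀ ω, 0 ≤ μ ω) → ∑ ω, μ ω = 1 →
      (∀ x, 2 / 3 ≤ ∑ ω ∈ univ.filter fun ω =>
        (out ω (run (var ω) (next ω) x T (start ω)) = true ↔ H19.Ham x), μ ω) →
      s * (T + 1) ≤ 2 ^ (2 ^ ν) ^ 4 → k * n ^ 2 ≤ 18 * C * T := by
  obtain ⟨C, hC, hG⟩ := hG
  obtain ⟨ν₀, hN⟩ := hN
  refine ⟨C, ν₀ + 16, hC, fun ν k κ n hν hk hκ hq hn s T Ω _ μ var next start out h0 h1 h2 hs => ?_⟩
  obtain ⟨M, hM⟩ : ∃ M, M = 2 ^ ν := ⟨_, rfl⟩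
  rw [← hM] at hs
  have hlin := lin_le ν (by omega)
  rw [← hM] at hlin
  have hκ1 : 1 ≤ κ := by
    by_contra h
    obtain rfl : κ = 0 := by omega
    have : 2 ^ 3 ≤ ν ^ 3 := Nat.pow_le_pow_left (by omega) 3
    omega
  have hkν : k ≤ ν := by nlinarith
  have hqk : (2 ^ κ) ^ (2 * k) ≤ M := by
    rw [← pow_mul, hM]
    exact Nat.pow_le_pow_right (by norm_num) (by linarith)
  have hqM : 2 ^ κ ≤ M := by
    rw [hM]
    exact Nat.pow_le_pow_right (by norm_num) (by nlinarith)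
  have hm1 : 1 ≤ M ^ 10 := Nat.one_le_pow _ _ (by omega)
  obtain ⟨c, hc⟩ := hE (M ^ 10) (Nat.sqrt (160 * M ^ 10) + 1) hm1 (Nat.lt_succ_sqrt' _).le
  obtain ⟨β, hβ⟩ := exists_half (H75.poly c)
  obtain ⟨Γ, pr, hΓ, hpr⟩ := hG n (M ^ 10) hm1 (by
    rw [← pow_mul, hM, ← pow_mul, mul_comm ν]
    exact hn) c β
  have hn1 : 1 ≤ n := le_trans (Nat.mul_pos hC (by positivity)) hn
  have hΓ1 : 1 ≤ Γ := by
    by_contra h
    obtain rfl : Γ = 0 := by omega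
    have : 0 < n ^ 2 := by positivity
    simp at hΓ
    omega
  by_contra hcon
  have hT : 18 * T ≤ Γ * (k * M ^ 2 * M ^ 8) := by
    have a : C * (18 * T) ≤ C * (Γ * (k * M ^ 2 * M ^ 8)) := by
      calc C * (18 * T) = 18 * C * T := by ring
        _ ≤ k * n ^ 2 := (not_le.1 hcon).le
        _ ≤ k * (C * (Γ * M ^ 10)) := Nat.mul_le_mul_left _ hΓ
        _ = _ := by ring
    exact Nat.le_of_mul_le_mul_left a hC
  obtain ⟨S, W, var', next', v₀, P, w1, w2, w3⟩ := hA (H19.Edge n) (M ^ 10) Γ s T _ (H75.poly c) β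
    H19.Ham pr Ω μ var next start out hm1 hΓ1 hβ hpr h0 h1 h2 hT
  obtain ⟨n1, n2⟩ := hN ν (by omega) M k (2 ^ κ) (s * (T + 1)) _ hM hk hkν hq hqM hs
    (K_le (by omega) hM rfl)
  have key := hP (M ^ 10) _ (k * M ^ 2) (M ^ 8) k (2 ^ κ) (200 * k * M ^ 10 / 2 ^ κ + 1)
    (M ^ 9 / 4) (M ^ 8) (M ^ 8 * (5 + ν)) (s * (T + 1)) _ S W var' next' v₀ P
    (fun x => by unfold wt; split_ifs <;> norm_num) (neg_of_bal hc β) w1 w2
    Nat.one_le_two_pow hk (le_of_eq (by ring)) (by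
      calc 3200 * k * M ^ 8 * (2 ^ κ) ^ (2 * k) ≤ M * M ^ 8 * M := by gcongr; omega
        _ = M ^ 10 := by ring)
    (Nat.lt_mul_div_succ _ (by positivity)).le (by
      calc 4 * (2 ^ κ) ^ (2 * k) * (M ^ 9 / 4) ≤ 4 * M * (M ^ 9 / 4) := by gcongr
        _ = M * (4 * (M ^ 9 / 4)) := by ring
        _ ≤ M * M ^ 9 := Nat.mul_le_mul_left _ (Nat.mul_div_le _ _)
        _ = M ^ 10 := by ring) n1 (by
      rw [Nat.le_div_iff_mul_le (by norm_num), pow_succ M 8]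
      exact Nat.mul_le_mul_left _ (by omega))
  linarith

lemma log_small (ν : ℕ) (h : 64 ≤ ν) : 6 * (Nat.log 2 ν + 1) ≤ ν := by
  have h1 : 6 ≤ Nat.log 2 ν := Nat.le_log_of_pow_le (by norm_num) h
  have h2 := Nat.pow_log_le_self 2 (show ν ≠ 0 by omega)
  have h3 : ∀ t, 6 ≤ t → 6 * (t + 1) ≤ 2 ^ t := by
    intro t ht
    induction t, ht using Nat.le_induction with
    | base => norm_num
    | succ n hn ih => rw [pow_succ]; omega
  exact (h3 _ h1).trans h2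

lemma ratio_le {ν k n : ℕ} (hν : 80 ≤ ν) (hk : ν < 6 * (Nat.log 2 ν + 1) * (k + 1)) (hk1 : 1 ≤ k)
    (h1 : 2 ^ (80 * ν) ≤ n) (h2 : n ≤ 2 ^ (120 * ν)) :
    Real.log n / Real.log (Real.log n) ≤ 3200 * k := by
  have l1 := Real.log_two_gt_d9
  have l2 := Real.log_two_lt_d9
  have hν' : (80 : ℝ) ≤ ν := by exact_mod_cast hν
  have a1 : (ν : ℝ) ≤ Real.log n := by
    have : Real.log (2 ^ (80 * ν)) ≤ Real.log n :=
      Real.log_le_log (by positivity) (by exact_mod_cast h1)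
    rw [Real.log_pow] at this
    push_cast at this
    nlinarith
  have a2 : Real.log n ≤ 84 * ν := by
    have : Real.log n ≤ Real.log (2 ^ (120 * ν)) :=
      Real.log_le_log (by exact_mod_cast lt_of_lt_of_le (by positivity) h1) (by exact_mod_cast h2)
    rw [Real.log_pow] at this
    push_cast at this
    nlinarith
  have a3 : (Nat.log 2 ν : ℝ) * Real.log 2 ≤ Real.log (Real.log n) := by
    rw [← Real.log_pow]
    refine Real.log_le_log (by positivity) (le_trans ?_ a1)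
    exact_mod_cast Nat.pow_log_le_self 2 (show ν ≠ 0 by omega)
  have a4 : (6 : ℝ) ≤ Nat.log 2 ν := by
    exact_mod_cast Nat.le_log_of_pow_le (by norm_num) (show 2 ^ 6 ≤ ν by omega)
  have a5 : (ν : ℝ) ≤ 6 * (Nat.log 2 ν + 1) * (k + 1) := by exact_mod_cast hk.le
  have a6 : (1 : ℝ) ≤ k := by exact_mod_cast hk1
  set L := Real.log (Real.log n)
  set t : ℝ := (Nat.log 2 ν : ℝ)
  have a7 : t + 1 ≤ 2 * L := by nlinarith
  rw [div_le_iff₀ (by linarith)]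
  have a8 : (t + 1) * (k + 1) ≤ 2 * L * (2 * k) :=
    mul_le_mul a7 (by linarith) (by linarith) (by linarith)
  nlinarith

end Main

open Main in
theorem main (hG : GadStmt) (hE : ExtStmt) (hP : ProgStmt) (hA : AvgStmt) (hN : NumStmt) :
    ∃ c : ℝ, 0 < c ∧ ∃ n₀ : ℕ, ∀ n : ℕ, n₀ ≤ n → ∀ (s T : ℕ) (Ω : Type) [Fintype Ω] (μ : Ω → ℝ)
      (var : Ω → Fin s → H19.Edge n) (next : Ω → Fin s → Bool → Fin s) (start : Ω → Fin s)
      (out : Ω → Fin s → Bool), (∀ ω, 0 ≤ μ ω) → ∑ ω, μ ω = 1 →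
      (∀ x, 2 / 3 ≤ ∑ ω ∈ univ.filter fun ω =>
        (out ω (run (var ω) (next ω) x T (start ω)) = true ↔ H19.Ham x), μ ω) →
      (s : ℝ) ≤ Real.exp ((n : ℝ) ^ (1 / 40 : ℝ)) →
      c * ((n : ℝ) ^ 2 * (Real.log n / Real.log (Real.log n))) ≤ T := by
  obtain ⟨C, ν₁, hC, h⟩ := core hG hE hP hA hN
  refine ⟨1 / (18 * C * 3200), by positivity, C * 2 ^ (80 * (ν₁ + C + 80)),
    fun n hn s T Ω _ μ var next start out h0 h1 h2 hs => ?_⟩
  have hd : 2 ^ (80 * (ν₁ + C + 80)) ≤ n / C := by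
    rw [Nat.le_div_iff_mul_le hC, mul_comm]
    exact hn
  have hd0 : n / C ≠ 0 := (lt_of_lt_of_le (by positivity) hd).ne'
  obtain ⟨ν, hν⟩ : ∃ ν, ν = Nat.log 2 (n / C) / 80 := ⟨_, rfl⟩
  have b1 : ν₁ + C + 80 ≤ ν := by
    have := Nat.le_log_of_pow_le (by norm_num) hd
    omega
  have b2 : C * 2 ^ (80 * ν) ≤ n := by
    have : 2 ^ (80 * ν) ≤ n / C :=
      (Nat.pow_le_pow_right (by norm_num) (by omega)).trans (Nat.pow_log_le_self 2 hd0)
    rw [Nat.le_div_iff_mul_le hC, mul_comm] at this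
    exact this
  have b3 : n ≤ 2 ^ (82 * ν) := by
    have a : n / C + 1 ≤ 2 ^ (81 * ν) :=
      (Nat.lt_pow_succ_log_self (b := 2) (by norm_num) (n / C)).trans_le
        (Nat.pow_le_pow_right (by norm_num) (by omega))
    have b : C ≤ 2 ^ ν := (show C ≤ ν by omega).trans Nat.lt_two_pow_self.le
    calc n ≤ C * (n / C + 1) := (Nat.lt_mul_div_succ _ hC).le
      _ ≤ 2 ^ ν * 2 ^ (81 * ν) := Nat.mul_le_mul b a
      _ = 2 ^ (82 * ν) := by rw [← pow_add]; ring_nf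
  have b4 : n ≤ 2 ^ (120 * ν) := b3.trans (Nat.pow_le_pow_right (by norm_num) (by omega))
  have b5 : 2 ^ (80 * ν) ≤ n := le_trans (Nat.le_mul_of_pos_left _ hC) b2
  have b6 := log_small ν (by omega)
  obtain ⟨k, hk⟩ : ∃ k, k = ν / (6 * (Nat.log 2 ν + 1)) := ⟨_, rfl⟩
  have k1 : 1 ≤ k := hk ▸ (Nat.le_div_iff_mul_le (by positivity)).2 (by omega)
  have k2 : 2 * k * (3 * (Nat.log 2 ν + 1)) ≤ ν := by
    have := Nat.mul_div_le ν (6 * (Nat.log 2 ν + 1))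
    rw [← hk] at this
    linarith
  have k3 : ν ^ 3 ≤ 2 ^ (3 * (Nat.log 2 ν + 1)) := by
    rw [mul_comm, pow_mul]
    exact Nat.pow_le_pow_left (Nat.lt_pow_succ_log_self (by norm_num) ν).le 3
  have k4 := ratio_le (k := k) (by omega) (hk ▸ Nat.lt_mul_div_succ _ (by positivity)) k1 b5 b4
  have key : k * n ^ 2 ≤ 18 * C * T := by
    by_cases hT : n ^ 3 ≤ T
    · have a : k ≤ n := by
        have : 80 * ν < 2 ^ (80 * ν) := Nat.lt_two_pow_self
        nlinarith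
      calc k * n ^ 2 ≤ n * n ^ 2 := Nat.mul_le_mul_right _ a
        _ = 1 * n ^ 3 := by ring
        _ ≤ 18 * C * T := Nat.mul_le_mul (by omega) hT
    refine h ν k _ n (by omega) k1 k2 k3 b2 s T Ω μ var next start out h0 h1 h2 ?_
    obtain ⟨M, hM⟩ : ∃ M, M = 2 ^ ν := ⟨_, rfl⟩
    rw [← hM]
    have hlin := lin_le ν (by omega)
    rw [← hM] at hlin
    have hM3 : M ≤ M ^ 3 := Nat.le_self_pow (by norm_num) M
    have a1 : T + 1 ≤ 2 ^ M ^ 3 := by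
      calc T + 1 ≤ n ^ 3 := not_le.1 hT
        _ ≤ (2 ^ (82 * ν)) ^ 3 := Nat.pow_le_pow_left b3 3
        _ ≤ 2 ^ M ^ 3 := by
          rw [← pow_mul]
          exact Nat.pow_le_pow_right (by norm_num) (by omega)
    have a2 : s ≤ 2 ^ (2 * M ^ 3) := by
      have e1 : (n : ℝ) ^ (1 / 40 : ℝ) ≤ (M : ℝ) ^ 3 := by
        have : (n : ℝ) ≤ ((M : ℝ) ^ 3) ^ 40 := by
          rw [← pow_mul, hM]
          push_cast
          rw [← pow_mul, mul_comm]
          exact_mod_cast b4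
        refine (Real.rpow_le_rpow (by positivity) this (by norm_num)).trans (le_of_eq ?_)
        rw [one_div]
        exact Real.pow_rpow_inv_natCast (by positivity) (by norm_num : (40 : ℕ) ≠ 0)
      have e2 : Real.exp ((M : ℝ) ^ 3) ≤ 2 ^ (2 * M ^ 3) := by
        rw [pow_mul, show (M : ℝ) ^ 3 = ((M ^ 3 : ℕ) : ℝ) * 1 by push_cast; ring, Real.exp_nat_mul]
        exact pow_le_pow_left₀ (Real.exp_pos _).le (by linarith [Real.exp_one_lt_d9]) _
      exact_mod_cast hs.trans ((Real.exp_le_exp.2 e1).trans e2)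
    calc s * (T + 1) ≤ 2 ^ (2 * M ^ 3) * 2 ^ M ^ 3 := Nat.mul_le_mul a2 a1
      _ = 2 ^ (3 * M ^ 3) := by rw [← pow_add]; ring_nf
      _ ≤ 2 ^ M ^ 4 := by
        refine Nat.pow_le_pow_right (by norm_num) ?_
        rw [pow_succ M 3, mul_comm]
        exact Nat.mul_le_mul_left _ (by omega)
  have key' : (k : ℝ) * n ^ 2 ≤ 18 * C * T := by exact_mod_cast key
  have hC' : (0 : ℝ) < C := by exact_mod_cast hC
  rw [one_div, inv_mul_le_iff₀ (by positivity)]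
  calc (n : ℝ) ^ 2 * (Real.log n / Real.log (Real.log n)) ≤ (n : ℝ) ^ 2 * (3200 * k) := by
        gcongr
    _ = 3200 * ((k : ℝ) * n ^ 2) := by ring
    _ ≤ 3200 * (18 * (C : ℝ) * T) := by gcongr
    _ = _ := by ring

end Pool.Agent.MP_6b3410_lc.T26
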