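import Pool.Agent.MP_6b3410_lc.T26.Spec

/-! The numerical inequality for the parameters of the tradeoff. -/

namespace Pool.Agent.MP_6b3410_lc.T26

namespace Num

theorem rat (m A : ℝ) (n : ℕ) (hm : 0 < m) (hA : 0 ≤ A) (hn : 1 ≤ n) (h : 3 * n * A ≤ m) :
    0 ≤ m / (m + 1 - A) ∧ (m / (m + 1 - A)) ^ n ≤ 3 / 2 := by
  have hn' : (1 : ℝ) ≤ n := by exact_mod_cast hn
  have h3 : 3 * A ≤ m := by nlinarith
  have hp : 0 < m + 1 - A := by linarith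
  have h0 : 0 ≤ m / (m + 1 - A) := by positivity
  refine ⟨h0, ?_⟩
  have hd : A / m ≤ 1 / 3 := by
    rw [div_le_div_iff₀ hm (by norm_num)]
    linarith
  have hq : 0 < 1 + -(A / m) := by linarith
  have h1 : m / (m + 1 - A) ≤ 1 / (1 + -(A / m)) := by
    rw [div_le_div_iff₀ hp hq]
    have : m * (1 + -(A / m)) = m - A := by
      field_simp
      ring
    rw [this]
    linarith
  have h2 : 1 + (n : ℝ) * -(A / m) ≤ (1 + -(A / m)) ^ n :=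
    one_add_mul_le_pow (by linarith) n
  have h4 : (n : ℝ) * (A / m) ≤ 1 / 3 := by
    rw [← mul_div_assoc, div_le_div_iff₀ hm (by norm_num)]
    linarith
  calc (m / (m + 1 - A)) ^ n ≤ (1 / (1 + -(A / m))) ^ n := pow_le_pow_left₀ h0 h1 n
    _ = 1 / (1 + -(A / m)) ^ n := by rw [one_div_pow]
    _ ≤ 3 / 2 := by
      rw [div_le_div_iff₀ (pow_pos hq n) (by norm_num)]
      linarith

theorem sec (M ν : ℕ) (hM : M = 2 ^ ν) (h8 : 8 ≤ M) :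
    0 ≤ ((M ^ 10 : ℕ) : ℝ) / (((M ^ 9 / 4 : ℕ) : ℝ) + 1 - (M ^ 8 : ℕ)) ∧
    (((M ^ 10 : ℕ) : ℝ) / (((M ^ 9 / 4 : ℕ) : ℝ) + 1 - (M ^ 8 : ℕ))) ^ M ^ 8 * 2 ^ M ^ 8 /
      2 ^ (M ^ 8 * (5 + ν)) ≤ 1 / 2 ^ M ^ 8 := by
  have hb : M ^ 9 ≤ 4 * (M ^ 9 / 4 + 1) := by omega
  have hb' : (M : ℝ) ^ 9 ≤ 4 * (((M ^ 9 / 4 : ℕ) : ℝ) + 1) := by exact_mod_cast hb
  have h8' : (8 : ℝ) ≤ M := by exact_mod_cast h8
  have hp8 : (0 : ℝ) < (M : ℝ) ^ 8 := by positivity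
  have h9 : 8 * (M : ℝ) ^ 8 ≤ (M : ℝ) ^ 9 := by
    rw [pow_succ (M : ℝ) 8]
    nlinarith
  have hlow : (M : ℝ) ^ 9 / 8 ≤ ((M ^ 9 / 4 : ℕ) : ℝ) + 1 - (M ^ 8 : ℕ) := by
    rw [Nat.cast_pow]
    linarith
  have hp : (0 : ℝ) < (M : ℝ) ^ 9 / 8 := by positivity
  have h0 : 0 ≤ ((M ^ 10 : ℕ) : ℝ) / (((M ^ 9 / 4 : ℕ) : ℝ) + 1 - (M ^ 8 : ℕ)) :=
    div_nonneg (Nat.cast_nonneg _) (hp.le.trans hlow)
  refine ⟨h0, ?_⟩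
  have h1 : ((M ^ 10 : ℕ) : ℝ) / (((M ^ 9 / 4 : ℕ) : ℝ) + 1 - (M ^ 8 : ℕ)) ≤ 2 ^ (3 + ν) := by
    rw [div_le_iff₀ (hp.trans_le hlow)]
    have e : (2 : ℝ) ^ (3 + ν) = 8 * M := by
      rw [hM, pow_add]
      norm_num
    calc ((M ^ 10 : ℕ) : ℝ) = 2 ^ (3 + ν) * ((M : ℝ) ^ 9 / 8) := by
          rw [e, Nat.cast_pow]
          ring
      _ ≤ _ := mul_le_mul_of_nonneg_left hlow (by positivity)
  generalize M ^ 8 = u at h0 h1 ⊢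
  rw [div_le_div_iff₀ (by positivity) (by positivity)]
  calc _ ≤ ((2 : ℝ) ^ (3 + ν)) ^ u * 2 ^ u * 2 ^ u := by gcongr
    _ = _ := by
      rw [← pow_mul, ← pow_add, ← pow_add, one_mul]
      congr 1
      ring

theorem fin (M : ℕ) (h : 16 ≤ M) :
    (2 : ℝ) ^ M ^ 7 * 2 ^ M ^ 7 * 2 ^ M ^ 7 * (3 / 2) ^ M ^ 8 * (2 / 2 ^ M ^ 8) ≤ 1 / 128 := by
  have h1 : ((3 : ℝ) / 4) ^ M ≤ (3 / 4) ^ 16 := pow_le_pow_of_le_one (by norm_num) (by norm_num) h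
  have h2 : (8 : ℝ) * (3 / 4) ^ M ≤ 1 / 2 := by
    refine le_trans (mul_le_mul_of_nonneg_left h1 (by norm_num)) ?_
    norm_num
  have h3 : 8 ≤ M ^ 7 := le_trans (by omega) (Nat.le_self_pow (by norm_num) M)
  have e : M ^ 8 = M * M ^ 7 := by ring
  rw [e]
  generalize M ^ 7 = w at h3 ⊢
  calc (2 : ℝ) ^ w * 2 ^ w * 2 ^ w * (3 / 2) ^ (M * w) * (2 / 2 ^ (M * w))
      = 2 * (8 * (3 / 4) ^ M) ^ w := by
        have e1 : ((3 : ℝ) / 4) ^ (M * w) = (3 / 2) ^ (M * w) / 2 ^ (M * w) := by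
          rw [← div_pow]
          norm_num
        have e2 : (8 : ℝ) ^ w = 2 ^ w * 2 ^ w * 2 ^ w := by
          rw [← mul_pow, ← mul_pow]
          norm_num
        rw [mul_pow, ← pow_mul, e1, e2]
        ring
    _ ≤ 2 * (1 / 2) ^ w := by gcongr
    _ ≤ 2 * (1 / 2) ^ 8 :=
        mul_le_mul_of_nonneg_left (pow_le_pow_of_le_one (by norm_num) (by norm_num) h3) (by norm_num)
    _ = 1 / 128 := by norm_num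

end Num

theorem num : NumStmt := by
  refine ⟨2000, fun ν hν M k q s K hM hk1 hk hq hqM hs hK => ?_⟩
  have hM3 : ν ^ 3 ≤ M := hq.trans hqM
  have hν2 : 2000 * ν ≤ ν ^ 2 := by nlinarith
  have hν3 : 2000 * ν ≤ ν ^ 3 :=
    hν2.trans (Nat.pow_le_pow_right (by omega) (by norm_num))
  have hMν : 2000 * ν ≤ M := hν3.trans hM3
  generalize ha : 200 * k * M ^ 10 / q = a
  have ha1 : a * ν ^ 2 ≤ 200 * M ^ 10 := by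
    have h1 : a * q ≤ 200 * k * M ^ 10 := ha ▸ Nat.div_mul_le_self _ _
    refine Nat.le_of_mul_le_mul_right (c := ν) ?_ (by omega)
    calc a * ν ^ 2 * ν = a * ν ^ 3 := by ring
      _ ≤ a * q := Nat.mul_le_mul_left _ hq
      _ ≤ 200 * k * M ^ 10 := h1
      _ ≤ 200 * ν * M ^ 10 := by gcongr
      _ = _ := by ring
  have h1 : 9 * (5 + ν) * a ≤ M ^ 10 := by
    refine Nat.le_of_mul_le_mul_left (c := 200) ?_ (by norm_num)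
    calc 200 * (9 * (5 + ν) * a) = a * (9000 + 1800 * ν) := by ring
      _ ≤ a * ν ^ 2 := Nat.mul_le_mul_left _ (by omega)
      _ ≤ _ := ha1
  have h2 : 9 * (5 + ν) * (M ^ 8 * (5 + ν)) ≤ M ^ 10 := by
    calc 9 * (5 + ν) * (M ^ 8 * (5 + ν)) = M ^ 8 * (3 * (5 + ν)) ^ 2 := by ring
      _ ≤ M ^ 8 * M ^ 2 := Nat.mul_le_mul_left _ (Nat.pow_le_pow_left (by omega) 2)
      _ = _ := by ring
  have h3 : 9 * (5 + ν) ≤ M ^ 10 := le_trans (by omega) (Nat.le_self_pow (by norm_num) M)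
  have key : 3 * (5 + ν) * (a + 1 + M ^ 8 * (5 + ν)) ≤ M ^ 10 := by
    have : 3 * (3 * (5 + ν) * (a + 1 + M ^ 8 * (5 + ν))) =
        9 * (5 + ν) * a + 9 * (5 + ν) + 9 * (5 + ν) * (M ^ 8 * (5 + ν)) := by ring
    omega
  refine ⟨le_trans (Nat.le_mul_of_pos_left _ (by omega)) key, ?_⟩
  have hMp : 0 < M ^ 10 := pow_pos (by omega) _
  obtain ⟨r0, r1⟩ := Num.rat ((M ^ 10 : ℕ) : ℝ) ((a + 1 + M ^ 8 * (5 + ν) : ℕ) : ℝ) (5 + ν)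
    (by exact_mod_cast hMp) (Nat.cast_nonneg _) (by omega) (by exact_mod_cast key)
  obtain ⟨s0, s1⟩ := Num.sec M ν hM (by omega)
  have f := Num.fin M (by omega)
  have b1 : (s : ℝ) ^ (k * M ^ 2 + 1) ≤ 2 ^ M ^ 7 := by
    have e : M ^ 4 * (k * M ^ 2 + 1) ≤ M ^ 7 := by
      have : 1 ≤ M ^ 2 := Nat.one_le_pow _ _ (by omega)
      calc M ^ 4 * (k * M ^ 2 + 1) ≤ M ^ 4 * (k * M ^ 2 + M ^ 2) := by gcongr
        _ = M ^ 6 * (k + 1) := by ring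
        _ ≤ M ^ 6 * M := Nat.mul_le_mul_left _ (by omega)
        _ = _ := by ring
    have : s ^ (k * M ^ 2 + 1) ≤ 2 ^ M ^ 7 :=
      calc s ^ (k * M ^ 2 + 1) ≤ (2 ^ M ^ 4) ^ (k * M ^ 2 + 1) := Nat.pow_le_pow_left hs _
        _ = 2 ^ (M ^ 4 * (k * M ^ 2 + 1)) := by rw [← pow_mul]
        _ ≤ _ := Nat.pow_le_pow_right (by norm_num) e
    exact_mod_cast this
  have b2 : (((M ^ 10 : ℕ) : ℝ) + 1) ^ 2 ≤ 2 ^ M ^ 7 := by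
    have e : (1 + ν * 10) * 2 ≤ M ^ 7 := le_trans (by omega) (Nat.le_self_pow (by norm_num) M)
    have e2 : 2 * M ^ 10 = 2 ^ (1 + ν * 10) := by rw [pow_add, pow_mul, ← hM, pow_one]
    have : (M ^ 10 + 1) ^ 2 ≤ 2 ^ M ^ 7 :=
      calc (M ^ 10 + 1) ^ 2 ≤ (2 * M ^ 10) ^ 2 := Nat.pow_le_pow_left (by omega) 2
        _ = 2 ^ ((1 + ν * 10) * 2) := by rw [e2, ← pow_mul]
        _ ≤ _ := Nat.pow_le_pow_right (by norm_num) e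
    exact_mod_cast this
  have b3 : (K : ℝ) ≤ 2 ^ M ^ 7 := by exact_mod_cast hK
  have e1 : ((M ^ 10 : ℕ) : ℝ) + 1 - ((a + 1 : ℕ) : ℝ) - ((M ^ 8 * (5 + ν) : ℕ) : ℝ) =
      ((M ^ 10 : ℕ) : ℝ) + 1 - ((a + 1 + M ^ 8 * (5 + ν) : ℕ) : ℝ) := by
    rw [Nat.cast_add (a + 1)]
    ring
  unfold bnd
  rw [e1]
  generalize ((M ^ 10 : ℕ) : ℝ) / (((M ^ 10 : ℕ) : ℝ) + 1 - ((a + 1 + M ^ 8 * (5 + ν) : ℕ) : ℝ)) = r
    at r0 r1 ⊢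
  generalize ((M ^ 10 : ℕ) : ℝ) / (((M ^ 9 / 4 : ℕ) : ℝ) + 1 - (M ^ 8 : ℕ)) = t at s0 s1 ⊢
  have b4 : r ^ (M ^ 8 * (5 + ν)) ≤ (3 / 2) ^ M ^ 8 := by
    rw [mul_comm, pow_mul]
    exact pow_le_pow_left₀ (by positivity) r1 _
  have b5 : 1 / 2 ^ M ^ 8 + t ^ M ^ 8 * 2 ^ M ^ 8 / 2 ^ (M ^ 8 * (5 + ν)) ≤ 2 / 2 ^ M ^ 8 := by
    have : (2 : ℝ) / 2 ^ M ^ 8 = 1 / 2 ^ M ^ 8 + 1 / 2 ^ M ^ 8 := by ring
    rw [this]
    linarith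
  have hp : (0 : ℝ) < 2 ^ M ^ 10 := by positivity
  have b6 : (s : ℝ) ^ (k * M ^ 2 + 1) * (((M ^ 10 : ℕ) : ℝ) + 1) ^ 2 * K * r ^ (M ^ 8 * (5 + ν)) *
      (1 / 2 ^ M ^ 8 + t ^ M ^ 8 * 2 ^ M ^ 8 / 2 ^ (M ^ 8 * (5 + ν))) ≤ 1 / 128 := by
    refine le_trans ?_ f
    gcongr
  generalize 1 / 2 ^ M ^ 8 + t ^ M ^ 8 * 2 ^ M ^ 8 / 2 ^ (M ^ 8 * (5 + ν)) = w at b6 ⊢
  generalize (2 : ℝ) ^ M ^ 10 = z at hp ⊢
  have e2 : (s : ℝ) ^ (k * M ^ 2 + 1) * ((((M ^ 10 : ℕ) : ℝ) + 1) ^ 2 * K * z *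
      r ^ (M ^ 8 * (5 + ν)) * w) = z * ((s : ℝ) ^ (k * M ^ 2 + 1) * (((M ^ 10 : ℕ) : ℝ) + 1) ^ 2 *
      K * r ^ (M ^ 8 * (5 + ν)) * w) := by ring
  rw [e2]
  have := mul_le_mul_of_nonneg_left b6 hp.le
  linarith

end Pool.Agent.MP_6b3410_lc.T26
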