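import Pool.Agent.MP_6b3410_lc.T26.Spec

/-!
The weight of the inputs that reach a set of states of a branching program.
-/

namespace Pool.Agent.MP_6b3410_lc.T26

open Classical Finset

namespace Prog

variable {m : ℕ} {S : Type} (var : S → Fin m) (next : S → Bool → S)

theorem run_succ (x : Fin m → Bool) (t : ℕ) (v : S) :
    run var next x (t + 1) v = next (run var next x t v) (x (var (run var next x t v))) :=
  Function.iterate_succ_apply' _ _ _

theorem run_add (x : Fin m → Bool) (s t : ℕ) (v : S) :
    run var next x (s + t) v = run var next x t (run var next x s v) := by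
  rw [add_comm]
  exact Function.iterate_add_apply _ _ _ _

/-- the variables read in `l` steps -/
def rd (l : ℕ) (v : S) (x : Fin m → Bool) : Finset (Fin m) :=
  (range l).image fun t => var (run var next x t v)

theorem card_rd (l : ℕ) (v : S) (x : Fin m → Bool) : (rd var next l v x).card ≤ l :=
  card_image_le.trans (card_range l).le

variable {var next}

theorem agree {l : ℕ} {v : S} {x y : Fin m → Bool} (h : ∀ i ∈ rd var next l v x, y i = x i) :
    ∀ t ≤ l, run var next y t v = run var next x t v := by
  intro t
  induction t with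
  | zero => exact fun _ => rfl
  | succ t ih =>
    intro ht
    rw [run_succ, run_succ, ih (by omega),
      h _ (mem_image_of_mem _ (mem_range.2 (by omega : t < l)))]

theorem rd_eq {l : ℕ} {v : S} {x y : Fin m → Bool} (h : ∀ i ∈ rd var next l v x, y i = x i) :
    rd var next l v y = rd var next l v x :=
  image_congr fun t ht => by
    simp only [agree h t (mem_range.1 ht).le]

theorem det {r : ℕ} (l : ℕ) (A : Finset (Fin r)) (τ : Fin r → S) :
    Det fun y => A.biUnion fun j => rd var next l (τ j) y := fun _ _ h =>
  biUnion_congr rfl fun j hj => rd_eq fun i hi => h i (mem_biUnion.2 ⟨j, hj, hi⟩)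

theorem bnd_nonneg {K a b u v : ℕ} (h1 : a + v ≤ m) (h2 : u ≤ b) : 0 ≤ bnd m K a b u v := by
  have e1 : (0 : ℝ) < (m : ℝ) + 1 - a - v := by
    have : ((a + v : ℕ) : ℝ) ≤ m := Nat.cast_le.2 h1
    push_cast at this
    linarith
  have e2 : (0 : ℝ) < (b : ℝ) + 1 - u := by
    have : (u : ℝ) ≤ b := Nat.cast_le.2 h2
    linarith
  unfold bnd
  positivity

end Prog

open Prog in
theorem prog : TwoStmt → ColStmt → ProgStmt := by
  intro h2 hc m K r l k q a b u v s w S W var next v₀ P hw hN hW hs hq hk hrl hl ha hb hav hub
  let T : (Fin m → Bool) → Fin r → Finset (Fin m) := fun x j =>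
    rd var next l (run var next x (j * l) v₀) x
  let good : (Fin r → Fin q) → (Fin m → Bool) → Prop := fun χ x =>
    q * ((univ.filter fun j => (χ j).val = 0).biUnion (T x)).card ≤ 200 * k * m ∧
      m ≤ 4 * q ^ (2 * k) * ((univ.filter fun j => (χ j).val ≠ 0).biUnion (T x))ᶜ.card
  obtain ⟨χ, hχ⟩ : ∃ χ, 100 * (univ.filter fun x => ¬good χ x).card ≤ 2 ^ m := by
    haveI : Nonempty (Fin q) := ⟨⟨0, hq⟩⟩
    have e1 : ∑ χ, (univ.filter fun x => ¬good χ x).card =
        ∑ x, (univ.filter fun χ => ¬good χ x).card := by
      simp only [card_filter]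
      exact sum_comm
    have e2 : ∑ χ, 100 * (univ.filter fun x => ¬good χ x).card ≤ ∑ _χ : Fin r → Fin q, 2 ^ m := by
      rw [← mul_sum, e1, mul_sum]
      refine (sum_le_sum (g := fun _ => q ^ r) fun x _ => ?_).trans ?_
      · have := hc m r l k q (T x) hq hk (fun j => card_rd _ _ _ _ _) hrl hl
        convert this
      · simp [mul_comm]
    obtain ⟨χ, -, h⟩ := exists_le_of_sum_le univ_nonempty e2
    exact ⟨χ, h⟩
  have hB := bnd_nonneg (K := K) hav hub
  rw [← sum_filter_add_sum_filter_not _ (fun x => ¬good χ x)]
  refine add_le_add ?_ ?_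
  · refine (sum_le_card_nsmul _ _ 1 fun x _ => hw x).trans ?_
    rw [nsmul_eq_mul, mul_one, le_div_iff₀ (by norm_num)]
    have e1 : ((univ.filter fun x => P (run var next x (r * l) v₀)).filter
        fun x => ¬good χ x).card ≤ (univ.filter fun x => ¬good χ x).card :=
      card_le_card (filter_subset_filter _ (subset_univ _))
    have e2 : ((univ.filter fun x => P (run var next x (r * l) v₀)).filter
        fun x => ¬good χ x).card * 100 ≤ 2 ^ m := by omega
    exact_mod_cast e2
  · rw [← sum_fiberwise_of_maps_to (t := Fintype.piFinset fun _ : Fin (r + 1) => W)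
      (g := fun x (j : Fin (r + 1)) => run var next x (j * l) v₀)
      fun x _ => Fintype.mem_piFinset.2 fun j => hW x _]
    refine (sum_le_card_nsmul _ _ (bnd m K a b u v) fun τ _ => ?_).trans ?_
    · have hT : ∀ x, (fun j : Fin (r + 1) => run var next x (j * l) v₀) = τ →
          T x = fun j => rd var next l (τ j.castSucc) x := by
        rintro x rfl
        rfl
      refine h2 m K a b u v w
        (fun y => (univ.filter fun j => (χ j).val = 0).biUnion
          fun j => rd var next l (τ j.castSucc) y)
        (fun y => (univ.filter fun j => (χ j).val ≠ 0).biUnion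
          fun j => rd var next l (τ j.castSucc) y) _ hw hN (det _ _ _) (det _ _ _) ?_ ?_ hav hub
      · intro x₁ hx₁ x₂ hx₂ y hy₁ hy₂
        simp only [mem_filter, mem_univ, true_and, not_not] at hx₁ hx₂ ⊢
        have step : ∀ x, (fun j : Fin (r + 1) => run var next x (j * l) v₀) = τ → ∀ j : Fin r,
            (∀ i ∈ rd var next l (τ j.castSucc) x, y i = x i) →
            run var next y l (τ j.castSucc) = τ j.succ := by
          rintro x rfl j h
          rw [agree h l le_rfl]
          simp only [Fin.val_succ, Fin.val_castSucc, add_mul, one_mul, run_add]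
        have tr : ∀ j : Fin (r + 1), run var next y (j * l) v₀ = τ j := by
          intro j
          induction j using Fin.induction with
          | zero => simp [← hx₁.2, run]
          | succ j ih =>
            rw [Fin.val_succ, add_mul, one_mul, run_add, ← Fin.val_castSucc, ih]
            by_cases h0 : (χ j).val = 0
            · exact step x₁ hx₁.2 j fun i hi =>
                hy₁ i (mem_biUnion.2 ⟨j, mem_filter.2 ⟨mem_univ _, h0⟩, hi⟩)
            · exact step x₂ hx₂.2 j fun i hi =>
                hy₂ i (mem_biUnion.2 ⟨j, mem_filter.2 ⟨mem_univ _, h0⟩, hi⟩)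
        have tr' : (fun j : Fin (r + 1) => run var next y (j * l) v₀) = τ := funext tr
        refine ⟨⟨?_, ?_, ?_⟩, tr'⟩
        · have e1 := tr (Fin.last r)
          have e2 := congrFun hx₁.2 (Fin.last r)
          rw [Fin.val_last] at e1 e2
          rw [e1, ← e2]
          exact hx₁.1.1
        · have e1 := hx₁.1.2.1
          rw [hT x₁ hx₁.2] at e1
          have e2 := det l _ (fun j : Fin r => τ j.castSucc) x₁ y hy₁
          beta_reduce at e2
          rw [hT y tr', e2]
          exact e1
        · have e1 := hx₂.1.2.2
          rw [hT x₂ hx₂.2] at e1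
          have e2 := det l _ (fun j : Fin r => τ j.castSucc) x₂ y hy₂
          beta_reduce at e2
          rw [hT y tr', e2]
          exact e1
      · intro x hx
        simp only [mem_filter, mem_univ, true_and, not_not] at hx
        obtain ⟨⟨-, e1, e2⟩, e3⟩ := hx
        rw [hT x e3] at e1 e2
        exact ⟨Nat.le_of_mul_le_mul_left (e1.trans ha) hq,
          Nat.le_of_mul_le_mul_left (hb.trans e2) (by positivity)⟩
    · rw [nsmul_eq_mul, Fintype.card_piFinset, prod_const, card_univ, Fintype.card_fin]
      refine mul_le_mul_of_nonneg_right ?_ hB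
      exact_mod_cast Nat.pow_le_pow_left hs _

end Pool.Agent.MP_6b3410_lc.T26
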