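import Mathlib
import Pool.Agent.MP_6b3410_lc.T26.Spec

/-!
A dense bipartite graph on the cube that is a disjoint union of large induced matchings.
-/

namespace Pool.Agent.MP_6b3410_lc.T26

open Finset

namespace RS

/-- a large set contains many pairwise unrelated points -/
theorem greedy1 {α : Type} (R : α → α → Prop) [DecidableRel R] (hs : ∀ a b, R a b → R b a)
    (Δ : ℕ) : ∀ (q : ℕ) (S : Finset α), (∀ a ∈ S, (S.filter fun b => R a b).card ≤ Δ) →
    q * Δ < S.card → ∃ g : Fin q → α, (∀ i, g i ∈ S) ∧ ∀ i i', R (g i) (g i') → i = i'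
  | 0, _, _, _ => ⟨Fin.elim0, fun i => i.elim0, fun i => i.elim0⟩
  | q + 1, S, hS, hq => by
    obtain ⟨a, ha⟩ : S.Nonempty := card_pos.1 (by omega)
    have h1 := card_filter_add_card_filter_not (s := S) fun b => R a b
    have h2 := hS a ha
    obtain ⟨g, hg, hg'⟩ := greedy1 R hs Δ q (S.filter fun b => ¬R a b)
      (fun b hb => le_trans (card_le_card (filter_subset_filter _ (filter_subset _ _)))
        (hS b (mem_filter.1 hb).1)) (by rw [add_mul] at hq; omega)
    refine ⟨Fin.cons a g, fun i => ?_, fun i i' => ?_⟩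
    · refine Fin.cases ?_ (fun i => ?_) i
      · simpa using ha
      · simpa using (mem_filter.1 (hg i)).1
    · refine Fin.cases ?_ (fun i => ?_) i <;> refine Fin.cases ?_ (fun i' => ?_) i'
      · exact fun _ => rfl
      · intro h
        exact absurd (by simpa using h) (mem_filter.1 (hg i')).2
      · intro h
        exact absurd (hs _ _ (by simpa using h)) (mem_filter.1 (hg i)).2
      · intro h
        rw [hg' i i' (by simpa using h)]

/-- good tuples are removed one after the other -/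
theorem greedy2 {α : Type} [DecidableEq α] (q B : ℕ) (hq : 1 ≤ q) (P : (Fin q → α) → Prop) :
    ∀ (n : ℕ) (E : Finset α), E.card ≤ n → (∀ E' ⊆ E, B < E'.card →
      ∃ g : Fin q → α, Function.Injective g ∧ (∀ i, g i ∈ E') ∧ P g) →
    ∃ (Γ : ℕ) (f : Fin Γ → Fin q → α), (∀ γ γ' i i', f γ i = f γ' i' → γ = γ' ∧ i = i') ∧
      (∀ γ i, f γ i ∈ E) ∧ (∀ γ, P (f γ)) ∧ E.card ≤ Γ * q + B := by
  intro n
  induction n with
  | zero =>
    intro E hE _
    exact ⟨0, Fin.elim0, fun γ => γ.elim0, fun γ => γ.elim0, fun γ => γ.elim0, by omega⟩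
  | succ n ih =>
    intro E hE h
    by_cases hB : B < E.card
    · obtain ⟨g, g1, g2, g3⟩ := h E Subset.rfl hB
      have hsub : univ.image g ⊆ E := by
        intro a ha
        obtain ⟨i, -, rfl⟩ := mem_image.1 ha
        exact g2 i
      have hc : (univ.image g).card = q := by
        rw [card_image_of_injective _ g1, card_univ, Fintype.card_fin]
      have h1 := card_sdiff_add_card_eq_card hsub
      obtain ⟨Γ, f, f1, f2, f3, f4⟩ := ih (E \ univ.image g) (by omega)
        fun E' hE' => h E' (hE'.trans sdiff_subset)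
      have hn : ∀ γ i i', f γ i ≠ g i' := fun γ i i' e =>
        (mem_sdiff.1 (f2 γ i)).2 (mem_image.2 ⟨i', mem_univ _, e.symm⟩)
      refine ⟨Γ + 1, Fin.cons g f, fun γ γ' => ?_, fun γ => ?_, fun γ => ?_, ?_⟩
      · refine Fin.cases ?_ (fun γ => ?_) γ <;> refine Fin.cases ?_ (fun γ' => ?_) γ'
        · intro i i' e
          exact ⟨rfl, g1 (by simpa using e)⟩
        · intro i i' e
          exact absurd (by simpa using e.symm) (hn γ' i' i)
        · intro i i' e
          exact absurd (by simpa using e) (hn γ i i')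
        · intro i i' e
          obtain ⟨e1, e2⟩ := f1 γ γ' i i' (by simpa using e)
          exact ⟨by rw [e1], e2⟩
      · refine Fin.cases ?_ (fun γ => ?_) γ
        · simpa using g2
        · intro i
          simpa using (mem_sdiff.1 (f2 γ i)).1
      · refine Fin.cases ?_ (fun γ => ?_) γ
        · simpa using g3
        · simpa using f3 γ
      · rw [add_mul]
        omega
    · exact ⟨0, Fin.elim0, fun γ => γ.elim0, fun γ => γ.elim0, fun γ => γ.elim0, by omega⟩

/-- twice the distance minus the dimension -/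
def W {d : ℕ} (x y : Fin d → Bool) : ℤ := ∑ i, if x i = y i then -1 else 1

theorem sum_sq : ∀ (d : ℕ) (x : Fin d → Bool), ∑ y, W x y ^ 2 = d * 2 ^ d
  | 0, x => by simp [W]
  | d + 1, x => by
    rw [← (Fin.consEquiv fun _ => Bool).sum_comp, Fintype.sum_prod_type, Fintype.sum_bool,
      ← sum_add_distrib]
    have h : ∀ y : Fin d → Bool, W x (Fin.consEquiv (fun _ => Bool) (true, y)) ^ 2 +
        W x (Fin.consEquiv (fun _ => Bool) (false, y)) ^ 2 = 2 * W (Fin.tail x) y ^ 2 + 2 := by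
      intro y
      have e : ∀ b, W x (Fin.consEquiv (fun _ => Bool) (b, y)) =
          (if x 0 = b then -1 else 1) + W (Fin.tail x) y := fun b => by
        rw [W, Fin.sum_univ_succ]
        rfl
      rw [e, e]
      cases x 0 <;> simp <;> ring
    rw [sum_congr rfl fun y _ => h y, sum_add_distrib, ← mul_sum, sum_sq d]
    simp
    ring

/-- the edges -/
def G (d : ℕ) : Finset ((Fin d → Bool) × (Fin d → Bool)) :=
  univ.filter fun p => W p.1 p.2 ^ 2 ≤ 4 * d

theorem card_G (d : ℕ) : 3 * 4 ^ d ≤ 4 * (G d).card := by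
  have h4 : (4 : ℤ) ^ d = 2 ^ d * 2 ^ d := by rw [← mul_pow]; norm_num
  have h1 : ∑ p : (Fin d → Bool) × (Fin d → Bool), W p.1 p.2 ^ 2 = d * 4 ^ d := by
    rw [Fintype.sum_prod_type, sum_congr rfl fun x _ => sum_sq d x, h4]
    simp
    ring
  have h2 := card_filter_add_card_filter_not (s := univ)
    fun p : (Fin d → Bool) × (Fin d → Bool) => W p.1 p.2 ^ 2 ≤ 4 * d
  have h3 : (univ : Finset ((Fin d → Bool) × (Fin d → Bool))).card = 4 ^ d := by
    simp [← mul_pow]
  have h5 := card_nsmul_le_sum (univ.filter fun p : (Fin d → Bool) × (Fin d → Bool) =>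
    ¬W p.1 p.2 ^ 2 ≤ 4 * d) (fun p => W p.1 p.2 ^ 2) (4 * d + 1) fun p hp => by
      have := (mem_filter.1 hp).2
      omega
  have h6 := h5.trans (sum_le_sum_of_subset_of_nonneg (filter_subset _ _)
    fun p _ _ => sq_nonneg _)
  rw [h1, nsmul_eq_mul] at h6
  rw [h3] at h2
  change (G d).card + _ = _ at h2
  generalize (univ.filter fun p : (Fin d → Bool) × (Fin d → Bool) =>
    ¬W p.1 p.2 ^ 2 ≤ 4 * d).card = b at h2 h6
  have h7 : (4 : ℤ) * b ≤ 4 ^ d := by
    have hp : (0 : ℤ) < 4 * d + 1 := by positivity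
    have hp' : (0 : ℤ) ≤ 4 ^ d := by positivity
    refine le_of_mul_le_mul_right ?_ hp
    nlinarith
  have h8 : 4 * b ≤ 4 ^ d := by exact_mod_cast h7
  omega

theorem ball (d t : ℕ) (x : Fin d → Bool) :
    (univ.filter fun x' => hammingDist x x' ≤ t).card * 16 ^ d ≤ 17 ^ d * 16 ^ t := by
  have h1 : ∑ x' : Fin d → Bool, ∏ i, (if x i = x' i then 16 else 1) = 17 ^ d := by
    rw [← Fintype.piFinset_univ,
      ← prod_univ_sum (fun _ => univ) fun i b => if x i = b then 16 else 1]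
    have : ∀ i, ∑ b, (if x i = b then 16 else 1) = 17 := fun i => by cases x i <;> simp
    simp only [this]
    simp
  rw [← h1, sum_mul]
  refine le_trans ?_ (sum_le_sum_of_subset (filter_subset (fun x' => hammingDist x x' ≤ t) _))
  refine card_nsmul_le_sum _ _ _ fun x' hx => ?_
  have h2 := (mem_filter.1 hx).2
  have h3 := card_filter_add_card_filter_not (s := univ) fun i => x i = x' i
  rw [prod_ite, prod_const, prod_const_one, mul_one, ← pow_add]
  refine Nat.pow_le_pow_right (by norm_num) ?_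
  rw [card_univ, Fintype.card_fin] at h3
  change (univ.filter fun i => ¬x i = x' i).card ≤ t at h2
  omega

/-- the class of an edge -/
def cls {d : ℕ} (p : (Fin d → Bool) × (Fin d → Bool)) : Fin d → Option Bool :=
  fun i => if p.1 i = p.2 i then some (p.1 i) else none

theorem W_cls {d : ℕ} {p p' : (Fin d → Bool) × (Fin d → Bool)} (h : cls p = cls p') :
    W p.1 p'.2 = W p.1 p.2 - 2 * hammingDist p.1 p'.1 := by
  unfold hammingDist
  rw [card_filter]
  push_cast
  rw [W, W, mul_sum, ← sum_sub_distrib]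
  refine sum_congr rfl fun i _ => ?_
  have := congrFun h i
  unfold cls at this
  revert this
  cases p.1 i <;> cases p.2 i <;> cases p'.1 i <;> cases p'.2 i <;> simp

theorem eq_cls {d : ℕ} {p p' : (Fin d → Bool) × (Fin d → Bool)} (h : cls p = cls p')
    (h' : p.1 = p'.1) : p = p' := by
  refine Prod.ext h' (funext fun i => ?_)
  have := congrFun h i
  unfold cls at this
  rw [← h'] at this
  revert this
  cases p.1 i <;> cases p.2 i <;> cases p'.2 i <;> simp

theorem num (d t q Δ : ℕ) (hd : 20000 ≤ d) (ht : t * t ≤ 4 * d) (hq : q ^ 4 ≤ 2 ^ d)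
    (hΔ : Δ * 16 ^ d ≤ 17 ^ d * 16 ^ t) : 4 * (3 ^ d * (q * Δ)) ≤ 4 ^ d := by
  have h1 : 4 * (8 + 16 * t) ≤ d := by
    by_contra h
    have : t ≤ 256 := by nlinarith
    omega
  obtain ⟨r, hr⟩ := Nat.exists_eq_add_of_le h1
  have h2 : 2 ^ (8 + 16 * t) * 13530402 ^ d ≤ 16777216 ^ d := by
    generalize 8 + 16 * t = e at hr
    rw [hr, pow_add, pow_add, pow_mul, pow_mul, ← mul_assoc, ← mul_pow]
    exact Nat.mul_le_mul (Nat.pow_le_pow_left (by norm_num) _)
      (Nat.pow_le_pow_left (by norm_num) _)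
  have e1 : 13530402 ^ d = (3 ^ d) ^ 4 * 2 ^ d * (17 ^ d) ^ 4 := by
    rw [← pow_mul, ← pow_mul, mul_comm d 4, pow_mul, pow_mul, ← mul_pow, ← mul_pow]
    norm_num
  have e2 : 16777216 ^ d = (4 ^ d) ^ 4 * (16 ^ d) ^ 4 := by
    rw [← pow_mul, ← pow_mul, mul_comm d 4, pow_mul, pow_mul, ← mul_pow]
    norm_num
  have e3 : 2 ^ (8 + 16 * t) = 4 ^ 4 * (16 ^ t) ^ 4 := by
    rw [pow_add, ← pow_mul, mul_comm t 4, pow_mul, pow_mul]
    norm_num
  rw [e1, e2, e3] at h2
  refine le_of_pow_le_pow_left₀ (n := 4) (by norm_num) (Nat.zero_le _) ?_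
  refine Nat.le_of_mul_le_mul_right (le_trans ?_ h2) (by positivity)
  calc (4 * (3 ^ d * (q * Δ))) ^ 4 * (16 ^ d) ^ 4
      = 4 ^ 4 * (3 ^ d) ^ 4 * (q ^ 4 * (Δ * 16 ^ d) ^ 4) := by ring
    _ ≤ 4 ^ 4 * (3 ^ d) ^ 4 * (2 ^ d * (17 ^ d * 16 ^ t) ^ 4) :=
      Nat.mul_le_mul_left _ (Nat.mul_le_mul hq (Nat.pow_le_pow_left hΔ _))
    _ = _ := by ring

end RS

open RS in
theorem rs : RSStmt := by
  refine ⟨20000, fun d hd q hq hq' => ?_⟩
  have e : (Fin d → Bool) ≃ Fin (2 ^ d) := Fintype.equivFinOfCardEq (by simp)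
  obtain ⟨t, ht, ht'⟩ : ∃ t, t * t ≤ 4 * d ∧ ∀ k, k * k ≤ 4 * d → k ≤ t :=
    ⟨Nat.sqrt (4 * d), Nat.sqrt_le _, fun k hk => Nat.le_sqrt.2 hk⟩
  obtain ⟨Δ, hΔ, hΔ'⟩ : ∃ Δ, Δ * 16 ^ d ≤ 17 ^ d * 16 ^ t ∧
      ∀ x : Fin d → Bool, (univ.filter fun x' => hammingDist x x' ≤ t).card ≤ Δ :=
    ⟨17 ^ d * 16 ^ t / 16 ^ d, Nat.div_mul_le_self _ _,
      fun x => (Nat.le_div_iff_mul_le (by positivity)).2 (ball d t x)⟩
  obtain ⟨Γ, f, f1, f2, f3, f4⟩ := greedy2 q (3 ^ d * (q * Δ)) hq
    (fun g => ∀ i i', W (g i).1 (g i').2 ^ 2 ≤ 4 * d → i = i') _ (G d) le_rfl (by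
      intro E hE hB
      obtain ⟨z, -, hz⟩ := exists_lt_card_fiber_of_mul_lt_card_of_maps_to (s := E) (t := univ)
        (f := cls) (n := q * Δ) (fun _ _ => mem_univ _) (by simpa using hB)
      obtain ⟨g, g1, g2⟩ := greedy1 (fun p p' : (Fin d → Bool) × (Fin d → Bool) =>
        hammingDist p.1 p'.1 ≤ t) (fun a b h => by rwa [hammingDist_comm]) Δ q _ (by
          intro a _
          refine le_trans (card_le_card_of_injOn Prod.fst (fun b hb => ?_) fun b hb b' hb' h => ?_)
            (hΔ' a.1)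
          · exact mem_coe.2 (mem_filter.2 ⟨mem_univ _, (mem_filter.1 (mem_coe.1 hb)).2⟩)
          · exact eq_cls ((mem_filter.1 (mem_filter.1 (mem_coe.1 hb)).1).2.trans
              (mem_filter.1 (mem_filter.1 (mem_coe.1 hb')).1).2.symm) h) hz
      refine ⟨g, fun i i' h => g2 i i' (by simp [h]), fun i => (mem_filter.1 (g1 i)).1,
        fun i i' h => g2 i i' (ht' _ ?_)⟩
      have h1 := W_cls ((mem_filter.1 (g1 i)).2.trans (mem_filter.1 (g1 i')).2.symm)
      have h2 := (mem_filter.1 (hE (mem_filter.1 (g1 i)).1)).2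
      have h3 : (hammingDist (g i).1 (g i').1 : ℤ) * hammingDist (g i).1 (g i').1 ≤ 4 * d := by
        rw [h1] at h
        nlinarith [sq_nonneg (W (g i).1 (g i).2 - hammingDist (g i).1 (g i').1)]
      exact_mod_cast h3)
  have h1 := card_G d
  have h2 := num d t q Δ hd ht hq' hΔ
  refine ⟨Γ, fun γ i => e (f γ i).1, fun γ i => e (f γ i).2, by omega,
    fun γ γ' i i' a b => f1 γ γ' i i' (Prod.ext (e.injective a) (e.injective b)),
    fun γ γ' i i' j a b => f3 γ i i' ?_⟩
  rw [e.injective a, e.injective b]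
  exact (mem_filter.1 (f2 γ' j)).2

end Pool.Agent.MP_6b3410_lc.T26
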