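import Pool.Agent.MP_6b3410_lc.T26.Spec

/-!
Unbalanced embedded rectangles for two trees.
-/

namespace Pool.Agent.MP_6b3410_lc.T26

open Classical Finset

namespace Two

variable {m : ℕ}

/-- the points of `X` that agree with `x` outside `F` -/
noncomputable def fib (X : Finset (Fin m → Bool)) (F : Finset (Fin m)) (x : Fin m → Bool) :
    Finset (Fin m → Bool) :=
  X.filter fun y => ∀ i, i ∉ F → y i = x i

/-- erase the coordinates in `F` -/
def er (F : Finset (Fin m)) (x : Fin m → Bool) : Fin m → Bool :=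
  fun i => if i ∈ F then false else x i

lemma er_eq {F : Finset (Fin m)} {x y : Fin m → Bool} :
    er F y = er F x ↔ ∀ i, i ∉ F → y i = x i := by
  constructor
  · intro h i hi
    have := congrFun h i
    simpa [er, hi] using this
  · intro h
    funext i
    by_cases hi : i ∈ F
    · simp [er, hi]
    · simp [er, hi, h i hi]

lemma card_cyl (F : Finset (Fin m)) (x : Fin m → Bool) :
    (univ.filter fun y : Fin m → Bool => ∀ i, i ∉ F → y i = x i).card = 2 ^ F.card := by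
  have e : (univ.filter fun y : Fin m → Bool => ∀ i, i ∉ F → y i = x i) =
      Fintype.piFinset fun i => if i ∈ F then univ else {x i} := by
    ext y
    simp only [mem_filter, mem_univ, true_and, Fintype.mem_piFinset]
    refine forall_congr' fun i => ?_
    by_cases hi : i ∈ F <;> simp [hi]
  rw [e, Fintype.card_piFinset]
  have : ∀ i, (if i ∈ F then (univ : Finset Bool) else {x i}).card = if i ∈ F then 2 else 1 := by
    intro i
    split_ifs <;> simp
  simp only [this]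
  rw [prod_ite_mem]
  simp

lemma small_le (X Y : Finset (Fin m → Bool)) (F : Finset (Fin m)) (K : ℕ) (hXY : X ⊆ Y)
    (hY : ∀ x ∈ Y, ∀ y : Fin m → Bool, (∀ i, i ∉ F → y i = x i) → y ∈ Y) :
    (X.filter fun x => (fib X F x).card < K).card * 2 ^ F.card ≤ K * Y.card := by
  have h1 := card_le_mul_card_image (f := er F) (X.filter fun x => (fib X F x).card < K) K (by
    intro b hb
    obtain ⟨x, hx, rfl⟩ := mem_image.1 hb
    refine le_trans (card_le_card fun y hy => ?_) (mem_filter.1 hx).2.le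
    obtain ⟨h1, h2⟩ := mem_filter.1 hy
    exact mem_filter.2 ⟨(mem_filter.1 h1).1, er_eq.1 h2⟩)
  have h2 := mul_card_image_le_card (f := er F) Y (2 ^ F.card) (by
    intro b hb
    obtain ⟨x, hx, rfl⟩ := mem_image.1 hb
    rw [← card_cyl F x]
    refine card_le_card fun y hy => ?_
    have := (mem_filter.1 hy).2
    exact mem_filter.2 ⟨hY x hx y this, er_eq.2 this⟩)
  have h3 : ((X.filter fun x => (fib X F x).card < K).image (er F)).card ≤
      (Y.image (er F)).card :=
    card_le_card (image_subset_image ((filter_subset _ _).trans hXY))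
  calc _ ≤ K * (Y.image (er F)).card * 2 ^ F.card :=
        Nat.mul_le_mul_right _ (h1.trans (Nat.mul_le_mul_left _ h3))
    _ = K * (2 ^ F.card * (Y.image (er F)).card) := by ring
    _ ≤ _ := Nat.mul_le_mul_left _ h2

/-- closure under mixing -/
def Mix (X : Finset (Fin m → Bool)) (F G : Finset (Fin m)) : Prop :=
  ∀ x₁ ∈ X, ∀ x₂ ∈ X, ∀ y : Fin m → Bool, (∀ i, i ∉ G → y i = x₁ i) →
    (∀ i, i ∉ F → y i = x₂ i) → y ∈ X

lemma Mix.symm {X : Finset (Fin m → Bool)} {F G : Finset (Fin m)} (h : Mix X F G) : Mix X G F :=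
  fun x₁ h₁ x₂ h₂ y e₁ e₂ => h x₂ h₂ x₁ h₁ y e₂ e₁

lemma Mix.hyb_mem {X : Finset (Fin m → Bool)} {F G : Finset (Fin m)} (h : Mix X F G)
    {y o : Fin m → Bool} (hy : y ∈ X) (ho : o ∈ X) (e : ∀ i, i ∉ F ∪ G → y i = o i) :
    hyb F y o ∈ fib X F o := by
  refine mem_filter.2 ⟨h y hy o ho _ (fun i hi => ?_) fun i hi => by simp [hyb, hi],
    fun i hi => by simp [hyb, hi]⟩
  by_cases hF : i ∈ F
  · simp [hyb, hF]
  · simp [hyb, hF, e i (by simp [hF, hi])]

lemma fib_le {X : Finset (Fin m → Bool)} {F G : Finset (Fin m)} (h : Mix X F G)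
    {x o : Fin m → Bool} (ho : o ∈ X) (e : ∀ i, i ∉ F ∪ G → x i = o i) :
    (fib X F x).card ≤ (fib X F o).card := by
  refine card_le_card_of_injOn (fun y => hyb F y o) (fun y hy => ?_) fun y hy y' hy' hh => ?_
  · obtain ⟨h1, h2⟩ := mem_filter.1 (mem_coe.1 hy)
    exact mem_coe.2 (h.hyb_mem h1 ho fun i hi =>
      (h2 i fun h' => hi (mem_union_left _ h')).trans (e i hi))
  · funext i
    by_cases hF : i ∈ F
    · have := congrFun hh i
      simpa [hyb, hF] using this
    · rw [(mem_filter.1 (mem_coe.1 hy)).2 i hF, (mem_filter.1 (mem_coe.1 hy')).2 i hF]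

lemma class_sum {X : Finset (Fin m → Bool)} {F G : Finset (Fin m)} (h : Mix X F G)
    (hFG : Disjoint F G) (w : (Fin m → Bool) → ℝ) {o : Fin m → Bool} (ho : o ∈ X) :
    ∑ p ∈ fib X F o ×ˢ fib X G o, w (hyb F p.1 p.2) = ∑ x ∈ fib X (F ∪ G) o, w x := by
  refine sum_nbij' (fun p => hyb F p.1 p.2) (fun x => (hyb F x o, hyb G x o)) ?_ ?_ ?_ ?_
    fun _ _ => rfl
  · rintro ⟨u, v⟩ hp
    obtain ⟨hu, hv⟩ := mem_product.1 hp
    obtain ⟨u1, u2⟩ := mem_filter.1 hu
    obtain ⟨v1, v2⟩ := mem_filter.1 hv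
    refine mem_filter.2 ⟨h u u1 v v1 _ (fun i hi => ?_) fun i hi => by simp [hyb, hi],
      fun i hi => ?_⟩
    · by_cases hF : i ∈ F
      · simp [hyb, hF]
      · simp only [hyb, hF, if_false]
        exact (v2 i hi).trans (u2 i hF).symm
    · rw [mem_union, not_or] at hi
      simp only [hyb, hi.1, if_false]
      exact v2 i hi.2
  · intro x hx
    obtain ⟨h1, h2⟩ := mem_filter.1 hx
    exact mem_product.2 ⟨h.hyb_mem h1 ho h2,
      h.symm.hyb_mem h1 ho fun i hi => h2 i (by rwa [union_comm])⟩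
  · rintro ⟨u, v⟩ hp
    obtain ⟨hu, hv⟩ := mem_product.1 hp
    refine Prod.ext (funext fun i => ?_) (funext fun i => ?_)
    · by_cases hF : i ∈ F
      · simp [hyb, hF]
      · simp only [hyb, hF, if_false]
        exact ((mem_filter.1 hu).2 i hF).symm
    · by_cases hG : i ∈ G
      · simp [hyb, hG, disjoint_right.1 hFG hG]
      · simp only [hyb, hG, if_false]
        exact ((mem_filter.1 hv).2 i hG).symm
  · intro x hx
    funext i
    by_cases hF : i ∈ F
    · simp [hyb, hF]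
    · by_cases hG : i ∈ G
      · simp [hyb, hF, hG]
      · simp only [hyb, hF, hG, if_false]
        exact ((mem_filter.1 hx).2 i (by simp [hF, hG])).symm

lemma rect_sum {X : Finset (Fin m → Bool)} {F G : Finset (Fin m)} (h : Mix X F G)
    (hFG : Disjoint F G) {w : (Fin m → Bool) → ℝ} {K : ℕ} (hw : ∀ x, w x ≤ 1) (hN : Neg w K) :
    ∑ x ∈ X, w x ≤ (X.filter fun x => (fib X F x).card < K).card +
      (X.filter fun x => (fib X G x).card < K).card := by
  rw [card_filter, card_filter]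
  push_cast
  rw [← sub_nonpos, ← sum_add_distrib, ← sum_sub_distrib,
    ← sum_fiberwise_of_maps_to (g := er (F ∪ G)) (t := X.image (er (F ∪ G)))
      fun x hx => mem_image_of_mem _ hx]
  refine sum_nonpos fun b hb => ?_
  obtain ⟨o, ho, rfl⟩ := mem_image.1 hb
  by_cases h1 : (fib X F o).card < K
  · refine sum_nonpos fun x hx => ?_
    have := (fib_le h ho (er_eq.1 (mem_filter.1 hx).2)).trans_lt h1
    rw [if_pos this]
    have := hw x
    split_ifs <;> linarith
  by_cases h2 : (fib X G o).card < K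
  · refine sum_nonpos fun x hx => ?_
    have := (fib_le h.symm ho fun i hi =>
      er_eq.1 (mem_filter.1 hx).2 i (by rwa [union_comm])).trans_lt h2
    rw [if_pos this]
    have := hw x
    split_ifs <;> linarith
  have h3 := hN F G o _ _ hFG (not_lt.1 h1) (not_lt.1 h2) (fun u hu => (mem_filter.1 hu).2)
    fun u hu => (mem_filter.1 hu).2
  rw [class_sum h hFG w ho] at h3
  have e : (X.filter fun x => er (F ∪ G) x = er (F ∪ G) o) = fib X (F ∪ G) o :=
    filter_congr fun x _ => er_eq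
  rw [e]
  refine le_trans (sum_le_sum fun x _ => ?_) h3
  split_ifs <;> linarith

lemma choose_ratio {c n u : ℕ} (t : ℝ) (ht : 0 < t) (h : t ≤ (c : ℝ) + 1 - u) (hu : u ≤ c) :
    (n.choose u : ℝ) ≤ ((n : ℝ) / t) ^ u * c.choose u := by
  have h1 := Nat.choose_le_pow_div (α := ℝ) u n
  have h2 := Nat.pow_le_choose (α := ℝ) u c
  have h3 : t ^ u ≤ ((c + 1 - u : ℕ) : ℝ) ^ u := by
    refine pow_le_pow_left₀ ht.le ?_ u
    rw [Nat.cast_sub (by omega)]
    push_cast
    exact h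
  have h4 : (0 : ℝ) < u.factorial := by exact_mod_cast u.factorial_pos
  calc (n.choose u : ℝ) ≤ (n : ℝ) ^ u / u.factorial := h1
    _ = ((n : ℝ) / t) ^ u * (t ^ u / u.factorial) := by
      rw [div_pow]
      field_simp
    _ ≤ _ := by
      refine mul_le_mul_of_nonneg_left (le_trans ?_ h2) (by positivity)
      exact div_le_div_of_nonneg_right h3 h4.le

lemma one_class {K c c' u v : ℕ} {w : (Fin m → Bool) → ℝ}
    {D₁ D₂ : (Fin m → Bool) → Finset (Fin m)} {X : Finset (Fin m → Bool)}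
    (hw : ∀ x, w x ≤ 1) (hN : Neg w K) (h₁ : Det D₁) (h₂ : Det D₂)
    (hX : ∀ x₁ ∈ X, ∀ x₂ ∈ X, ∀ y : Fin m → Bool, (∀ i ∈ D₁ x₁, y i = x₁ i) →
      (∀ i ∈ D₂ x₂, y i = x₂ i) → y ∈ X)
    (hc : ∀ x ∈ X, (D₁ x)ᶜ.card = c' ∧ (D₂ x)ᶜ.card = c) :
    (c.choose u : ℝ) * c'.choose v * ∑ x ∈ X, w x ≤
      K * 2 ^ m * m.choose v * (c.choose u / 2 ^ u + m.choose u * 2 ^ u / 2 ^ v) := by
  let X' : Finset (Fin m) → Finset (Fin m) → Finset (Fin m → Bool) :=
    fun U V => X.filter fun x => U ⊆ (D₂ x)ᶜ ∧ V ⊆ (D₁ x)ᶜ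
  let Y : Finset (Fin m) → Finset (Fin m → Bool) :=
    fun U => univ.filter fun x => (D₂ x)ᶜ.card = c ∧ U ⊆ (D₂ x)ᶜ
  have cnt : ∀ (A : Finset (Fin m)) (k : ℕ),
      ((powersetCard k univ).filter fun U => U ⊆ A).card = A.card.choose k := by
    intro A k
    rw [← card_powersetCard]
    congr 1
    ext U
    simp [mem_powersetCard, and_comm]
  have e1 : ∑ U ∈ powersetCard u univ, ∑ V ∈ powersetCard v univ, ∑ x ∈ X' U V, w x =
      (c.choose u : ℝ) * c'.choose v * ∑ x ∈ X, w x := by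
    simp only [X', sum_filter]
    rw [mul_sum]
    refine (sum_congr rfl fun U _ => sum_comm).trans (sum_comm.trans (sum_congr rfl fun x hx => ?_))
    rw [← (hc x hx).1, ← (hc x hx).2, ← cnt, ← cnt, card_filter, card_filter]
    push_cast
    rw [sum_mul_sum, sum_mul]
    refine sum_congr rfl fun U _ => ?_
    rw [sum_mul]
    refine sum_congr rfl fun V _ => ?_
    by_cases a : U ⊆ (D₂ x)ᶜ <;> by_cases b : V ⊆ (D₁ x)ᶜ <;> simp [a, b]
  have e2 : ∑ U ∈ powersetCard u univ, ((Y U).card : ℝ) ≤ 2 ^ m * c.choose u := by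
    simp only [Y, card_filter]
    push_cast
    rw [sum_comm]
    refine (sum_le_card_nsmul _ _ (c.choose u : ℝ) fun x _ => ?_).trans (by simp)
    by_cases hx : (D₂ x)ᶜ.card = c
    · rw [← hx, ← cnt, card_filter]
      push_cast
      simp
    · simp [hx]
  have e3 : ∀ U ∈ powersetCard u (univ : Finset (Fin m)),
      ∀ V ∈ powersetCard v (univ : Finset (Fin m)), ∑ x ∈ X' U V, w x ≤
      K * (Y U).card / 2 ^ u + K * 2 ^ m * 2 ^ u / 2 ^ v := by
    intro U hU V hV
    have hU' := (mem_powersetCard.1 hU).2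
    have hV' := (mem_powersetCard.1 hV).2
    have agree : ∀ (D : (Fin m → Bool) → Finset (Fin m)) (x y : Fin m → Bool)
        (A B : Finset (Fin m)), A ⊆ (D x)ᶜ → B ⊆ A → (∀ i, i ∉ B → y i = x i) →
        ∀ i ∈ D x, y i = x i :=
      fun D x y A B hA hB hy i hi => hy i fun h' => mem_compl.1 (hA (hB h')) hi
    have hM : Mix (X' U V) U (V \ U) := by
      intro x₁ m₁ x₂ m₂ y a₁ a₂
      obtain ⟨m₁, -, n₁⟩ := mem_filter.1 m₁
      obtain ⟨m₂, n₂, -⟩ := mem_filter.1 m₂
      have b₁ := agree D₁ x₁ y V _ n₁ sdiff_subset a₁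
      have b₂ := agree D₂ x₂ y U _ n₂ (Subset.refl _) a₂
      exact mem_filter.2 ⟨hX x₁ m₁ x₂ m₂ y b₁ b₂, by rwa [h₂ _ _ b₂], by rwa [h₁ _ _ b₁]⟩
    have s1 := small_le (X' U V) (Y U) U K (fun x hx => mem_filter.2 ⟨mem_univ _,
      (hc x (mem_filter.1 hx).1).2, (mem_filter.1 hx).2.1⟩) (by
        intro x hx y hy
        obtain ⟨-, a, b⟩ := mem_filter.1 hx
        have := h₂ _ _ (agree D₂ x y U _ b (Subset.refl _) hy)
        exact mem_filter.2 ⟨mem_univ _, by rwa [this], by rwa [this]⟩)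
    have s2 := small_le (X' U V) univ (V \ U) K (subset_univ _) fun _ _ _ _ => mem_univ _
    have s3 : 2 ^ v ≤ 2 ^ (V \ U).card * 2 ^ u := by
      rw [← pow_add]
      refine Nat.pow_le_pow_right (by norm_num) ?_
      have := le_card_sdiff U V
      omega
    have s4 : ((X' U V).filter fun x => (fib (X' U V) (V \ U) x).card < K).card * 2 ^ v ≤
        K * 2 ^ m * 2 ^ u := by
      refine (Nat.mul_le_mul_left _ s3).trans ?_
      rw [← mul_assoc]
      refine Nat.mul_le_mul_right _ (s2.trans (by simp))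
    rw [hU'] at s1
    refine (rect_sum hM disjoint_sdiff hw hN).trans (add_le_add ?_ ?_)
    · rw [le_div_iff₀ (by positivity)]
      exact_mod_cast s1
    · rw [le_div_iff₀ (by positivity)]
      exact_mod_cast s4
  rw [← e1]
  refine (sum_le_sum fun U hU => sum_le_sum (e3 U hU)).trans ?_
  simp only [sum_const, card_powersetCard, card_univ, Fintype.card_fin, nsmul_eq_mul,
    sum_add_distrib, mul_add]
  refine add_le_add ?_ (le_of_eq (by ring))
  rw [← mul_sum, ← sum_div, ← mul_sum]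
  calc (m.choose v : ℝ) * (K * (∑ U ∈ powersetCard u univ, ((Y U).card : ℝ)) / 2 ^ u)
      ≤ m.choose v * (K * (2 ^ m * c.choose u) / 2 ^ u) := by gcongr
    _ = _ := by ring

end Two

open Two in
theorem two : TwoStmt := by
  intro m K a b u v w D₁ D₂ X hw hN h₁ h₂ hX hs hav hub
  have ha : (0 : ℝ) < (m : ℝ) + 1 - a - v := by
    have : (a : ℝ) + v ≤ m := by exact_mod_cast hav
    linarith
  have hb : (0 : ℝ) < (b : ℝ) + 1 - u := by
    have : (u : ℝ) ≤ b := by exact_mod_cast hub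
    linarith
  set B : ℝ := K * 2 ^ m * ((m : ℝ) / ((m : ℝ) + 1 - a - v)) ^ v *
    (1 / 2 ^ u + ((m : ℝ) / ((b : ℝ) + 1 - u)) ^ u * 2 ^ u / 2 ^ v) with hB
  have hcard : ∀ A : Finset (Fin m), A.card ∈ range (m + 1) := fun A =>
    mem_range.2 (Nat.lt_succ_of_le ((card_le_univ A).trans (by simp)))
  rw [← sum_fiberwise_of_maps_to (g := fun x => ((D₁ x)ᶜ.card, (D₂ x)ᶜ.card))
    (t := range (m + 1) ×ˢ range (m + 1)) fun x _ => mem_product.2 ⟨hcard _, hcard _⟩]
  refine (sum_le_card_nsmul _ _ B fun p _ => ?_).trans (le_of_eq ?_)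
  swap
  · simp only [card_product, card_range, nsmul_eq_mul, bnd, hB]
    push_cast
    ring
  obtain ⟨c', c⟩ := p
  rcases (X.filter fun x => ((D₁ x)ᶜ.card, (D₂ x)ᶜ.card) = (c', c)).eq_empty_or_nonempty with
    h0 | ⟨x₀, hx₀⟩
  · rw [h0, sum_empty]
    positivity
  obtain ⟨hx₀, e₀⟩ := mem_filter.1 hx₀
  obtain ⟨e₁, e₂⟩ := Prod.mk.inj e₀
  have hc : b ≤ c := e₂ ▸ (hs x₀ hx₀).2
  have hc' : m ≤ c' + a := by
    have := (hs x₀ hx₀).1
    rw [card_compl, Fintype.card_fin] at e₁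
    omega
  have key := one_class (u := u) (v := v) (c := c) (c' := c') hw hN h₁ h₂
    (X := X.filter fun x => ((D₁ x)ᶜ.card, (D₂ x)ᶜ.card) = (c', c)) (by
      intro x₁ m₁ x₂ m₂ y a₁ a₂
      refine mem_filter.2 ⟨hX x₁ (mem_filter.1 m₁).1 x₂ (mem_filter.1 m₂).1 y a₁ a₂, ?_⟩
      rw [h₁ _ _ a₁, h₂ _ _ a₂, (Prod.mk.inj (mem_filter.1 m₁).2).1,
        (Prod.mk.inj (mem_filter.1 m₂).2).2])
    fun x hx => Prod.mk.inj (mem_filter.1 hx).2
  have r1 := choose_ratio (n := m) (c := c') (u := v) _ ha (by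
    have : (m : ℝ) ≤ c' + a := by exact_mod_cast hc'
    linarith) (by omega)
  have r2 := choose_ratio (n := m) (c := c) (u := u) _ hb (by
    have : (b : ℝ) ≤ c := by exact_mod_cast hc
    linarith) (by omega)
  have p1 : (0 : ℝ) < c.choose u := by exact_mod_cast Nat.choose_pos (by omega)
  have p2 : (0 : ℝ) < c'.choose v := by exact_mod_cast Nat.choose_pos (by omega)
  refine le_of_mul_le_mul_left (key.trans ?_) (mul_pos p1 p2)
  calc (K : ℝ) * 2 ^ m * m.choose v * (c.choose u / 2 ^ u + m.choose u * 2 ^ u / 2 ^ v)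
      ≤ K * 2 ^ m * (((m : ℝ) / ((m : ℝ) + 1 - a - v)) ^ v * c'.choose v) *
        (c.choose u / 2 ^ u + (((m : ℝ) / ((b : ℝ) + 1 - u)) ^ u * c.choose u) * 2 ^ u / 2 ^ v) := by
        gcongr
    _ = _ := by rw [hB]; ring

end Pool.Agent.MP_6b3410_lc.T26
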